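import Pool.Agent.KS6_26.E.Ext
import Pool.Agent.KS6_26.D.Scale
import Pool.Graph.R_seed8.TH812.GV2.Duals

/-!
The derivations for forms whose coefficients, or ratios of coefficients, generate a field of large
transcendence degree.
-/

set_option autoImplicit false

open FF Pool.Agent.W603.LV Pool.Agent.W603.PV Pool.Agent.TH145.GH
open Pool.Agent.TH812.GV2 (GoodS exists_duals2)
open Pool.Agent.KS6_26.D (mn mdeg Rel Blk kr exists_free)

namespace Pool.Agent.KS6_26.E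

/-- The indices of the coefficients; for the forms in `R` the coefficient of `I0` is left out. -/
abbrev Jx {ι S A : Type} [DecidableEq S] (R : Set A) (β : ι → S) (d : A → S → ℕ)
    (I0 : A → ι →₀ ℕ) : Type :=
  {p : A × (ι →₀ ℕ) // mdeg β p.2 = d p.1 ∧ (p.1 ∈ R → p.2 ≠ I0 p.1)}

theorem finite_Jx {ι S A : Type} [DecidableEq S] [Finite A] {R : Set A} {β : ι → S}
    {d : A → S → ℕ} {Mn : A → Finset (ι →₀ ℕ)} (hMn : ∀ a I, I ∈ Mn a ↔ mdeg β I = d a)
    (I0 : A → ι →₀ ℕ) : Finite (Jx R β d I0) := by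
  have := Fintype.ofFinite A
  refine Finite.of_injective (β := Σ a, {I // I ∈ Mn a})
    (fun p => ⟨p.1.1, p.1.2, (hMn _ _).2 p.2.1⟩) ?_
  rintro ⟨⟨a, I⟩, h1⟩ ⟨⟨b, J⟩, h2⟩ h
  have h3 : a = b := congrArg Sigma.fst h
  subst h3
  have h4 := eq_of_heq (Sigma.mk.inj_iff.1 h).2
  have h5 : I = J := congrArg Subtype.val h4
  subst h5
  rfl

/-- Independent coefficients. -/
theorem free_of {k K ι S A : Type} [Field k] [Field K] [Algebra k K] [DecidableEq S] {R : Set A}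
    {β : ι → S} {d : A → S → ℕ} {I0 : A → ι →₀ ℕ} [Finite (Jx R β d I0)]
    (P : A × (ι →₀ ℕ) → Prop)
    (hP : ∀ p, P p ↔ mdeg β p.2 = d p.1 ∧ (p.1 ∈ R → p.2 ≠ I0 p.1)) (z : A × (ι →₀ ℕ) → K)
    {δ : ℕ} (htr : (Nat.card {p // P p} : Cardinal) ≤ Algebra.trdeg k
      (IntermediateField.adjoin k (Set.range fun p : {p // P p} => z p)) + δ) :
    ∃ B : Finset (Jx R β d I0), AlgebraicIndependent k (fun b : B => z b.1.1) ∧
      Nat.card (Jx R β d I0) ≤ B.card + δ := by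
  have h : P = fun p => mdeg β p.2 = d p.1 ∧ (p.1 ∈ R → p.2 ≠ I0 p.1) :=
    funext fun p => propext (hP p)
  subst h
  exact exists_free _ htr

/-- Independent coefficients. -/
theorem all_of {k K ι S A : Type} [Field k] [Field K] [Algebra k K] [DecidableEq S] {R : Set A}
    {β : ι → S} {d : A → S → ℕ} {I0 : A → ι →₀ ℕ} [Finite (Jx R β d I0)]
    (P : A × (ι →₀ ℕ) → Prop)
    (hP : ∀ p, P p ↔ mdeg β p.2 = d p.1 ∧ (p.1 ∈ R → p.2 ≠ I0 p.1)) (z : A × (ι →₀ ℕ) → K)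
    (hgen : AlgebraicIndependent k fun p : {p // P p} => z p) :
    ∃ B : Finset (Jx R β d I0), AlgebraicIndependent k (fun b : B => z b.1.1) ∧
      Nat.card (Jx R β d I0) ≤ B.card + 0 := by
  have h : P = fun p => mdeg β p.2 = d p.1 ∧ (p.1 ∈ R → p.2 ≠ I0 p.1) :=
    funext fun p => propext (hP p)
  subst h
  have : Fintype (Jx R β d I0) := Fintype.ofFinite _
  refine ⟨Finset.univ, hgen.comp (fun b : (Finset.univ : Finset (Jx R β d I0)) => b.1)
    Subtype.val_injective, ?_⟩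
  rw [Nat.card_eq_fintype_card, Finset.card_univ]
  exact le_of_eq (add_zero _).symm

/-- The data. -/
theorem exists_data {k0 k F0 F : Type} [Field k0] [Field k] [Field F0] [Field F] [Algebra k0 k]
    [Algebra k F] [Algebra k0 F] [IsScalarTower k0 k F] [Algebra k0 F0] [Algebra F0 F]
    [IsScalarTower k0 F0 F] [IsAlgClosed k] [CharZero k] [IsFF k F]
    (hfg : ∃ S : Finset F0, IntermediateField.adjoin k0 (S : Set F0) = ⊤)
    {ι S A : Type} [DecidableEq S] {R : Set A} {β : ι → S} {d : A → S → ℕ}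
    {I0 : A → ι →₀ ℕ} [Finite (Jx R β d I0)] {t : A → (ι →₀ ℕ) → F}
    (h1 : ∀ a ∈ R, t a (I0 a) = 1) {B : Finset (Jx R β d I0)}
    (hBi : AlgebraicIndependent F0 fun b : B => t b.1.1.1 b.1.1.2) {δ : ℕ}
    (hBc : Nat.card (Jx R β d I0) ≤ B.card + δ) :
    ∃ (Δ : Type) (_ : Fintype Δ) (D : A → (ι →₀ ℕ) → Derivation ℤ F F)
      (c : A → (ι →₀ ℕ) → Δ → F) (ε : A → (ι →₀ ℕ) → F) (q : Δ → A × (ι →₀ ℕ)),
      Fintype.card Δ ≤ δ ∧ Rel F0 β d D c (fun ξ : Empty => ξ.elim) t ε q ∧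
      (∀ a I, GoodS k (D a I)) ∧ ∀ a I, a ∉ R → ε a I = 0 := by
  classical
  have : Fintype (Jx R β d I0) := Fintype.ofFinite _
  obtain ⟨D0, hD0g, hD0k, hD0⟩ := exists_duals2 (k0 := k0) (k := k) (F0 := F0) (F := F) hfg
    (fun b : B => t b.1.1.1 b.1.1.2) hBi
  have hD0' : ∀ b b' : B, D0 b (t b'.1.1.1 b'.1.1.2) = if b = b' then 1 else 0 := by
    intro b b'
    split_ifs with h
    · exact (hD0 b b').1 h
    · exact (hD0 b b').2 h
  obtain ⟨Δ, hΔ⟩ : ∃ Δ, Δ = {p : Jx R β d I0 // p ∉ B} := ⟨_, rfl⟩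
  subst hΔ
  obtain ⟨q, hq⟩ : ∃ q : {p : Jx R β d I0 // p ∉ B} → A × (ι →₀ ℕ), ∀ p, q p = p.1.1 :=
    ⟨_, fun _ => rfl⟩
  have hΔc : Fintype.card {p : Jx R β d I0 // p ∉ B} ≤ δ := by
    have h1 := Fintype.card_subtype_compl fun p => p ∈ B
    have h2 : Fintype.card {p : Jx R β d I0 // p ∈ B} = B.card := Fintype.card_coe B
    rw [Nat.card_eq_fintype_card] at hBc
    rw [h2] at h1
    omega
  -- the derivations
  obtain ⟨D, hD1, hD2, hD3⟩ : ∃ D : A → (ι →₀ ℕ) → Derivation ℤ F F,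
      (∀ a ∈ R, D a (I0 a) = -∑ b : B, (if b.1.1.1 = a then t b.1.1.1 b.1.1.2 • D0 b else 0)) ∧
      (∀ b : B, D b.1.1.1 b.1.1.2 = D0 b) ∧
      ∀ a I, ¬ (a ∈ R ∧ I = I0 a) → (∀ b : B, b.1.1 ≠ (a, I)) → D a I = 0 := by
    refine ⟨fun a I => if a ∈ R ∧ I = I0 a then
      -∑ b : B, (if b.1.1.1 = a then t b.1.1.1 b.1.1.2 • D0 b else 0) else
      if h : ∃ b : B, b.1.1 = (a, I) then D0 h.choose else 0,
      fun a ha => ?_, fun b => ?_, fun a I hI hb => ?_⟩
    · simp only [ha, and_self, if_true]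
    · have h1 : ∃ b' : B, b'.1.1 = (b.1.1.1, b.1.1.2) := ⟨b, rfl⟩
      have h3 : ¬ (b.1.1.1 ∈ R ∧ b.1.1.2 = I0 b.1.1.1) := fun h => b.1.2.2 h.1 h.2
      simp only [if_neg h3, dif_pos h1]
      have h2 : h1.choose = b := Subtype.ext (Subtype.ext h1.choose_spec)
      rw [h2]
    · have h1 : ¬ ∃ b : B, b.1.1 = (a, I) := fun ⟨b, h⟩ => hb b h
      simp only [if_neg hI, dif_neg h1]
  have hcases : ∀ a I, (a ∈ R ∧ I = I0 a) ∨ (∃ b : B, b.1.1 = (a, I)) ∨
      (¬ (a ∈ R ∧ I = I0 a) ∧ ∀ b : B, b.1.1 ≠ (a, I)) := by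
    intro a I
    by_cases h1 : a ∈ R ∧ I = I0 a
    · exact Or.inl h1
    · by_cases h2 : ∃ b : B, b.1.1 = (a, I)
      · exact Or.inr (Or.inl h2)
      · push Not at h2
        exact Or.inr (Or.inr ⟨h1, h2⟩)
  have hDg : ∀ a I, GoodS k (D a I) := by
    intro a I
    rcases hcases a I with ⟨h, rfl⟩ | ⟨b, hb⟩ | ⟨h, h2⟩
    · rw [hD1 a h]
      refine (GoodS.sum _ _ fun b _ => ?_).neg
      split_ifs
      · exact (hD0g b).smul _
      · exact GoodS.zero
    · have h3 : D a I = D b.1.1.1 b.1.1.2 := by rw [hb]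
      rw [h3, hD2]
      exact hD0g b
    · rw [hD3 a I h h2]
      exact GoodS.zero
  have hsum : ∀ a f, (-∑ b : B, (if b.1.1.1 = a then t b.1.1.1 b.1.1.2 • D0 b else 0)) f =
      -∑ b : B, (if b.1.1.1 = a then t b.1.1.1 b.1.1.2 * D0 b f else 0) := by
    intro a f
    rw [Derivation.neg_apply]
    congr 1
    rw [← Derivation.coeFnAddMonoidHom_apply, map_sum, Finset.sum_apply]
    refine Finset.sum_congr rfl fun b _ => ?_
    split_ifs
    · rfl
    · rfl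
  have hDk : ∀ a I (r : F0), D a I (algebraMap F0 F r) = 0 := by
    intro a I r
    rcases hcases a I with ⟨h, rfl⟩ | ⟨b, hb⟩ | ⟨h, h2⟩
    · rw [hD1 a h, hsum, neg_eq_zero]
      refine Finset.sum_eq_zero fun b _ => ?_
      rw [hD0k, mul_zero, ite_self]
    · have h3 : D a I = D b.1.1.1 b.1.1.2 := by rw [hb]
      rw [h3, hD2]
      exact hD0k b r
    · rw [hD3 a I h h2]
      rfl
  obtain ⟨ε, hε⟩ : ∃ ε : A → (ι →₀ ℕ) → F, ∀ a I, ε a I = if a ∈ R ∧ I = I0 a then -1 else 0 :=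
    ⟨_, fun _ _ => rfl⟩
  have hDt : ∀ a I b J, mdeg β I = d a → mdeg β J = d b → (∀ δ, q δ ≠ (b, J)) →
      D a I (t b J) = kr t ε a I b J := by
    intro a I b J hI hJ hqJ
    have hbJ : (b ∈ R ∧ J = I0 b) ∨ ∃ b' : B, b'.1.1 = (b, J) := by
      by_cases h : b ∈ R ∧ J = I0 b
      · exact Or.inl h
      · right
        have h2 : b ∈ R → J ≠ I0 b := fun h3 h4 => h ⟨h3, h4⟩
        by_cases h3 : (⟨(b, J), hJ, h2⟩ : Jx R β d I0) ∈ B
        · exact ⟨⟨_, h3⟩, rfl⟩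
        · exact absurd (hq ⟨_, h3⟩) (hqJ ⟨_, h3⟩)
    unfold kr
    rcases hbJ with ⟨hbR, rfl⟩ | ⟨b', hb'⟩
    · rw [h1 b hbR, (D a I).map_one_eq_zero]
      by_cases hab : a = b
      · subst hab
        by_cases hI' : I = I0 a
        · subst hI'
          rw [hε, if_pos rfl, if_pos rfl, if_pos ⟨hbR, rfl⟩]
          ring
        · rw [hε, if_neg (fun h => hI' (Prod.mk_inj.1 h).2), if_pos rfl,
            if_neg (fun h => hI' h.2)]
          ring
      · rw [if_neg (fun h => hab (Prod.mk_inj.1 h).1), if_neg hab, add_zero]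
    · have htb : t b J = t b'.1.1.1 b'.1.1.2 := by rw [hb']
      rw [htb]
      rcases hcases a I with ⟨h, rfl⟩ | ⟨c, hc⟩ | ⟨h, h2⟩
      · have h3 : (a, I0 a) ≠ (b, J) := fun h4 => by
          rw [← hb'] at h4
          have h5 := b'.1.2.2
          rw [← h4] at h5
          exact h5 h rfl
        rw [hD1 a h, hsum, if_neg h3, zero_add]
        simp only [hD0']
        by_cases hab : a = b
        · rw [if_pos hab, hε, if_pos ⟨h, rfl⟩, Finset.sum_eq_single b']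
          · have h4 : b'.1.1.1 = a := by rw [hb', hab]
            rw [if_pos h4, if_pos rfl]
            ring
          · intro c _ hc
            rw [if_neg hc, mul_zero, ite_self]
          · intro h4; exact absurd (Finset.mem_univ _) h4
        · rw [if_neg hab, neg_eq_zero]
          refine Finset.sum_eq_zero fun c _ => ?_
          by_cases hcb : c = b'
          · rw [hcb, if_neg]
            rw [hb']
            exact fun h4 => hab h4.symm
          · rw [if_neg hcb, mul_zero, ite_self]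
      · have h3 : D a I = D c.1.1.1 c.1.1.2 := by rw [hc]
        have h4 : ¬ (a ∈ R ∧ I = I0 a) := by
          have h5 := c.1.2.2
          rw [hc] at h5
          exact fun h6 => h5 h6.1 h6.2
        rw [h3, hD2, hD0', hε, if_neg h4, zero_mul, ite_self, add_zero]
        by_cases hcb : c = b'
        · rw [if_pos hcb, if_pos]
          rw [← hc, ← hb', hcb]
        · rw [if_neg hcb, if_neg]
          intro h5
          apply hcb
          apply Subtype.ext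
          apply Subtype.ext
          rw [hc, hb', h5]
      · rw [hD3 a I h h2, hε, if_neg h, zero_mul, ite_self, add_zero, if_neg]
        · rfl
        · intro h3
          exact h2 b' (by rw [hb', h3])
  refine ⟨_, inferInstance, D, fun a I δ => kr t ε a I (q δ).1 (q δ).2 -
    D a I (t (q δ).1 (q δ).2), ε, q, hΔc, ⟨hDk, fun ξ => ξ.elim, fun ξ => ξ.elim, fun δ => ?_,
    fun a I δ _ => rfl, hDt⟩, hDg, fun a I ha => ?_⟩
  · rw [hq]
    exact δ.1.2.1
  · rw [hε, if_neg (fun h => ha h.1)]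

theorem NumK.mono {k0 K : Type} [Field k0] [Field K] [Algebra k0 K] {ι S A Λ : Type} [Fintype A]
    {R : Set A} {β : ι → S} {d : A → S → ℕ} {δ δ' : ℕ} {γ : Λ → A → ℤ} {κ : S → ℤ} {x : ι → K}
    {u : A → K} {ψ : Λ → K} (h : NumK k0 R β d δ γ κ x u ψ) (hδ : δ' ≤ δ) :
    NumK k0 R β d δ' γ κ x u ψ := by
  obtain ⟨r, f, m, h1, h2, h3, h4⟩ := h
  refine ⟨r, f, m, h1, h2, h3, fun B hB s => ?_⟩
  have := h4 B hB s
  omega

/-- **The height inequality for forms with large transcendence degree.** -/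
theorem height_main {k0 k F0 F : Type} [Field k0] [Field k] [Field F0] [Field F] [Algebra k0 k]
    [Algebra k F] [Algebra k0 F] [IsScalarTower k0 k F] [Algebra k0 F0] [Algebra F0 F]
    [IsScalarTower k0 F0 F] [IsAlgClosed k] [CharZero k] [IsFF k F]
    (hfg : ∃ S : Finset F0, IntermediateField.adjoin k0 (S : Set F0) = ⊤)
    {ι S A : Type} [Fintype ι] [DecidableEq S] [Fintype S] [Fintype A] {β : ι → S}
    {d : A → S → ℕ} {n : S → ℕ} {en : ∀ s, Fin (n s + 1) → ι} (hB : Blk β n en)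
    {Mn : A → Finset (ι →₀ ℕ)} (hMn : ∀ a I, I ∈ Mn a ↔ mdeg β I = d a) {R : Set A}
    {I0 : A → ι →₀ ℕ} {t : A → (ι →₀ ℕ) → F} (h1 : ∀ a ∈ R, t a (I0 a) = 1) {δ : ℕ}
    {B : Finset (Jx R β d I0)} (hBi : AlgebraicIndependent F0 fun b : B => t b.1.1.1 b.1.1.2)
    (hBc : Nat.card (Jx R β d I0) ≤ B.card + δ) (S0 : Finset (Place k F)) (NΛ : ℕ) :
    ∃ C : ℕ, ∀ (L : Type) [Field L] [Algebra k L] [Algebra F L] [Algebra F0 L]
      [IsScalarTower k F L] [IsScalarTower F0 F L] [FiniteDimensional F L] [IsFF k L]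
      (x : ι → L) (l0 : S → ι), (∀ s, β (l0 s) = s) → (∀ s, x (l0 s) = 1) →
      ∀ (u : A → L), (∀ a, u a = ∑ J ∈ Mn a, algebraMap F L (t a J) * mn x J) →
      ∀ (Λ : Type) [Fintype Λ], Fintype.card Λ ≤ NΛ → ∀ (ed : Λ → S → ℕ) (γ : Λ → A → ℤ)
        (ψ : Λ → L), (∀ b, ψ b ≠ 0) → (∀ (P : Place k L) b, under F P ∉ S0 →
          Ge P (∑ s, (ed b s : ℤ) * pord P (fun j => x (en s j))) (ψ b)) →
        ∀ (κ : S → ℤ), NumK F0 R β d δ γ κ x u ψ →
        ∑ s, κ s * pht k (fun j => x (en s j)) ≤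
          {P : Place k L | ∃ b, ∑ s, (ed b s : ℤ) * pord P (fun j => x (en s j)) <
            P.ord (ψ b)}.ncard + canDeg k L + C * Module.finrank F L := by
  have hfin := finite_Jx (R := R) hMn I0
  obtain ⟨Δ, _, D, c, ε, q, hΔ, hrel, hgood, hε⟩ := exists_data (k0 := k0) (k := k) hfg h1 hBi hBc
  obtain ⟨C, hC⟩ := ext hB hrel hgood hε hMn S0 NΛ
  refine ⟨C, ?_⟩
  intro L _ _ _ _ _ _ _ _ x l0 hl0 hx0 u hu Λ _ hΛ ed γ ψ h1 h2 κ hnum
  exact hC L x l0 hl0 hx0 u hu Λ hΛ ed γ ψ h1 h2 κ (hnum.mono hΔ)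

end Pool.Agent.KS6_26.E
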