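import Mathlib

/-!
# Weighted 0-1 matrices with prescribed row and column sums

The columns are read one after the other; a column `P` has weight
`∏_{p ∈ P, i ∉ P} (1 - 1 / (p - i))`, the product over the pairs with congruent counters.
-/

namespace Pool.Agent.KS6_26.E

open Finset

variable {n : ℕ}

/-- the weight of the column `P`, if the rows `i` already contain `c i` entries -/
noncomputable def colWt (k : ℕ) (c : Fin n → ℕ) (P : Finset (Fin n)) : ℚ :=
  ∏ p ∈ P, ∏ i ∈ Pᶜ, if c p ≡ c i [MOD k] then 1 - ((p.val : ℚ) - (i.val : ℚ))⁻¹ else 1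

/-- add the column `P` to the counters -/
def addCol (c : Fin n → ℕ) (P : Finset (Fin n)) : Fin n → ℕ :=
  fun i => c i + if i ∈ P then 1 else 0

/-- The sum of the weights of all continuations of a 0-1 matrix which has already `c i` entries in
the row `i`, by columns with the sums given by the list, such that at the end the row `i` has the
sum `r i`. -/
noncomputable def walks (k : ℕ) (r : Fin n → ℕ) : List ℕ → (Fin n → ℕ) → ℚ
  | [], c => if c = r then 1 else 0
  | b :: l, c => ∑ P ∈ (univ : Finset (Fin n)).powersetCard b,
      colWt k c P * walks k r l (addCol c P)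

theorem fac_nonneg (k : ℕ) (c : Fin n → ℕ) (p i : Fin n) :
    (0 : ℚ) ≤ if c p ≡ c i [MOD k] then 1 - ((p.val : ℚ) - (i.val : ℚ))⁻¹ else 1 := by
  split_ifs
  · by_cases hlt : p.val ≤ i.val
    · have : ((p.val : ℚ) - (i.val : ℚ))⁻¹ ≤ 0 := by
        rw [inv_nonpos]
        have : (p.val : ℚ) ≤ (i.val : ℚ) := by exact_mod_cast hlt
        linarith
      linarith
    · push Not at hlt
      have h1 : (1 : ℚ) ≤ (p.val : ℚ) - (i.val : ℚ) := by
        have : (i.val : ℚ) + 1 ≤ (p.val : ℚ) := by exact_mod_cast hlt
        linarith
      have := inv_le_one_of_one_le₀ h1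
      linarith
  · norm_num

theorem colWt_nonneg (k : ℕ) (c : Fin n → ℕ) (P : Finset (Fin n)) : 0 ≤ colWt k c P :=
  prod_nonneg fun p _ => prod_nonneg fun i _ => fac_nonneg k c p i

theorem walks_nonneg (k : ℕ) (r : Fin n → ℕ) : ∀ (l : List ℕ) (c : Fin n → ℕ),
    0 ≤ walks k r l c := by
  intro l
  induction l with
  | nil => intro c; unfold walks; split_ifs <;> norm_num
  | cons b l ih =>
    intro c
    unfold walks
    exact sum_nonneg fun P _ => mul_nonneg (colWt_nonneg k c P) (ih _)

/-- A column has positive weight if it has no entry directly after a gap in rows with congruent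
counters. -/
theorem colWt_pos (k : ℕ) (c : Fin n → ℕ) (P : Finset (Fin n))
    (h : ∀ p ∈ P, ∀ i, i ∉ P → p.val = i.val + 1 → ¬ c p ≡ c i [MOD k]) : 0 < colWt k c P := by
  refine prod_pos fun p hp => prod_pos fun i hi => ?_
  rw [mem_compl] at hi
  split_ifs with hc
  · have hne : p.val ≠ i.val + 1 := fun e => h p hp i hi e hc
    by_cases hlt : p.val ≤ i.val
    · have : ((p.val : ℚ) - (i.val : ℚ))⁻¹ ≤ 0 := by
        rw [inv_nonpos]
        have : (p.val : ℚ) ≤ (i.val : ℚ) := by exact_mod_cast hlt
        linarith
      linarith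
    · have h2 : i.val + 2 ≤ p.val := by omega
      have h1 : (2 : ℚ) ≤ (p.val : ℚ) - (i.val : ℚ) := by
        have : (i.val : ℚ) + 2 ≤ (p.val : ℚ) := by exact_mod_cast h2
        linarith
      have h3 : ((p.val : ℚ) - (i.val : ℚ))⁻¹ ≤ 2⁻¹ := inv_anti₀ (by norm_num) h1
      norm_num at h3 ⊢
      linarith
  · norm_num

/-! ### The necessary condition -/

theorem card_inter_ge (P : Finset (Fin n)) (m : ℕ) :
    P.card - m ≤ (P.filter fun i => m ≤ i.val).card := by
  have h1 := card_filter_add_card_filter_not (s := P) (fun i : Fin n => m ≤ i.val)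
  have h2 : (P.filter fun i : Fin n => ¬ m ≤ i.val).card ≤ m := by
    calc (P.filter fun i : Fin n => ¬ m ≤ i.val).card
        ≤ (univ.filter fun i : Fin n => i.val < m).card := by
          apply card_le_card
          intro i hi
          rw [mem_filter] at hi ⊢
          exact ⟨mem_univ _, by omega⟩
      _ ≤ m := by
          rw [Fin.card_filter_val_lt]
          exact min_le_right _ _
  omega

theorem walks_necessary (k : ℕ) (r : Fin n → ℕ) : ∀ (l : List ℕ) (c : Fin n → ℕ),
    walks k r l c ≠ 0 → ∀ m : ℕ, (l.map (· - m)).sum + ∑ i : Fin n with m ≤ i.val, c i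
      ≤ ∑ i : Fin n with m ≤ i.val, r i := by
  intro l
  induction l with
  | nil =>
    intro c h m
    unfold walks at h
    by_cases hc : c = r
    · subst hc; simp
    · rw [if_neg hc] at h; exact absurd rfl h
  | cons b l ih =>
    intro c h m
    unfold walks at h
    obtain ⟨P, hP, hne⟩ := exists_ne_zero_of_sum_ne_zero h
    have h1 := ih (addCol c P) (right_ne_zero_of_mul hne) m
    have h2 : ∑ i : Fin n with m ≤ i.val, addCol c P i
        = ∑ i : Fin n with m ≤ i.val, c i + (P.filter fun i => m ≤ i.val).card := by
      unfold addCol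
      rw [sum_add_distrib, ← sum_filter, sum_const, smul_eq_mul, mul_one]
      congr 2
      ext i
      simp only [mem_filter, mem_univ, true_and]
      tauto
    have h3 := card_inter_ge P m
    rw [(mem_powersetCard.1 hP).2] at h3
    rw [List.map_cons, List.sum_cons]
    omega

/-! ### The greedy step of Gale and Ryser -/

/-- the Gale-Ryser condition for row sums `r` and column sums `l` -/
def GR (r : Fin n → ℕ) (l : List ℕ) : Prop :=
  ∀ S : Finset (Fin n), (l.map (· - S.card)).sum ≤ ∑ i ∈ Sᶜ, r i

theorem slope_up (l : List ℕ) (s a : ℕ) :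
    (l.map (· - s)).sum ≤ (l.map (· - (s + a))).sum + (l.countP (fun x => decide (s < x))) * a := by
  induction l with
  | nil => simp
  | cons b l ih =>
    rw [List.map_cons, List.map_cons, List.sum_cons, List.sum_cons, List.countP_cons]
    by_cases h : s < b
    · simp only [h, decide_true, if_true]
      rw [add_mul]
      omega
    · simp only [h, decide_false, Bool.false_eq_true, if_false, Nat.add_zero]
      omega

theorem slope_down (l : List ℕ) (s c : ℕ) (hc : c ≤ s) :
    (l.map (· - s)).sum + (l.countP (fun x => decide (s < x))) * c ≤ (l.map (· - (s - c))).sum := by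
  induction l with
  | nil => simp
  | cons b l ih =>
    rw [List.map_cons, List.map_cons, List.sum_cons, List.sum_cons, List.countP_cons]
    by_cases h : s < b
    · simp only [h, decide_true, if_true]
      rw [add_mul]
      omega
    · simp only [h, decide_false, Bool.false_eq_true, if_false, Nat.add_zero]
      omega

/-- removing a column in the largest rows keeps the Gale-Ryser condition -/
theorem GR_step {r : Fin n → ℕ} {b : ℕ} {l : List ℕ} (h : GR r (b :: l)) {P : Finset (Fin n)}
    (hP : P.card = b) (htop : ∀ p ∈ P, ∀ i, i ∉ P → r i ≤ r p) :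
    (∀ p ∈ P, 1 ≤ r p) ∧ GR (fun i => r i - if i ∈ P then 1 else 0) l := by
  have hpos : ∀ p ∈ P, 1 ≤ r p := by
    intro p hp
    by_contra h0
    have h1 := h (P.erase p)
    rw [List.map_cons, List.sum_cons, card_erase_of_mem hp, hP] at h1
    have hb : 1 ≤ b := by rw [← hP]; exact card_pos.2 ⟨p, hp⟩
    have h2 : ∑ i ∈ (P.erase p)ᶜ, r i = 0 := by
      refine sum_eq_zero fun i hi => ?_
      rw [mem_compl, mem_erase, not_and] at hi
      by_cases hip : i = p
      · subst hip; omega
      · have := htop p hp i (hi hip)
        omega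
    omega
  refine ⟨hpos, fun S => ?_⟩
  by_contra hcon
  push Not at hcon
  -- the sum of the new rows outside of `S`
  have hsum : ∑ i ∈ Sᶜ, (r i - if i ∈ P then 1 else 0) + (P \ S).card = ∑ i ∈ Sᶜ, r i := by
    have : (P \ S).card = ∑ i ∈ Sᶜ, if i ∈ P then 1 else 0 := by
      rw [← sum_filter, sum_const, smul_eq_mul, mul_one]
      congr 1
      ext i
      simp only [mem_sdiff, mem_filter, mem_compl]
      tauto
    rw [this, ← sum_add_distrib]
    refine sum_congr rfl fun i _ => ?_
    split_ifs with hi
    · have := hpos i hi; omega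
    · omega
  have h0 := h S
  rw [List.map_cons, List.sum_cons] at h0
  set L : ℕ → ℕ := fun s => (l.map (· - s)).sum with hL
  change ∑ i ∈ Sᶜ, (r i - if i ∈ P then 1 else 0) < L S.card at hcon
  change b - S.card + L S.card ≤ _ at h0
  set N := l.countP (fun x => decide (S.card < x)) with hN
  have c1 : (P \ S).card + (P ∩ S).card = b := by rw [← hP]; exact card_sdiff_add_card_inter P S
  have c2 : (S \ P).card + (P ∩ S).card = S.card := by
    rw [inter_comm]; exact card_sdiff_add_card_inter S P
  have ha : 0 < (P \ S).card := by omega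
  have hc : 0 < (S \ P).card := by omega
  -- the set `S ∪ P`
  have hU := h (S ∪ P)
  have cU : (S ∪ P).card = S.card + (P \ S).card := by
    rw [union_comm, ← card_sdiff_add_card P S]; omega
  rw [List.map_cons, List.sum_cons, cU] at hU
  have sU : ∑ i ∈ (S ∪ P)ᶜ, r i + ∑ i ∈ P \ S, r i = ∑ i ∈ Sᶜ, r i := by
    rw [← sum_union]
    · congr 1
      ext i
      simp only [mem_union, mem_compl, mem_sdiff]
      tauto
    · rw [disjoint_left]
      intro i hi
      simp only [mem_union, mem_compl, mem_sdiff] at hi ⊢
      tauto
  have up := slope_up l S.card (P \ S).card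
  -- the set `S ∩ P`
  have hI := h (P ∩ S)
  have cI : (P ∩ S).card = S.card - (S \ P).card := by omega
  rw [List.map_cons, List.sum_cons, cI] at hI
  have sI : ∑ i ∈ Sᶜ, r i + ∑ i ∈ S \ P, r i = ∑ i ∈ (P ∩ S)ᶜ, r i := by
    rw [← sum_union]
    · congr 1
      ext i
      simp only [mem_union, mem_compl, mem_sdiff, mem_inter]
      tauto
    · rw [disjoint_left]
      intro i hi
      simp only [mem_compl, mem_sdiff] at hi ⊢
      tauto
  have down := slope_down l S.card (S \ P).card (by omega)
  change L S.card ≤ L (S.card + (P \ S).card) + N * (P \ S).card at up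
  change L S.card + N * (S \ P).card ≤ L (S.card - (S \ P).card) at down
  change b - (S.card + (P \ S).card) + L (S.card + (P \ S).card) ≤ _ at hU
  change b - (S.card - (S \ P).card) + L (S.card - (S \ P).card) ≤ _ at hI
  -- a small row in `P \ S`
  obtain ⟨p, hp, hp'⟩ : ∃ p ∈ P \ S, r p ≤ N := by
    by_contra hall
    push Not at hall
    have : (P \ S).card • (N + 1) ≤ ∑ i ∈ P \ S, r i :=
      card_nsmul_le_sum _ _ _ fun i hi => hall i hi
    rw [smul_eq_mul, mul_add, mul_one, mul_comm] at this
    omega
  obtain ⟨q, hq, hq'⟩ : ∃ q ∈ S \ P, N + 1 ≤ r q := by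
    by_contra hall
    push Not at hall
    have : ∑ i ∈ S \ P, r i ≤ (S \ P).card • N :=
      sum_le_card_nsmul _ _ _ fun i hi => by have := hall i hi; omega
    rw [smul_eq_mul, mul_comm] at this
    omega
  have := htop p (mem_sdiff.1 hp).1 q (mem_sdiff.1 hq).2
  omega

/-- the choice of the rows, by size and then by index -/
theorem exists_top (f : Fin n → ℕ) (hf : Function.Injective f) :
    ∀ b : ℕ, b ≤ n → ∃ P : Finset (Fin n), P.card = b ∧ ∀ p ∈ P, ∀ i, i ∉ P → f i < f p := by
  intro b
  induction b with
  | zero => intro _; exact ⟨∅, rfl, by simp⟩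
  | succ b ih =>
    intro hb
    obtain ⟨P, hP, hPt⟩ := ih (by omega)
    have hne : (Pᶜ).Nonempty := by
      rw [← card_pos, card_compl, Fintype.card_fin, hP]
      omega
    obtain ⟨q, hq, hmax⟩ := exists_max_image Pᶜ f hne
    rw [mem_compl] at hq
    refine ⟨insert q P, by rw [card_insert_of_notMem hq, hP], ?_⟩
    intro p hp i hi
    rw [mem_insert, not_or] at hi
    rw [mem_insert] at hp
    have h1 := hmax i (by rw [mem_compl]; exact hi.2)
    rcases hp with rfl | hp
    · exact lt_of_le_of_ne h1 (fun e => hi.1 (hf e))
    · exact hPt p hp i hi.2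

/-- the priority of the rows: first the size, then the index -/
def prio (ρ : Fin n → ℕ) (i : Fin n) : ℕ := ρ i * n + (n - 1 - i.val)

theorem prio_lt {ρ : Fin n → ℕ} {i p : Fin n} (h : prio ρ i < prio ρ p) :
    ρ i < ρ p ∨ (ρ i = ρ p ∧ p < i) := by
  unfold prio at h
  have hi := i.isLt
  have hp := p.isLt
  rcases lt_trichotomy (ρ i) (ρ p) with h1 | h1 | h1
  · exact Or.inl h1
  · right
    rw [h1] at h
    refine ⟨h1, ?_⟩
    rw [Fin.lt_def]
    omega
  · exfalso
    have : (ρ p + 1) * n ≤ ρ i * n := Nat.mul_le_mul_right n h1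
    rw [add_mul] at this
    omega

theorem prio_inj (ρ : Fin n → ℕ) : Function.Injective (prio ρ) := by
  intro i p h
  by_contra hne
  unfold prio at h
  have hi := i.isLt
  have hp := p.isLt
  have hne' : i.val ≠ p.val := fun e => hne (Fin.ext e)
  rcases lt_trichotomy (ρ i) (ρ p) with h1 | h1 | h1
  · have : (ρ i + 1) * n ≤ ρ p * n := Nat.mul_le_mul_right n h1
    rw [add_mul] at this
    omega
  · rw [h1] at h
    omega
  · have : (ρ p + 1) * n ≤ ρ i * n := Nat.mul_le_mul_right n h1
    rw [add_mul] at this
    omega

/-- **Existence of a walk of positive weight.** -/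
theorem walks_pos {k : ℕ} (hk : 2 ≤ k) (r : Fin n → ℕ) (hr : ∀ i, k ∣ r i) :
    ∀ (l : List ℕ) (c : Fin n → ℕ), (∀ i, c i ≤ r i) →
      (∀ i j, i < j → r j - c j ≤ (r i - c i) + 1) → GR (fun i => r i - c i) l →
      ∑ i, (r i - c i) = l.sum → 0 < walks k r l c := by
  intro l
  induction l with
  | nil =>
    intro c hc _ _ hs
    have : c = r := by
      funext i
      rw [List.sum_nil, sum_eq_zero_iff] at hs
      have h1 := hs i (mem_univ i)
      have h2 := hc i
      omega
    unfold walks
    rw [if_pos this]
    norm_num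
  | cons b l ih =>
    intro c hc hn hGR hs
    have hb : b ≤ n := by
      have := hGR univ
      rw [compl_univ, sum_empty, List.map_cons, List.sum_cons, card_univ, Fintype.card_fin] at this
      omega
    obtain ⟨P, hP, htop⟩ := exists_top (prio fun i => r i - c i) (prio_inj _) b hb
    have htop' : ∀ p ∈ P, ∀ i, i ∉ P → r i - c i ≤ r p - c p := by
      intro p hp i hi
      rcases prio_lt (htop p hp i hi) with h | h
      · exact h.le
      · exact h.1.le
    obtain ⟨hpos, hGR'⟩ := GR_step hGR hP htop'
    have hnew : (fun i => r i - addCol c P i) = fun i => (r i - c i) - if i ∈ P then 1 else 0 := by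
      funext i
      unfold addCol
      omega
    have hnew' : ∀ i, r i - addCol c P i = (r i - c i) - if i ∈ P then 1 else 0 :=
      fun i => congrFun hnew i
    unfold walks
    refine sum_pos' (fun Q _ => mul_nonneg (colWt_nonneg k c Q) (walks_nonneg k r l _))
      ⟨P, mem_powersetCard.2 ⟨subset_univ _, hP⟩, mul_pos ?_ ?_⟩
    · apply colWt_pos
      intro p hp i hi hpi hmod
      have hip : i < p := by rw [Fin.lt_def]; omega
      have h1 := hn i p hip
      have h2 : r i - c i < r p - c p := by
        rcases prio_lt (htop p hp i hi) with h | h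
        · exact h
        · exact absurd h.2 (not_lt.2 hip.le)
      have h3 := hc i
      have h4 := hc p
      obtain ⟨x, hx⟩ := hr i
      obtain ⟨y, hy⟩ := hr p
      have h5 : (k : ℤ) ∣ (c i : ℤ) - c p := (Nat.modEq_iff_dvd.1 hmod)
      have h6 : (c i : ℤ) - c p = k * (x - y) + 1 := by
        have : (r p : ℤ) - c p = r i - c i + 1 := by omega
        have hx' : (r i : ℤ) = k * x := by exact_mod_cast hx
        have hy' : (r p : ℤ) = k * y := by exact_mod_cast hy
        rw [hx', hy'] at this
        linarith
      rw [h6] at h5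
      have h7 : (k : ℤ) ∣ 1 := (dvd_add_right (dvd_mul_right _ _)).1 h5
      have := Int.le_of_dvd one_pos h7
      omega
    · apply ih
      · intro i
        unfold addCol
        by_cases hi : i ∈ P
        · have := hpos i hi
          rw [if_pos hi]; omega
        · rw [if_neg hi]; exact hc i
      · intro i j hij
        rw [hnew' i, hnew' j]
        have h1 := hn i j hij
        by_cases hi : i ∈ P
        · have h2 := hpos i hi
          by_cases hj : j ∈ P
          · rw [if_pos hi, if_pos hj]; omega
          · have := htop' i hi j hj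
            rw [if_pos hi, if_neg hj]; omega
        · rw [if_neg hi]
          split_ifs <;> omega
      · rw [hnew]
        exact hGR'
      · have h1 : ∑ i, (r i - addCol c P i) + b = ∑ i, (r i - c i) := by
          have h2 : b = ∑ i, if i ∈ P then 1 else 0 := by
            rw [← sum_filter, sum_const, smul_eq_mul, mul_one, ← hP]
            congr 1
            ext i
            simp
          conv_lhs => rw [h2]
          rw [← sum_add_distrib]
          refine sum_congr rfl fun i _ => ?_
          rw [hnew' i]
          split_ifs with hi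
          · have := hpos i hi; omega
          · omega
        rw [List.sum_cons] at hs
        omega

end Pool.Agent.KS6_26.E
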