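import Mathlib
import Pool.Agent.KS6_26.E.Walk

/-!
# The dominance order and the Gale-Ryser condition
-/

namespace Pool.Agent.KS6_26.E

open Finset

/-- Dominance order: the sum of the `m` largest elements of `s` is at most the sum of the `m`
largest elements of `t`, for all `m`. -/
def Dominated (s t : Multiset ℕ) : Prop :=
  ∀ m : ℕ, ((s.sort (· ≥ ·)).take m).sum ≤ ((t.sort (· ≥ ·)).take m).sum

theorem sum_le_map (m : ℕ) : ∀ l : List ℕ, l.sum ≤ (l.map (· - m)).sum + l.length * m := by
  intro l
  induction l with
  | nil => simp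
  | cons a l ih =>
    rw [List.map_cons, List.sum_cons, List.sum_cons, List.length_cons, add_mul]
    omega

theorem map_take_le (m t : ℕ) : ∀ l : List ℕ, ((l.take t).map (· - m)).sum ≤ (l.map (· - m)).sum := by
  intro l
  conv_rhs => rw [← List.take_append_drop t l]
  rw [List.map_append, List.sum_append]
  omega

theorem take_le (m t : ℕ) (l : List ℕ) : (l.take t).sum ≤ (l.map (· - m)).sum + t * m := by
  have h1 := sum_le_map m (l.take t)
  have h2 := map_take_le m t l
  have h3 : (l.take t).length * m ≤ t * m := Nat.mul_le_mul_right m (by simp)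
  omega

theorem map_zero_of_le (m : ℕ) : ∀ l : List ℕ, (∀ x ∈ l, x ≤ m) → (l.map (· - m)).sum = 0 := by
  intro l h
  rw [List.sum_eq_zero_iff]
  intro y hy
  rw [List.mem_map] at hy
  obtain ⟨x, hx, rfl⟩ := hy
  have := h x hx
  omega

theorem exists_take_of_map (m : ℕ) : ∀ l : List ℕ, l.Pairwise (· ≥ ·) →
    ∃ t : ℕ, (l.map (· - m)).sum + t * m = (l.take t).sum := by
  intro l
  induction l with
  | nil => intro _; exact ⟨0, by simp⟩
  | cons a l ih =>
    intro h
    rw [List.pairwise_cons] at h
    by_cases ha : a ≤ m
    · refine ⟨0, ?_⟩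
      rw [map_zero_of_le]
      · simp
      · intro x hx
        rw [List.mem_cons] at hx
        rcases hx with rfl | hx
        · exact ha
        · exact le_trans (h.1 x hx) ha
    · obtain ⟨t, ht⟩ := ih h.2
      refine ⟨t + 1, ?_⟩
      rw [List.map_cons, List.sum_cons, List.take_succ_cons, List.sum_cons, add_mul]
      omega

theorem exists_map_of_take : ∀ l : List ℕ, l.Pairwise (· ≥ ·) → ∀ t : ℕ,
    ∃ m : ℕ, (∀ x, (∀ y ∈ l, y ≤ x) → m ≤ x) ∧ (l.map (· - m)).sum + t * m = (l.take t).sum := by
  intro l
  induction l with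
  | nil => intro _ t; exact ⟨0, by simp, by simp⟩
  | cons a l ih =>
    intro h t
    rw [List.pairwise_cons] at h
    rcases t with _ | t
    · refine ⟨a, fun x hx => hx a (by simp), ?_⟩
      rw [map_zero_of_le]
      · simp
      · intro x hx
        rw [List.mem_cons] at hx
        rcases hx with rfl | hx
        · exact le_rfl
        · exact h.1 x hx
    · obtain ⟨m, hm, ht⟩ := ih h.2 t
      have hma : m ≤ a := hm a h.1
      refine ⟨m, fun x hx => hm x fun y hy => hx y (by simp [hy]), ?_⟩
      rw [List.map_cons, List.sum_cons, List.take_succ_cons, List.sum_cons, add_mul]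
      omega

theorem sort_pairwise (s : Multiset ℕ) : (s.sort (· ≥ ·)).Pairwise (· ≥ ·) :=
  s.pairwise_sort (· ≥ ·)

theorem map_sort_sum (s : Multiset ℕ) (m : ℕ) :
    ((s.sort (· ≥ ·)).map (· - m)).sum = (s.map (· - m)).sum := by
  conv_rhs => rw [← s.sort_eq (· ≥ ·)]
  rw [Multiset.map_coe, Multiset.sum_coe]

/-- the dominance order in terms of truncated parts -/
theorem dominated_iff (s t : Multiset ℕ) :
    Dominated s t ↔ ∀ m : ℕ, (s.map (· - m)).sum ≤ (t.map (· - m)).sum := by
  constructor
  · intro h m
    rw [← map_sort_sum s, ← map_sort_sum t]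
    obtain ⟨j, hj⟩ := exists_take_of_map m _ (sort_pairwise s)
    have h1 := h j
    have h2 := take_le m j (t.sort (· ≥ ·))
    omega
  · intro h j
    obtain ⟨m, _, hm⟩ := exists_map_of_take _ (sort_pairwise t) j
    have h1 := take_le m j (s.sort (· ≥ ·))
    have h2 := h m
    rw [← map_sort_sum s, ← map_sort_sum t] at h2
    omega

/-! ### Row sums -/

variable {n : ℕ}

/-- the rows: `k` times the conjugate partition -/
def rows (n k : ℕ) (s : Multiset ℕ) : Fin n → ℕ := fun i => k * s.countP (fun a => i.val < a)

theorem card_between (a m : ℕ) (ha : a ≤ n) :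
    (∑ i : Fin n with m ≤ i.val, if i.val < a then 1 else 0) = a - m := by
  rw [← sum_filter, sum_const, smul_eq_mul, mul_one, filter_filter]
  have : (univ.filter fun i : Fin n => m ≤ i.val ∧ i.val < a).map Fin.valEmbedding = Ico m a := by
    ext x
    simp only [mem_map, mem_filter, mem_univ, true_and, Fin.valEmbedding_apply, mem_Ico]
    constructor
    · rintro ⟨i, hi, rfl⟩
      exact hi
    · intro hx
      exact ⟨⟨x, by omega⟩, hx, rfl⟩
  rw [← Nat.card_Ico, ← this, card_map]

theorem sum_countP (m : ℕ) (s : Multiset ℕ) : (∀ a ∈ s, a ≤ n) →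
    ∑ i : Fin n with m ≤ i.val, s.countP (fun a => i.val < a) = (s.map (· - m)).sum := by
  induction s using Multiset.induction_on with
  | empty => intro _; simp
  | cons a s ih =>
    intro h
    rw [Multiset.map_cons, Multiset.sum_cons, ← ih (fun x hx => h x (Multiset.mem_cons_of_mem hx)),
      ← card_between a m (h a (Multiset.mem_cons_self a s)), ← sum_add_distrib]
    refine sum_congr rfl fun i _ => ?_
    rw [Multiset.countP_cons, add_comm]

theorem sum_rows (k m : ℕ) (s : Multiset ℕ) (h : ∀ a ∈ s, a ≤ n) :
    ∑ i : Fin n with m ≤ i.val, rows n k s i = ((k • s).map (· - m)).sum := by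
  unfold rows
  rw [← mul_sum, sum_countP m s h, Multiset.map_nsmul, Multiset.sum_nsmul, smul_eq_mul]

theorem rows_antitone (k : ℕ) (s : Multiset ℕ) {i j : Fin n} (h : i ≤ j) :
    rows n k s j ≤ rows n k s i := by
  unfold rows
  apply Nat.mul_le_mul_left
  rw [Multiset.countP_eq_card_filter, Multiset.countP_eq_card_filter]
  apply Multiset.card_le_card
  apply Multiset.monotone_filter_right
  intro a ha
  have : i.val ≤ j.val := h
  omega

/-- for antitone rows it is enough to look at initial segments -/
theorem sum_compl_ge (r : Fin n → ℕ) (hr : ∀ i j, i ≤ j → r j ≤ r i) (S : Finset (Fin n)) :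
    ∑ i : Fin n with S.card ≤ i.val, r i ≤ ∑ i ∈ Sᶜ, r i := by
  set m := S.card with hm
  set I : Finset (Fin n) := univ.filter fun i => i.val < m with hI
  have hIc : (univ.filter fun i : Fin n => m ≤ i.val) = Iᶜ := by
    ext i
    simp [hI]
  rw [hIc]
  have hmn : m ≤ n := by
    have := card_le_univ S
    rwa [Fintype.card_fin] at this
  have cI : I.card = m := by
    rw [hI, Fin.card_filter_val_lt]
    exact min_eq_right hmn
  have c1 : (I \ S).card = (S \ I).card := by
    have h1 := card_sdiff_add_card_inter I S
    have h2 := card_sdiff_add_card_inter S I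
    rw [inter_comm] at h2
    omega
  have s1 : ∑ i ∈ Iᶜ, r i + ∑ i ∈ I \ S, r i = ∑ i ∈ Sᶜ, r i + ∑ i ∈ S \ I, r i := by
    rw [← sum_union, ← sum_union]
    · congr 1
      ext i
      simp only [mem_union, mem_compl, mem_sdiff]
      tauto
    · rw [disjoint_left]
      intro i hi
      simp only [mem_compl, mem_sdiff] at hi ⊢
      tauto
    · rw [disjoint_left]
      intro i hi
      simp only [mem_compl, mem_sdiff] at hi ⊢
      tauto
  have s2 : ∑ i ∈ S \ I, r i ≤ ∑ i ∈ I \ S, r i := by
    by_cases hmn' : m < n
    · calc ∑ i ∈ S \ I, r i ≤ (S \ I).card • r ⟨m, hmn'⟩ := by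
            refine sum_le_card_nsmul _ _ _ fun i hi => ?_
            apply hr
            rw [mem_sdiff, hI, mem_filter] at hi
            rw [Fin.le_def]
            simp only [mem_univ, true_and, not_lt] at hi
            exact hi.2
        _ = (I \ S).card • r ⟨m, hmn'⟩ := by rw [c1]
        _ ≤ ∑ i ∈ I \ S, r i := by
            refine card_nsmul_le_sum _ _ _ fun i hi => ?_
            apply hr
            rw [mem_sdiff, hI, mem_filter] at hi
            rw [Fin.le_def]
            exact hi.1.2.le
    · have : I = univ := by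
        ext i
        have := i.isLt
        simp only [hI, mem_filter, mem_univ, true_and]
        constructor
        · intro _; trivial
        · intro _; omega
      rw [this, sdiff_eq_empty_iff_subset.2 (subset_univ S), sum_empty]
      exact Nat.zero_le _
  omega

/-- **The support of the walks.** -/
theorem walks_pos_iff {k : ℕ} (hk : 2 ≤ k) (s : Multiset ℕ) (l : List ℕ) (hs : ∀ a ∈ s, a ≤ n)
    (hsum : l.sum = k * s.sum) :
    0 < walks k (rows n k s) l (fun _ => 0) ↔ Dominated (l : Multiset ℕ) (k • s) := by
  rw [dominated_iff]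
  constructor
  · intro h m
    have h1 := walks_necessary k _ l _ h.ne' m
    rw [sum_const_zero, add_zero, sum_rows k m s hs] at h1
    rwa [Multiset.map_coe, Multiset.sum_coe]
  · intro h
    apply walks_pos hk
    · intro i
      exact dvd_mul_right _ _
    · intro i; exact Nat.zero_le _
    · intro i j hij
      have := rows_antitone (n := n) k s hij.le
      simp only [Nat.sub_zero]
      omega
    · intro S
      have h1 := h S.card
      rw [Multiset.map_coe, Multiset.sum_coe, ← sum_rows k S.card s hs] at h1
      have h2 := sum_compl_ge (rows n k s) (fun i j hij => rows_antitone k s hij) S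
      simp only [Nat.sub_zero]
      exact le_trans h1 h2
    · have h1 := sum_rows k 0 s hs
      simp only [Nat.zero_le, filter_true, Nat.sub_zero, Multiset.map_id', Multiset.sum_nsmul,
        smul_eq_mul] at h1 ⊢
      rw [h1, hsum]

end Pool.Agent.KS6_26.E
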