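import Mathlib
import Pool.Graph.R_pool_sql_team_seeded_47a924f7.T6.H58.RK.FinV
import Pool.Agent.KS6_26.E.Dom

/-!
# The coefficients as weighted sums over 0-1 matrices
-/

namespace Pool.Agent.KS6_26.E

open Finset MvPolynomial Pool.Agent.T6.H58.RK

variable {n : ℕ}

/-! ### The binomial coefficient -/

theorem prod_fin_filter (q : ℕ → Prop) [DecidablePred q] (g : ℕ → ℚ) :
    ∏ i ∈ (univ : Finset (Fin n)).filter (fun i => q i.val), g i.val
      = ∏ i ∈ (range n).filter q, g i := by
  rw [prod_filter, prod_filter, Fin.prod_univ_eq_prod_range (fun i => if q i then g i else 1) n]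

theorem prod_Ico_tel (p m : ℕ) (hp : p < m) : ∀ t : ℕ,
    ∏ i ∈ Ico m (m + t), (1 - ((p : ℚ) - (i : ℚ))⁻¹)
      = ((m + t : ℕ) - (p : ℚ)) / ((m : ℚ) - p) := by
  intro t
  have h0 : (m : ℚ) - p ≠ 0 := by
    have : (p : ℚ) < m := by exact_mod_cast hp
    linarith
  induction t with
  | zero => simp [div_self h0]
  | succ t ih =>
    have h1 : ((m + t : ℕ) : ℚ) - p ≠ 0 := by
      have : (p : ℚ) < ((m + t : ℕ) : ℚ) := by exact_mod_cast (by omega : p < m + t)
      linarith
    have h2 : (p : ℚ) - ((m + t : ℕ) : ℚ) ≠ 0 := by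
      intro e; apply h1; linarith
    rw [← add_assoc, prod_Ico_succ_top (by omega), ih]
    push_cast at h1 h2 ⊢
    field_simp
    ring

theorem filter_range_ge (m : ℕ) : (range n).filter (fun i => ¬ i < m) = Ico m n := by
  ext x
  simp only [mem_filter, mem_range, mem_Ico]
  omega

theorem filter_range_lt {m : ℕ} (hm : m ≤ n) : (range n).filter (fun i => i < m) = range m := by
  ext x
  simp only [mem_filter, mem_range]
  omega

theorem wt_seg (m : ℕ) (hm : m ≤ n) :
    wt (uN n) 1 (1, 0) (seg n m) (univ \ seg n m) = (n.choose m : ℚ) := by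
  have e1 : univ \ seg n m = (univ : Finset (Fin n)).filter (fun i => ¬ i.val < m) := by
    unfold seg
    rw [← compl_eq_univ_sdiff, compl_filter]
  have e2 : ∀ p i : Fin n, (1 : ℚ) - hf (uN n) 1 (1, 0) p i
      = 1 - ((p.val : ℚ) - (i.val : ℚ))⁻¹ := by
    intro p i
    unfold hf uN
    rw [if_pos (by simp)]
    simp
  unfold wt
  rw [e1]
  simp only [e2]
  have e3 : ∀ p : Fin n, ∏ i ∈ (univ : Finset (Fin n)).filter (fun i => ¬ i.val < m),
      (1 - ((p.val : ℚ) - (i.val : ℚ))⁻¹)
      = ∏ i ∈ Ico m n, (1 - ((p.val : ℚ) - (i : ℚ))⁻¹) := by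
    intro p
    rw [prod_fin_filter (fun i => ¬ i < m) (fun i => 1 - ((p.val : ℚ) - (i : ℚ))⁻¹),
      filter_range_ge]
  simp only [e3]
  unfold seg
  rw [prod_fin_filter (fun i => i < m)
    (fun p => ∏ i ∈ Ico m n, (1 - ((p : ℚ) - (i : ℚ))⁻¹)), filter_range_lt hm]
  obtain ⟨t, rfl⟩ := Nat.exists_eq_add_of_le hm
  have e4 : ∏ p ∈ range m, ∏ i ∈ Ico m (m + t), (1 - ((p : ℚ) - (i : ℚ))⁻¹)
      = ∏ p ∈ range m, (((m + t - p : ℕ) : ℚ) / ((m - p : ℕ) : ℚ)) := by
    refine prod_congr rfl fun p hp => ?_
    rw [mem_range] at hp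
    rw [prod_Ico_tel p m hp t, Nat.cast_sub (by omega), Nat.cast_sub hp.le]
  rw [e4, prod_div_distrib]
  have h1 : ∏ p ∈ range m, ((m + t - p : ℕ) : ℚ) = ((m + t).descFactorial m : ℚ) := by
    rw [Nat.descFactorial_eq_prod_range]
    push_cast
    rfl
  have h2 : ∏ p ∈ range m, ((m - p : ℕ) : ℚ) = (m.factorial : ℚ) := by
    rw [← Nat.descFactorial_self, Nat.descFactorial_eq_prod_range]
    push_cast
    rfl
  rw [h1, h2, Nat.descFactorial_eq_factorial_mul_choose]
  have : (m.factorial : ℚ) ≠ 0 := by exact_mod_cast m.factorial_ne_zero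
  push_cast
  field_simp

theorem AA_one' (m : ℕ) (hm : m ≤ n) (g : Cfg (Fin n) → ℚ) (c : Fin n → ℤ) :
    AA (uN n) 1 g Finset.univ m (1, c)
      = (n.choose m : ℚ) * g (1, fun i => c i + if i.val < m then 1 else 0) := by
  rw [← wt_seg m hm]
  unfold AA
  have hind : ∀ P Q, wt (uN n) 1 (1, c) P Q = wt (uN n) 1 (1, 0) P Q := by
    intro P Q
    unfold wt hf
    refine Finset.prod_congr rfl fun p _ => Finset.prod_congr rfl fun i _ => ?_
    rw [if_pos (by simp), if_pos (by simp)]
  rw [Finset.sum_eq_single (seg n m)]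
  · rw [hind]
    congr 2
    unfold incS seg
    simp only [Finset.mem_filter, Finset.mem_univ, true_and]
  · intro P hP hne
    rw [Finset.mem_powersetCard] at hP
    obtain ⟨p, hp, i, hi, hpi⟩ := exists_gap hm P hP.2 hne
    have : wt (uN n) 1 (1, c) P (Finset.univ \ P) = 0 := by
      unfold wt
      apply Finset.prod_eq_zero hp
      apply Finset.prod_eq_zero (i := i) (by simp [hi])
      unfold hf uN
      rw [if_pos (by simp)]
      simp only [Equiv.Perm.coe_one, id_eq]
      rw [hpi]
      push_cast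
      simp
    rw [this, zero_mul]
  · intro h
    exfalso
    apply h
    rw [Finset.mem_powersetCard]
    exact ⟨Finset.subset_univ _, card_seg hm⟩

section eval

variable {k : ℕ} {L : List (Fin n)}
  {Φ : MvPolynomial (Fin n) ℚ →ₐ[ℚ] Module.End ℚ (Cfg (Fin n) → ℚ)}
  {Φ₁ : MvPolynomial (Fin n) ℚ →ₐ[ℚ] Module.End ℚ (Cfg (Fin n) → ℚ)}

/-- the normalising constant -/
noncomputable def nrm (d : Fin n →₀ ℕ) : ℚ := ∏ i : Fin n, (n.choose (i.val + 1) : ℚ) ^ d i

theorem nrm_pos (d : Fin n →₀ ℕ) : 0 < nrm d :=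
  prod_pos fun i _ => pow_pos (by exact_mod_cast Nat.choose_pos i.isLt) _

/-- products of elementary symmetric polynomials at `k = 1` -/
theorem monomial_esymm' (hn : L.Nodup) (hL : ∀ a, a ∈ L)
    (hΦ₁ : ∀ i, Φ₁ (X i) = YL (uN n) 1 L i) (d : Fin n →₀ ℕ) :
    ∀ g : Cfg (Fin n) → ℚ, IsSymm g →
      IsSymm (Φ₁ (aeval (fun i : Fin n => esymm (Fin n) ℚ (i.val + 1)) (monomial d (1 : ℚ))) g) ∧
      ∀ c : Fin n → ℤ,
        Φ₁ (aeval (fun i : Fin n => esymm (Fin n) ℚ (i.val + 1)) (monomial d (1 : ℚ))) g (1, c)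
        = nrm d * g (1, fun i => c i + (Fin.accumulate n n d i : ℤ)) := by
  induction d using Finsupp.induction_linear with
  | zero =>
    intro g hg
    have : monomial (0 : Fin n →₀ ℕ) (1 : ℚ) = 1 := rfl
    rw [this, map_one, map_one]
    refine ⟨hg, fun c => ?_⟩
    have h1 : nrm (0 : Fin n →₀ ℕ) = 1 := by unfold nrm; simp
    rw [h1, one_mul, Module.End.one_apply]
    congr 2
    funext i
    rw [Finsupp.coe_zero, map_zero]
    simp
  | add d d' h h' =>
    intro g hg
    have e : monomial (d + d') (1 : ℚ) = monomial d 1 * monomial d' 1 := by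
      rw [monomial_mul, mul_one]
    have e' : nrm (d + d') = nrm d' * nrm d := by
      unfold nrm
      rw [← prod_mul_distrib]
      refine prod_congr rfl fun i _ => ?_
      rw [Finsupp.add_apply, pow_add, mul_comm]
    obtain ⟨h1, h2⟩ := h' g hg
    obtain ⟨h3, h4⟩ := h _ h1
    rw [e, map_mul, map_mul, Module.End.mul_apply]
    refine ⟨h3, fun c => ?_⟩
    rw [h4, h2, ← mul_assoc, mul_comm (nrm d) (nrm d'), e']
    congr 3
    funext i
    rw [Finsupp.coe_add, map_add, Pi.add_apply]
    push_cast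
    ring
  | single a m =>
    induction m with
    | zero =>
      intro g hg
      have : monomial (0 : Fin n →₀ ℕ) (1 : ℚ) = 1 := rfl
      rw [Finsupp.single_zero, this, map_one, map_one]
      refine ⟨hg, fun c => ?_⟩
      have h1 : nrm (0 : Fin n →₀ ℕ) = 1 := by unfold nrm; simp
      rw [h1, one_mul, Module.End.one_apply]
      congr 2
      funext i
      rw [Finsupp.coe_zero, map_zero]
      simp
    | succ m h =>
      intro g hg
      have e : monomial (Finsupp.single a (m + 1)) (1 : ℚ)
          = X a * monomial (Finsupp.single a m) 1 := by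
        rw [X, monomial_mul, mul_one, ← Finsupp.single_add, add_comm]
      have e' : nrm (Finsupp.single a (m + 1)) = (n.choose (a.val + 1) : ℚ)
          * nrm (Finsupp.single a m) := by
        have : ∀ j : ℕ, nrm (Finsupp.single a j) = (n.choose (a.val + 1) : ℚ) ^ j := by
          intro j
          unfold nrm
          rw [Finset.prod_eq_single a]
          · rw [Finsupp.single_eq_same]
          · intro b _ hb
            rw [Finsupp.single_eq_of_ne hb, pow_zero]
          · intro ha; exact absurd (mem_univ a) ha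
        rw [this, this, pow_succ']
      obtain ⟨h1, h2⟩ := h g hg
      rw [e, map_mul, map_mul, Module.End.mul_apply, aeval_X,
        Phi_esymm (uN_inj n) 1 L hn hL Φ₁ hΦ₁ h1]
      refine ⟨IsSymm_AA _ _ h1 _, fun c => ?_⟩
      rw [AA_one' (a.val + 1) a.isLt, h2, ← mul_assoc, e']
      congr 3
      funext i
      rw [← add_comm 1 m, Finsupp.single_add, Finsupp.coe_add, map_add, Pi.add_apply]
      have : Fin.accumulate n n (Finsupp.single a 1) i = if i.val < a.val + 1 then 1 else 0 := by
        rw [Fin.accumulate_apply]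
        by_cases hi : i.val < a.val + 1
        · rw [if_pos hi, Finset.sum_eq_single a]
          · simp
          · intro b _ hb
            rw [Finsupp.single_eq_of_ne hb]
          · intro ha
            exfalso
            apply ha
            rw [Finset.mem_filter]
            exact ⟨Finset.mem_univ _, by omega⟩
        · rw [if_neg hi]
          refine Finset.sum_eq_zero fun b hb => ?_
          rw [Finset.mem_filter] at hb
          have : b ≠ a := by
            rintro rfl
            omega
          rw [Finsupp.single_eq_of_ne this]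
      rw [this]
      push_cast
      ring

/-- the test function: the counters are `k` times `ν` of the particles -/
def tst (k : ℕ) (ν : Fin n → ℕ) : Cfg (Fin n) → ℚ :=
  fun w => if ∀ x, w.2 x = (k : ℤ) * ν (w.1 x) then 1 else 0

theorem tst_symm (k : ℕ) (ν : Fin n → ℕ) : IsSymm (tst k ν) := by
  intro i j w
  have : (∀ x, (sw i j w).2 x = (k : ℤ) * ν ((sw i j w).1 x))
      ↔ ∀ x, w.2 x = (k : ℤ) * ν (w.1 x) := by
    constructor
    · intro h x
      have := h (Equiv.swap i j x)
      simpa [sw] using this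
    · intro h x
      exact h (Equiv.swap i j x)
  simp only [tst, this]

theorem tst_supp (k : ℕ) (ν : Fin n → ℕ) : Supp k 0 (tst k ν) := by
  rintro w ⟨x, hx⟩
  simp only [tst]
  rw [if_neg]
  intro h
  apply hx
  rw [h x, Pi.zero_apply, sub_zero]
  exact dvd_mul_right _ _

/-- the operators at a configuration with the identity permutation -/
theorem eval_walks (hn : L.Nodup) (hL : ∀ a, a ∈ L) (hΦ : ∀ i, Φ (X i) = YL (uN n) k L i)
    (ν : Fin n → ℕ) (l : List ℕ) :
    IsSymm (Φ (l.map (esymm (Fin n) ℚ)).prod (tst k ν)) ∧ ∀ c : Fin n → ℕ,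
      Φ (l.map (esymm (Fin n) ℚ)).prod (tst k ν) (1, fun i => (c i : ℤ))
        = walks k (fun i => k * ν i) l c := by
  induction l with
  | nil =>
    rw [List.map_nil, List.prod_nil, map_one, Module.End.one_apply]
    refine ⟨tst_symm k ν, fun c => ?_⟩
    unfold tst walks
    simp only [Equiv.Perm.coe_one, id_eq]
    have : (∀ x, (c x : ℤ) = (k : ℤ) * (ν x : ℤ)) ↔ c = fun i => k * ν i := by
      constructor
      · intro h
        funext x
        exact_mod_cast h x
      · intro h x
        rw [h]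
        push_cast
        rfl
    simp only [this]
  | cons b l ih =>
    obtain ⟨h1, h2⟩ := ih
    rw [List.map_cons, List.prod_cons, map_mul, Module.End.mul_apply,
      Phi_esymm (uN_inj n) k L hn hL Φ hΦ h1 b]
    refine ⟨IsSymm_AA _ _ h1 b, fun c => ?_⟩
    unfold AA
    rw [walks]
    refine sum_congr rfl fun P _ => ?_
    have e1 : incS P ((1 : Equiv.Perm (Fin n)), fun i => (c i : ℤ))
        = (1, fun i => ((addCol c P i : ℕ) : ℤ)) := by
      unfold incS addCol
      simp only [Prod.mk.injEq, true_and]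
      funext i
      push_cast
      rfl
    rw [e1, h2]
    congr 1
    unfold wt colWt
    refine prod_congr rfl fun p _ => ?_
    rw [← compl_eq_univ_sdiff]
    refine prod_congr rfl fun i _ => ?_
    unfold hf uN
    have e2 : ((k : ℤ) ∣ (c p : ℤ) - (c i : ℤ)) ↔ c p ≡ c i [MOD k] := by
      rw [Nat.modEq_iff_dvd, ← dvd_neg, neg_sub]
    simp only [e2, Equiv.Perm.coe_one, id_eq]
    split_ifs <;> simp

end eval

theorem hsum_Phi (Ψ : MvPolynomial (Fin n) ℚ →ₐ[ℚ] Module.End ℚ (Cfg (Fin n) → ℚ))
    (r : MvPolynomial (Fin n) ℚ) (g : Cfg (Fin n) → ℚ) (w : Cfg (Fin n)) :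
    Ψ (aeval (fun i : Fin n => esymm (Fin n) ℚ (i.val + 1)) r) g w = ∑ d ∈ r.support, coeff d r *
      Ψ (aeval (fun i : Fin n => esymm (Fin n) ℚ (i.val + 1)) (monomial d (1 : ℚ))) g w := by
  conv_lhs => rw [r.as_sum]
  rw [map_sum, map_sum, LinearMap.sum_apply, Finset.sum_apply]
  refine Finset.sum_congr rfl fun d _ => ?_
  have : monomial d (coeff d r) = (coeff d r) • monomial d (1 : ℚ) := by
    rw [smul_monomial, smul_eq_mul, mul_one]
  rw [this, map_smul, map_smul, LinearMap.smul_apply, Pi.smul_apply, smul_eq_mul]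

/-- **The coefficients, in finitely many variables.** -/
theorem fin_formula (n k : ℕ) (hk : 1 ≤ k) (l : List ℕ) (P q : MvPolynomial (Fin n) ℚ)
    (hq : ∀ d, coeff d q = coeff (k • d) (l.map (esymm (Fin n) ℚ)).prod)
    (hP : aeval (fun i : Fin n => esymm (Fin n) ℚ (i.val + 1)) P = q) (d₀ : Fin n →₀ ℕ) :
    coeff d₀ P * nrm d₀ = walks k (fun i => k * Fin.accumulate n n d₀ i) l (fun _ => 0) := by
  have hn : (List.finRange n).Nodup := List.nodup_finRange n
  have hL : ∀ a : Fin n, a ∈ List.finRange n := List.mem_finRange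
  obtain ⟨Φ, hΦ⟩ := exists_eval (YL (uN n) k (List.finRange n))
    (YL_comm (uN_inj n) k _ hn hL)
  obtain ⟨Φ₁, hΦ₁⟩ := exists_eval (YL (uN n) 1 (List.finRange n))
    (YL_comm (uN_inj n) 1 _ hn hL)
  set ν : Fin n → ℕ := Fin.accumulate n n d₀ with hν
  have h1 := (eval_walks hn hL hΦ ν l).2 (fun _ => 0)
  have h0 : ((1 : Equiv.Perm (Fin n)), fun _ : Fin n => (((0 : ℕ) : ℤ))) = (1, 0) := by
    simp only [Prod.mk.injEq, true_and]
    funext i
    simp
  rw [h0] at h1
  rw [← h1, compare hk hn hL hΦ hΦ₁ _ q hq (tst_supp k ν), ← hP]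
  have hg : res k (tst k ν) = tst 1 ν := by
    funext w
    unfold res tst
    have : (∀ x, (k : ℤ) * w.2 x = (k : ℤ) * ν (w.1 x))
        ↔ ∀ x, w.2 x = ((1 : ℕ) : ℤ) * ν (w.1 x) := by
      constructor
      · intro h x
        have hk' : (k : ℤ) ≠ 0 := by positivity
        rw [Nat.cast_one, one_mul]
        exact mul_left_cancel₀ hk' (h x)
      · intro h x
        rw [h x, Nat.cast_one, one_mul]
    simp only [this]
  rw [hg, hsum_Phi]
  have hval : ∀ d, Φ₁ (aeval (fun i : Fin n => esymm (Fin n) ℚ (i.val + 1)) (monomial d (1 : ℚ)))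
      (tst 1 ν) (1, 0) = if d = d₀ then nrm d else 0 := by
    intro d
    rw [(monomial_esymm' hn hL hΦ₁ d _ (tst_symm 1 ν)).2]
    unfold tst
    simp only []
    by_cases hd : d = d₀
    · rw [if_pos hd, if_pos, mul_one]
      intro x
      simp [hν, hd]
    · rw [if_neg hd, if_neg, mul_zero]
      intro hcon
      apply hd
      have : Fin.accumulate n n d = Fin.accumulate n n d₀ := by
        funext x
        have := hcon x
        simp only [Pi.zero_apply, zero_add, Equiv.Perm.coe_one, id_eq, Nat.cast_one,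
          one_mul] at this
        exact_mod_cast this
      exact DFunLike.coe_injective (Fin.accumulate_injective le_rfl this)
  simp only [hval]
  by_cases hd₀ : d₀ ∈ P.support
  · rw [Finset.sum_eq_single d₀]
    · rw [if_pos rfl]
    · intro d _ hne
      rw [if_neg hne, mul_zero]
    · intro h
      exact absurd hd₀ h
  · rw [notMem_support_iff.1 hd₀, zero_mul, Finset.sum_eq_zero]
    intro d hd
    rw [if_neg, mul_zero]
    rintro rfl
    exact hd₀ hd

/-- the accumulated multiplicities are the conjugate partition -/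
theorem accumulate_dOf (s : Multiset ℕ) (i : Fin n) : (∀ a ∈ s, 1 ≤ a ∧ a ≤ n) →
    Fin.accumulate n n (dOf n s) i = s.countP (fun a => i.val < a) := by
  rw [Fin.accumulate_apply]
  induction s using Multiset.induction_on with
  | empty =>
    intro _
    rw [Multiset.countP_zero]
    refine sum_eq_zero fun j _ => ?_
    unfold dOf
    rw [Finsupp.equivFunOnFinite_symm_apply_apply, Multiset.count_zero]
  | cons a s ih =>
    intro h
    obtain ⟨h1, h2⟩ := h a (Multiset.mem_cons_self a s)
    rw [Multiset.countP_cons, ← ih (fun x hx => h x (Multiset.mem_cons_of_mem hx))]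
    have e : ∀ j : Fin n, dOf n (a ::ₘ s) j = dOf n s j + if j.val + 1 = a then 1 else 0 := by
      intro j
      unfold dOf
      rw [Finsupp.equivFunOnFinite_symm_apply_apply, Finsupp.equivFunOnFinite_symm_apply_apply,
        Multiset.count_cons]
    simp only [e]
    rw [sum_add_distrib]
    congr 1
    by_cases hi : i.val < a
    · rw [if_pos hi, Finset.sum_eq_single (⟨a - 1, by omega⟩ : Fin n)]
      · rw [if_pos (by simp only; omega)]
      · intro j _ hj
        rw [if_neg]
        intro hja
        apply hj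
        exact Fin.ext (by simp only; omega)
      · intro hcon
        exfalso
        apply hcon
        rw [mem_filter]
        exact ⟨mem_univ _, by simp only; omega⟩
    · rw [if_neg hi]
      refine sum_eq_zero fun j hj => ?_
      rw [mem_filter] at hj
      rw [if_neg]
      omega

theorem nrm_dOf (s : Multiset ℕ) (hs : ∀ a ∈ s, 1 ≤ a ∧ a ≤ n) :
    nrm (dOf n s) = ((s.map (n.choose ·)).prod : ℕ) := by
  have h1 := prod_map_mOf (fun a => n.choose a) (dOf n s)
  rw [mOf_dOf hs] at h1
  unfold nrm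
  rw [h1]
  push_cast
  rfl

end Pool.Agent.KS6_26.E
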