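import Pool.Agent.KS6_26.E.Local
import Pool.Graph.R_seed8.TH145.GH.DataE

/-!
The height inequality over a function field.
-/

set_option autoImplicit false

open FF Pool.Agent.W603.LV Pool.Agent.W603.PV Pool.Agent.TH145.GH
open Pool.Agent.TH812.GV (sum_loss)
open Pool.Agent.TH812.GV2 (GoodS sum_under)
open Pool.Agent.KS6_26.D (mn mn_zero mn_add mn_single mn_std mdeg mdeg_single mdeg_std std Ev Rel
  Blk kr)

namespace Pool.Agent.KS6_26.E

section mono

variable {k K : Type} [Field k] [Field K] [Algebra k K] {ι S : Type} [DecidableEq S] [Fintype S]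
  {β : ι → S} {n : S → ℕ} {en : ∀ s, Fin (n s + 1) → ι}

/-- The order of a monomial. -/
theorem ge_mn (hB : Blk β n en) (P : Place k K) (x : ι → K) (J : ι →₀ ℕ) :
    Ge P (∑ s, (mdeg β J s : ℤ) * pord P (fun j => x (en s j))) (mn x J) := by
  induction J using Finsupp.induction_linear with
  | zero =>
    rw [mn_zero, map_zero]
    simp only [Pi.zero_apply, Nat.cast_zero, zero_mul, Finset.sum_const_zero]
    exact Ge.one
  | add f g hf hg =>
    rw [mn_add, map_add]
    simp only [Pi.add_apply, Nat.cast_add, add_mul, Finset.sum_add_distrib]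
    exact hf.mul hg
  | single l e =>
    rw [mn_single, mdeg_single, Finset.sum_eq_single (β l)]
    · rw [Pi.single_eq_same]
      by_cases hl : x l = 0
      · rcases Nat.eq_zero_or_pos e with rfl | he
        · simp only [Nat.cast_zero, zero_mul, pow_zero]
          exact Ge.one
        · rw [hl, zero_pow he.ne']
          exact Ge.zero
      · right
        rw [P.ord_pow]
        obtain ⟨j, hj⟩ := hB.surj _ l rfl
        have h1 := pord_le P (f := fun j => x (en (β l) j)) (j := j) (by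
          rw [hj]; exact hl)
        rw [hj] at h1
        exact mul_le_mul_of_nonneg_left h1 (by positivity)
    · intro s _ hs
      rw [Pi.single_eq_of_ne hs, Nat.cast_zero, zero_mul]
    · intro h; exact absurd (Finset.mem_univ _) h

end mono

/-- The order of the value of a form at a place where the coefficients are integral. -/
theorem ge_val {k F L : Type} [Field k] [Field F] [Field L] [Algebra k F] [Algebra F L]
    [Algebra k L] [IsScalarTower k F L] [IsAlgClosed k] [CharZero k] [IsFF k F]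
    [IsFF k L] {ι S : Type} [DecidableEq S]
    [Fintype S] {β : ι → S} {n : S → ℕ} {en : ∀ s, Fin (n s + 1) → ι} (hB : Blk β n en)
    {M : Finset (ι →₀ ℕ)} {e : S → ℕ} (hM : ∀ J ∈ M, mdeg β J = e) {t : (ι →₀ ℕ) → F} {x : ι → L}
    {P : Place k L} (ht : ∀ J ∈ M, Ge (under F P) 0 (t J)) :
    Ge P (∑ s, (e s : ℤ) * pord P (fun j => x (en s j)))
      (∑ J ∈ M, algebraMap F L (t J) * mn x J) := by
  refine Ge.sum _ _ fun J hJ => ?_
  have h2 : Ge P 0 (algebraMap F L (t J)) := by
    rcases ht J hJ with h | h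
    · left
      rw [h, map_zero]
    · right
      rw [ord_under]
      exact mul_nonneg (by positivity) h
  have h3 := h2.mul (ge_mn hB P x J)
  rw [zero_add, hM J hJ] at h3
  exact h3

theorem kr_map {K L ι A : Type} [Field K] [Field L] [Algebra K L]
    {t ε : A → (ι →₀ ℕ) → K} {ε' : A → (ι →₀ ℕ) → L} {a : A} {I : ι →₀ ℕ}
    (hI : ε' a I = algebraMap K L (ε a I)) (b : A) (J : ι →₀ ℕ) :
    kr (fun a J => algebraMap K L (t a J)) ε' a I b J = algebraMap K L (kr t ε a I b J) := by
  classical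
  unfold kr
  rw [map_add, hI]
  congr 1
  · split_ifs <;> simp
  · split_ifs <;> simp

/-- **The height inequality over a function field.** -/
theorem ext {k F0 F : Type} [Field k] [Field F0] [Field F] [IsAlgClosed k] [CharZero k]
    [Algebra k F] [Algebra F0 F] [IsFF k F] {ι S A Δ : Type} [Fintype ι] [DecidableEq S]
    [Fintype S] [Fintype A] [Fintype Δ] {β : ι → S} {d : A → S → ℕ} {n : S → ℕ}
    {en : ∀ s, Fin (n s + 1) → ι} (hB : Blk β n en)
    {D : A → (ι →₀ ℕ) → Derivation ℤ F F} {c : A → (ι →₀ ℕ) → Δ → F}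
    {t ε : A → (ι →₀ ℕ) → F} {q : Δ → A × (ι →₀ ℕ)}
    (h : Rel F0 β d D c (fun ξ : Empty => ξ.elim) t ε q) (hgood : ∀ a I, GoodS k (D a I))
    {R : Set A} (hε : ∀ a I, a ∉ R → ε a I = 0)
    {Mn : A → Finset (ι →₀ ℕ)} (hMn : ∀ a I, I ∈ Mn a ↔ mdeg β I = d a)
    (S0 : Finset (Place k F)) (NΛ : ℕ) :
    ∃ C : ℕ, ∀ (L : Type) [Field L] [Algebra k L] [Algebra F L] [Algebra F0 L]
      [IsScalarTower k F L] [IsScalarTower F0 F L] [FiniteDimensional F L] [IsFF k L]
      (x : ι → L) (l0 : S → ι), (∀ s, β (l0 s) = s) → (∀ s, x (l0 s) = 1) →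
      ∀ (u : A → L), (∀ a, u a = ∑ J ∈ Mn a, algebraMap F L (t a J) * mn x J) →
      ∀ (Λ : Type) [Fintype Λ], Fintype.card Λ ≤ NΛ → ∀ (ed : Λ → S → ℕ) (γ : Λ → A → ℤ)
        (ψ : Λ → L), (∀ b, ψ b ≠ 0) → (∀ (P : Place k L) b, under F P ∉ S0 →
          Ge P (∑ s, (ed b s : ℤ) * pord P (fun j => x (en s j))) (ψ b)) →
        ∀ (κ : S → ℤ), NumK F0 R β d (Fintype.card Δ) γ κ x u ψ →
        ∑ s, κ s * pht k (fun j => x (en s j)) ≤
          {P : Place k L | ∃ b, ∑ s, (ed b s : ℤ) * pord P (fun j => x (en s j)) <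
            P.ord (ψ b)}.ncard + canDeg k L + C * Module.finrank F L := by
  classical
  have hF : CharZero F := charZero_of_injective_algebraMap (algebraMap k F).injective
  choose q' hq0 hqf hq using hgood
  -- poles of the defects
  obtain ⟨g, hg0, hgf, hg⟩ := exists_poles (κ := k) (L := F)
    ((Finset.univ : Finset A).biUnion fun a => (Mn a).biUnion fun I =>
      insert (ε a I) ((Finset.univ : Finset Δ).image fun δ => c a I δ))
  have hg1 : ∀ v a I, mdeg β I = d a → Ge v (-g v) (ε a I) := fun v a I hI => hg v _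
    (Finset.mem_biUnion.2 ⟨a, Finset.mem_univ _, Finset.mem_biUnion.2 ⟨I, (hMn a I).2 hI,
      Finset.mem_insert_self _ _⟩⟩)
  have hg2 : ∀ v a I δ, mdeg β I = d a → Ge v (-g v) (c a I δ) := fun v a I δ hI => hg v _
    (Finset.mem_biUnion.2 ⟨a, Finset.mem_univ _, Finset.mem_biUnion.2 ⟨I, (hMn a I).2 hI,
      Finset.mem_insert_of_mem (Finset.mem_image_of_mem _ (Finset.mem_univ _))⟩⟩)
  obtain ⟨Q, hQ⟩ : ∃ Q : Place k F → ℤ, ∀ v, Q v = g v + ∑ a, ∑ I ∈ Mn a, q' a I v :=
    ⟨_, fun _ => rfl⟩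
  have hs0 : ∀ v, 0 ≤ ∑ a, ∑ I ∈ Mn a, q' a I v := fun v =>
    Finset.sum_nonneg fun a _ => Finset.sum_nonneg fun I _ => hq0 a I v
  have hQ0 : ∀ v, 0 ≤ Q v := fun v => by
    rw [hQ]
    exact add_nonneg (hg0 v) (hs0 v)
  have hQf : {v | Q v ≠ 0}.Finite := by
    have h1 : (⋃ a : A, ⋃ I ∈ Mn a, {v | q' a I v ≠ 0}).Finite :=
      Set.finite_iUnion fun a => (Mn a).finite_toSet.biUnion fun I _ => hqf a I
    refine (hgf.union h1).subset fun v hv => ?_
    by_contra hcon
    simp only [Set.mem_union, Set.mem_iUnion, not_or, not_exists, Set.mem_ofPred_eq,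
      not_not] at hcon
    apply hv
    rw [hQ, hcon.1, zero_add]
    exact Finset.sum_eq_zero fun a _ => Finset.sum_eq_zero fun I hI => hcon.2 a I hI
  have hQg : ∀ v, g v ≤ Q v := fun v => by
    rw [hQ]
    linarith [hs0 v]
  have hQle : ∀ a I, mdeg β I = d a → ∀ v, q' a I v ≤ Q v := by
    intro a I hI v
    rw [hQ]
    have h1 : q' a I v ≤ ∑ a, ∑ I ∈ Mn a, q' a I v := by
      refine le_trans ?_ (Finset.single_le_sum (f := fun a => ∑ I ∈ Mn a, q' a I v)
        (fun a _ => Finset.sum_nonneg fun I _ => hq0 a I v) (Finset.mem_univ a))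
      exact Finset.single_le_sum (f := fun I => q' a I v) (fun I _ => hq0 a I v)
        ((hMn a I).2 hI)
    linarith [hg0 v]
  obtain ⟨C1, hC1⟩ := sum_loss (k := k) hQ0 hQf
  obtain ⟨C3, hC3⟩ := sum_under (k := k) hQ0 hQf
  obtain ⟨C2, hC2⟩ : ∃ C2 : ℕ, (C2 : ℤ) = ∑ v ∈ S0, hgt k (unif v) :=
    ⟨(∑ v ∈ S0, hgt k (unif v)).toNat, Int.toNat_of_nonneg
      (Finset.sum_nonneg fun _ _ => hgt_nonneg _)⟩
  obtain ⟨N, hN⟩ : ∃ N : ℕ, N = Fintype.card ι + (Fintype.card Δ + NΛ) := ⟨_, rfl⟩
  refine ⟨C1 + N * C3 + C2, ?_⟩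
  intro L _ _ _ _ _ _ _ _ x l0 hl0 hx0 u hu Λ _ hΛ ed γ ψ hψ0 hψi κ hnum
  have hLz : CharZero L := charZero_of_injective_algebraMap (algebraMap k L).injective
  choose D' hD' hDl using fun a I => hq a I L
  obtain ⟨D'', hD''⟩ : ∃ D'' : A → (ι →₀ ℕ) → Derivation ℤ L L, D'' = fun a I =>
    if mdeg β I = d a then D' a I else 0 := ⟨_, rfl⟩
  obtain ⟨c'', hc''⟩ : ∃ c'' : A → (ι →₀ ℕ) → Δ → L, c'' = fun a I δ =>
    if mdeg β I = d a then algebraMap F L (c a I δ) else 0 := ⟨_, rfl⟩
  obtain ⟨ε'', hε''⟩ : ∃ ε'' : A → (ι →₀ ℕ) → L, ε'' = fun a I =>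
    if mdeg β I = d a then algebraMap F L (ε a I) else 0 := ⟨_, rfl⟩
  have hDmap : ∀ a I, mdeg β I = d a → ∀ f, D'' a I (algebraMap F L f) =
      algebraMap F L (D a I f) := fun a I hI f => by
    rw [hD'']
    simp only [if_pos hI]
    exact hD' a I f
  have hεm : ∀ a I, mdeg β I = d a → ε'' a I = algebraMap F L (ε a I) := fun a I hI => by
    rw [hε'']
    simp only [if_pos hI]
  have hrel : Rel F0 β d D'' c'' (fun ξ : Empty => ξ.elim) (fun a J => algebraMap F L (t a J))
      ε'' q := by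
    refine ⟨fun a I r => ?_, fun ξ => ξ.elim, fun ξ => ξ.elim, h.qd, fun a I δ hI => ?_,
      fun a I b J hI hJ hq => ?_⟩
    · by_cases hI : mdeg β I = d a
      · rw [IsScalarTower.algebraMap_apply F0 F L, hDmap a I hI, h.Dk, map_zero]
      · rw [hD'']
        simp only [if_neg hI]
        rfl
    · rw [kr_map (hεm a I hI), hDmap a I hI, ← map_sub, ← h.cq a I δ hI, hc'']
      simp only [if_pos hI]
    · rw [kr_map (hεm a I hI), hDmap a I hI, h.Dt a I b J hI hJ hq]
  have hεR : ∀ a I, a ∉ R → ε'' a I = 0 := fun a I ha => by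
    rw [hε'']
    simp only [hε a I ha, map_zero, ite_self]
  obtain ⟨b, σ, hb, hspan, hdet, hκ, hbc⟩ := exists_good (ed := ed) hrel hMn hu hψ0 hεR
    hl0 hx0 hnum
  obtain ⟨hqfin, hqsum⟩ := hC1 L
  obtain ⟨hufin, husum⟩ := hC3 L
  have hloc : ∀ P : Place k L, LocS P D'' c'' ε'' ((ram F P : ℤ) * Q (under F P))
      (((ram F P : ℤ) - 1) + ram F P * Q (under F P)) := by
    intro P
    have h0 : (0 : ℤ) ≤ ram F P := by positivity
    have h1 := hQ0 (under F P)
    have h2 : (1 : ℤ) ≤ ram F P := by exact_mod_cast (ram_spec (F := F) P).1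
    have h3 : (0 : ℤ) ≤ (ram F P : ℤ) * Q (under F P) := mul_nonneg h0 h1
    have hge : ∀ f : F, Ge (under F P) (-g (under F P)) f →
        Ge P (-((ram F P : ℤ) * Q (under F P))) (algebraMap F L f) := by
      intro f hf
      rcases hf with hf | hf
      · left; rw [hf, map_zero]
      · right
        rw [ord_under]
        have h4 := hQg (under F P)
        nlinarith
    refine ⟨h3, by omega, fun a I => ?_, fun δ hδ a I g' f hf => ?_, fun a I δ => ?_,
      fun a I => ?_⟩
    · by_cases hI : mdeg β I = d a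
      · rw [hD'']
        simp only [if_pos hI]
        refine (hDl a I P).1.mono ?_
        have h4 := hQle a I hI (under F P)
        nlinarith
      · rw [hD'']
        simp only [if_neg hI]
        exact Ge.zero
    · by_cases hI : mdeg β I = d a
      · rw [hD'']
        simp only [if_pos hI]
        refine ((hDl a I P).2 δ hδ g' f hf).mono ?_
        have h4 := hQle a I hI (under F P)
        nlinarith
      · rw [hD'']
        simp only [if_neg hI]
        left
        simp
    · by_cases hI : mdeg β I = d a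
      · rw [hc'']
        simp only [if_pos hI]
        exact hge _ (hg2 _ a I δ hI)
      · rw [hc'']
        simp only [if_neg hI]
        exact Ge.zero
    · by_cases hI : mdeg β I = d a
      · rw [hε'']
        simp only [if_pos hI]
        exact hge _ (hg1 _ a I hI)
      · rw [hε'']
        simp only [if_neg hI]
        exact Ge.zero
  -- the places of meeting
  have hne : ∀ s, ∃ j, (fun j => x (en s j)) j ≠ 0 := by
    intro s
    obtain ⟨j, hj⟩ := hB.surj s (l0 s) (hl0 s)
    exact ⟨j, by dsimp only; rw [hj, hx0]; exact one_ne_zero⟩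
  obtain ⟨W, hW⟩ : ∃ W : Set (Place k L), W = {P : Place k L | ∃ b,
    ∑ s, (ed b s : ℤ) * pord P (fun j => x (en s j)) < P.ord (ψ b)} := ⟨_, rfl⟩
  have hWfin : W.Finite := by
    have h1 : (⋃ b : Λ, {P : Place k L | P.ord (ψ b) ≠ 0}).Finite :=
      Set.finite_iUnion fun b => finite_support _
    have h2 : (⋃ s : S, {P : Place k L | pord P (fun j => x (en s j)) ≠ 0}).Finite :=
      Set.finite_iUnion fun s => pord_finite (hne s)
    refine (h1.union h2).subset fun P hP => ?_
    by_contra hcon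
    simp only [Set.mem_union, Set.mem_iUnion, Set.mem_ofPred_eq, not_or, not_exists,
      not_not] at hcon
    rw [hW] at hP
    obtain ⟨b, hb⟩ := hP
    rw [hcon.1 b, Finset.sum_eq_zero fun s _ => by rw [hcon.2 s, mul_zero]] at hb
    exact lt_irrefl _ hb
  have hBfin : {P : Place k L | under F P ∈ S0}.Finite :=
    finite_over_set (Finset.finite_toSet S0)
  obtain ⟨U, hU⟩ : ∃ U : Finset (Place k L), U = hWfin.toFinset ∪ hBfin.toFinset := ⟨_, rfl⟩
  have hUm : ∀ P (b : Λ), P.ord (ψ b) ≠ ∑ s, (ed b s : ℤ) * pord P (fun j => x (en s j)) →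
      P ∈ U := by
    intro P b hne'
    rw [hU, Finset.mem_union, Set.Finite.mem_toFinset, Set.Finite.mem_toFinset]
    by_cases hP : under F P ∈ S0
    · exact Or.inr hP
    · left
      rw [hW]
      exact ⟨b, lt_of_le_of_ne ((hψi P b hP).resolve_left (hψ0 b)) (Ne.symm hne')⟩
  have hUc : (U.card : ℤ) ≤ W.ncard + Module.finrank F L * C2 := by
    have h1 := Finset.card_union_le hWfin.toFinset hBfin.toFinset
    rw [← hU, ← Set.ncard_eq_toFinset_card _ hWfin, ← Set.ncard_eq_toFinset_card _ hBfin] at h1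
    have h2 := card_over_le (L := L) S0
    rw [← hC2] at h2
    have h3 : (U.card : ℤ) ≤ W.ncard + {P : Place k L | under F P ∈ S0}.ncard := by
      exact_mod_cast h1
    linarith
  have key := ineq (d := d) (D := D'') (c := c'') (ε := ε'') (ψ := ψ) (ed := ed) (γ := γ)
    hB hloc hufin hqfin hl0 (fun s => by rw [hx0]; exact one_ne_zero)
    hψ0 (U := U) hUm hb σ hspan hdet hκ (N := N) (by
      refine hbc.trans ?_
      rw [hN]
      omega)
  have h5 : (0 : ℤ) ≤ N := by positivity
  have h6 := mul_le_mul_of_nonneg_left husum h5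
  rw [← hW]
  push_cast
  linarith

end Pool.Agent.KS6_26.E
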