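import Mathlib
import Pool.Agent.KS6_26.E.Eval

/-!
# The leading coefficient
-/

namespace Pool.Agent.KS6_26.E

open Finset Pool.Agent.T6.H58.RK

variable {n : ℕ}

theorem seg_eq (b : ℕ) : seg n b = univ.filter fun i : Fin n => i.val < b := rfl

/-- a set of `b` rows without rows from `b` on is the initial segment -/
theorem eq_seg {b : ℕ} (hb : b ≤ n) {P : Finset (Fin n)} (hP : P.card = b)
    (h : (P.filter fun i => b ≤ i.val).card = 0) : P = seg n b := by
  refine Finset.eq_of_subset_of_card_le ?_ (by rw [hP, card_seg hb])
  intro i hi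
  rw [seg_eq, mem_filter]
  refine ⟨mem_univ i, ?_⟩
  by_contra hcon
  rw [card_eq_zero, filter_eq_empty_iff] at h
  exact h hi (by omega)

/-- rows of a list of columns -/
def rowsOf (l : List ℕ) : Fin n → ℕ := fun i => l.countP (fun x => decide (i.val < x))

theorem rowsOf_cons (b : ℕ) (l : List ℕ) (i : Fin n) :
    rowsOf (b :: l) i = rowsOf l i + if i ∈ seg n b then 1 else 0 := by
  unfold rowsOf
  rw [List.countP_cons]
  simp only [seg_eq, mem_filter, mem_univ, true_and, decide_eq_true_eq]

theorem sum_rowsOf (m : ℕ) : ∀ l : List ℕ, (∀ x ∈ l, x ≤ n) →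
    ∑ i : Fin n with m ≤ i.val, rowsOf l i = (l.map (· - m)).sum := by
  intro l
  induction l with
  | nil => intro _; simp [rowsOf]
  | cons b l ih =>
    intro h
    simp only [rowsOf_cons]
    rw [sum_add_distrib, ih (fun x hx => h x (by simp [hx])), List.map_cons, List.sum_cons]
    have h1 := card_between (n := n) b m (h b (by simp))
    simp only [seg_eq, mem_filter, mem_univ, true_and]
    omega

/-- if the rows are exactly filled by initial segments, there is only one matrix -/
theorem walks_collapse (k : ℕ) (b : ℕ) (l : List ℕ) (hl : ∀ x ∈ b :: l, x ≤ n) (c r : Fin n → ℕ)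
    (hr : ∀ i, r i = c i + rowsOf (b :: l) i) :
    walks k r (b :: l) c = colWt k c (seg n b) * walks k r l (addCol c (seg n b)) := by
  have hb : b ≤ n := hl b (by simp)
  rw [walks, sum_eq_single (seg n b)]
  · intro P hP hne
    rw [mem_powersetCard] at hP
    by_contra hcon
    have h1 := walks_necessary k r l _ (right_ne_zero_of_mul hcon) b
    have h2 : ∑ i : Fin n with b ≤ i.val, addCol c P i
        = ∑ i : Fin n with b ≤ i.val, c i + (P.filter fun i => b ≤ i.val).card := by
      unfold addCol
      rw [sum_add_distrib, ← sum_filter, sum_const, smul_eq_mul, mul_one]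
      congr 2
      ext i
      simp only [mem_filter, mem_univ, true_and]
      tauto
    have h3 : ∑ i : Fin n with b ≤ i.val, r i
        = ∑ i : Fin n with b ≤ i.val, c i + ((b :: l).map (· - b)).sum := by
      rw [← sum_rowsOf b (b :: l) hl, ← sum_add_distrib]
      exact sum_congr rfl fun i _ => hr i
    rw [List.map_cons, List.sum_cons] at h3
    apply hne
    apply eq_seg hb hP.2
    omega
  · intro h
    exfalso
    apply h
    rw [mem_powersetCard]
    exact ⟨subset_univ _, card_seg hb⟩

theorem colWt_congr {k : ℕ} {c : Fin n → ℕ} (hc : ∀ i j, c i ≡ c j [MOD k]) {b : ℕ}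
    (hb : b ≤ n) : colWt k c (seg n b) = (n.choose b : ℚ) := by
  rw [← wt_seg b hb]
  unfold colWt wt
  refine prod_congr rfl fun p _ => ?_
  rw [← compl_eq_univ_sdiff]
  refine prod_congr rfl fun i _ => ?_
  rw [if_pos (hc p i)]
  unfold hf uN
  rw [if_pos (by simp)]
  simp

theorem colWt_one {k : ℕ} {c : Fin n → ℕ} {b : ℕ}
    (hc : ∀ p i, p ∈ seg n b → i ∉ seg n b → ¬ c p ≡ c i [MOD k]) : colWt k c (seg n b) = 1 := by
  unfold colWt
  refine prod_eq_one fun p hp => prod_eq_one fun i hi => ?_
  rw [if_neg (hc p i hp (mem_compl.1 hi))]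

/-- the rest of a block of equal columns -/
theorem walks_block {k : ℕ} {c r : Fin n → ℕ} (hc : ∀ i j, c i ≡ c j [MOD k]) {b : ℕ}
    (l : List ℕ) (hb : b ≤ n) (hl : ∀ x ∈ l, x ≤ n) : ∀ m j : ℕ, 1 ≤ j → j + m = k →
      (∀ i, r i = (c i + if i ∈ seg n b then j else 0) + rowsOf (List.replicate m b ++ l) i) →
      walks k r (List.replicate m b ++ l) (fun i => c i + if i ∈ seg n b then j else 0)
        = walks k r l (fun i => c i + if i ∈ seg n b then k else 0) := by
  intro m
  induction m with
  | zero =>
    intro j _ hjk _
    have : j = k := by omega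
    subst this
    rfl
  | succ m ih =>
    intro j hj hjk hr
    rw [List.replicate_succ, List.cons_append] at hr ⊢
    have hl' : ∀ x ∈ b :: (List.replicate m b ++ l), x ≤ n := by
      intro x hx
      rw [List.mem_cons, List.mem_append, List.mem_replicate] at hx
      rcases hx with rfl | ⟨_, rfl⟩ | hx
      · exact hb
      · exact hb
      · exact hl x hx
    rw [walks_collapse k b _ hl' _ r hr, colWt_one, one_mul]
    · have e : addCol (fun i => c i + if i ∈ seg n b then j else 0) (seg n b)
          = fun i => c i + if i ∈ seg n b then j + 1 else 0 := by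
        funext i
        simp only [addCol]
        split_ifs <;> omega
      rw [e]
      refine ih (j + 1) (by omega) (by omega) fun i => ?_
      have h5 := hr i
      rw [rowsOf_cons] at h5
      by_cases hi : i ∈ seg n b
      · simp only [if_pos hi] at h5 ⊢
        omega
      · simp only [if_neg hi] at h5 ⊢
        omega
    · intro p i hp hi hmod
      rw [if_pos hp, if_neg hi, add_zero] at hmod
      have h1 : c p + j ≡ c p [MOD k] := hmod.trans (hc i p)
      have h2 : j ≡ 0 [MOD k] := by
        have : c p + j ≡ c p + 0 [MOD k] := by simpa using h1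
        exact Nat.ModEq.add_left_cancel' _ this
      have h3 : k ∣ j := (Nat.modEq_zero_iff_dvd).1 h2
      have := Nat.le_of_dvd (by omega) h3
      omega

/-- the list in which every element is repeated `k` times -/
def blocks (k : ℕ) (t : List ℕ) : List ℕ := t.flatMap fun b => List.replicate k b

theorem blocks_cons (k b : ℕ) (t : List ℕ) :
    blocks k (b :: t) = List.replicate k b ++ blocks k t := by
  simp [blocks]

theorem coe_blocks (k : ℕ) (t : List ℕ) : (blocks k t : Multiset ℕ) = k • (t : Multiset ℕ) := by
  induction t with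
  | nil => simp [blocks]
  | cons b t ih =>
    rw [blocks_cons, ← Multiset.coe_add, ih, ← Multiset.cons_coe, ← Multiset.singleton_add,
      nsmul_add, Multiset.nsmul_singleton, Multiset.coe_replicate]

/-- **The leading coefficient.** -/
theorem walks_blocks {k : ℕ} (hk : 1 ≤ k) : ∀ (t : List ℕ) (c r : Fin n → ℕ),
    (∀ i j, c i ≡ c j [MOD k]) → (∀ x ∈ t, x ≤ n) →
      (∀ i, r i = c i + rowsOf (blocks k t) i) →
      walks k r (blocks k t) c = ((t.map (n.choose ·)).prod : ℕ) := by
  intro t
  induction t with
  | nil =>
    intro c r _ _ hr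
    have : c = r := by
      funext i
      rw [hr i]
      simp [rowsOf, blocks]
    simp [blocks, walks, this]
  | cons b t ih =>
    intro c r hc ht hr
    have hb : b ≤ n := ht b (by simp)
    have ht' : ∀ x ∈ blocks k t, x ≤ n := by
      intro x hx
      unfold blocks at hx
      rw [List.mem_flatMap] at hx
      obtain ⟨y, hy, hxy⟩ := hx
      rw [(List.mem_replicate.1 hxy).2]
      exact ht y (by simp [hy])
    obtain ⟨m, rfl⟩ : ∃ m, k = m + 1 := ⟨k - 1, by omega⟩
    rw [blocks_cons, List.replicate_succ, List.cons_append] at hr ⊢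
    have hl' : ∀ x ∈ b :: (List.replicate m b ++ blocks (m + 1) t), x ≤ n := by
      intro x hx
      rw [List.mem_cons, List.mem_append, List.mem_replicate] at hx
      rcases hx with rfl | ⟨_, rfl⟩ | hx
      · exact hb
      · exact hb
      · exact ht' x hx
    rw [walks_collapse (m + 1) b _ hl' c r hr, colWt_congr hc hb]
    have e : addCol c (seg n b) = fun i => c i + if i ∈ seg n b then 1 else 0 := rfl
    rw [e, walks_block hc (blocks (m + 1) t) hb ht' m 1 le_rfl (by omega)]
    · rw [ih]
      · rw [List.map_cons, List.prod_cons]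
        push_cast
        rfl
      · intro i j
        have h1 : ∀ i : Fin n, (c i + if i ∈ seg n b then m + 1 else 0) ≡ c i [MOD m + 1] := by
          intro i
          split_ifs
          · simp [Nat.ModEq]
          · simp [Nat.ModEq]
        exact (h1 i).trans ((hc i j).trans (h1 j).symm)
      · intro x hx
        exact ht x (by simp [hx])
      · intro i
        rw [hr i, rowsOf_cons]
        have h2 : rowsOf (List.replicate m b ++ blocks (m + 1) t) i
            = (if i ∈ seg n b then m else 0) + rowsOf (blocks (m + 1) t) i := by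
          unfold rowsOf
          rw [List.countP_append, List.countP_replicate]
          congr 1
          simp only [seg_eq, mem_filter, mem_univ, true_and, decide_eq_true_eq]
        rw [h2]
        split_ifs <;> omega
    · intro i
      rw [hr i, rowsOf_cons]
      split_ifs <;> omega

theorem rowsOf_blocks (k : ℕ) (t : List ℕ) :
    (rowsOf (blocks k t) : Fin n → ℕ) = rows n k (t : Multiset ℕ) := by
  funext i
  unfold rowsOf rows
  have h1 : (blocks k t).countP (fun x => decide (i.val < x))
      = (blocks k t : Multiset ℕ).countP (fun a => i.val < a) := by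
    rw [Multiset.coe_countP]
  rw [h1, coe_blocks, Multiset.countP_nsmul]

end Pool.Agent.KS6_26.E
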