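import Pool.Agent.KS6_26.E.Rank
import Pool.Graph.R_seed8.TH812.GV2.Vojta

/-!
The local estimate and the height inequality, with one loss in the direction of the curve.
-/

set_option autoImplicit false

open FF Pool.Agent.W603.LV Pool.Agent.W603.PV Pool.Agent.TH145.GH
open Pool.Agent.TH145.GC (ord_prod)
open Pool.Agent.KS6_26.D (mn mn_single mn_add mn_std mdeg mdeg_single mdeg_std std Ev Rel Blk)

namespace Pool.Agent.KS6_26.E

section det

variable {k K : Type} [Field k] [Field K] [Algebra k K]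

theorem ge_det_w (P : Place k K) {R : Type} [Fintype R] [DecidableEq R] (M : Matrix R R K)
    (r c : R → ℤ) (hM : ∀ i j, Ge P (r i + c j) (M i j)) :
    Ge P (∑ i, r i + ∑ i, c i) M.det := by
  rw [Matrix.det_apply]
  refine Ge.sum _ _ fun σ _ => ?_
  have h1 : Ge P (∑ i, r i + ∑ i, c i) (∏ i, M (σ i) i) := by
    have := Ge.prod (P := P) Finset.univ (fun i => M (σ i) i) (fun i => r (σ i) + c i)
      fun i _ => hM _ _
    rw [Finset.sum_add_distrib, Equiv.sum_comp σ r] at this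
    exact this
  rcases Int.units_eq_one_or (Equiv.Perm.sign σ) with h | h
  · rw [h, one_smul]; exact h1
  · rw [h, Units.neg_smul, one_smul]; exact h1.neg

/-- The determinant of a matrix plus a matrix of rank one. -/
theorem ge_det_dir (P : Place k K) {R : Type} [Fintype R] [DecidableEq R] (M : Matrix R R K)
    (a w : R → K) {q e ν : ℤ} (hq : q ≤ e) (hν : 0 ≤ ν) (hM : ∀ i j, Ge P (-q) (M i j))
    (ha : ∀ i, Ge P (-e) (a i)) (hw : ∀ j, Ge P (-ν) (w j)) :
    Ge P (-(e + ν + (Fintype.card R : ℤ) * q) + q) (Matrix.of fun i j => M i j + a i * w j).det := by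
  obtain ⟨N, hN⟩ : ∃ N : Matrix (Unit ⊕ R) (Unit ⊕ R) K, N = Matrix.fromBlocks 1
    (Matrix.of fun _ j => w j) (Matrix.of fun i _ => -a i) M := ⟨_, rfl⟩
  have h1 : N.det = (Matrix.of fun i j => M i j + a i * w j).det := by
    rw [hN, Matrix.det_fromBlocks_one₁₁]
    congr 1
    ext i j
    simp [Matrix.mul_apply]
  rw [← h1]
  have h2 := ge_det_w P N (Sum.elim (fun _ => -ν) fun _ => -q) (Sum.elim (fun _ => -(e - q))
    fun _ => 0) (fun i j => by
      rw [hN]
      rcases i with i | i <;> rcases j with j | j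
      · rw [Matrix.fromBlocks_apply₁₁]
        refine Ge.mono ?_ (Ge.one : Ge P 0 _)
        simp only [Sum.elim_inl]
        omega
      · rw [Matrix.fromBlocks_apply₁₂]
        refine (hw j).mono ?_
        simp
      · rw [Matrix.fromBlocks_apply₂₁]
        refine (ha i).neg.mono ?_
        simp
      · rw [Matrix.fromBlocks_apply₂₂]
        refine (hM i j).mono ?_
        simp)
  refine h2.mono ?_
  simp only [Fintype.sum_sum_type, Sum.elim_inl, Sum.elim_inr, Finset.univ_unique,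
    Finset.sum_const, Finset.card_univ, nsmul_eq_mul, Finset.card_singleton, Nat.cast_one,
    one_mul, mul_zero, add_zero]
  linarith

end det

/-- Regularity of the derivations and of the defects at a place, up to `e` in the direction of
the curve, and up to `q` in the other directions. -/
structure LocS {k K : Type} [Field k] [Field K] [Algebra k K] [IsAlgClosed k] [CharZero k]
    [IsFF k K] {ι A Δ : Type} (P : Place k K)
    (D : A → (ι →₀ ℕ) → Derivation ℤ K K) (c : A → (ι →₀ ℕ) → Δ → K)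
    (ε : A → (ι →₀ ℕ) → K) (q e : ℤ) : Prop where
  q_nonneg : 0 ≤ q
  le : q ≤ e
  dir : ∀ a I, Ge P (-e) (D a I (unif P))
  rest : ∀ δ, Pool.Agent.TH812.GV2.Loc P δ → ∀ a I (g : ℤ) (f : K), Ge P g f →
    Ge P (g - q) (D a I f - D a I (unif P) * δ f)
  def_ : ∀ a I δ, Ge P (-q) (c a I δ)
  eps : ∀ a I, Ge P (-q) (ε a I)

section loc

variable {k K : Type} [Field k] [Field K] [Algebra k K] [IsAlgClosed k] [CharZero k]
  [IsFF k K] {ι S A Δ Λ : Type} [DecidableEq S] {β : ι → S} {d : A → S → ℕ}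
  {D : A → (ι →₀ ℕ) → Derivation ℤ K K} {c : A → (ι →₀ ℕ) → Δ → K}
  {ε : A → (ι →₀ ℕ) → K} {ed : Λ → S → ℕ} {γ : Λ → A → ℤ}

open scoped Classical in
/-- The order of a determinant. -/
theorem ge_mx {P : Place k K} {q e : ℤ} (h : LocS P D c ε q e) {x : ι → K}
    (hx : ∀ l, Ge P 0 (x l)) {ψ : Λ → K} {ν : ℤ} (hν : 0 ≤ ν)
    (hνb : ∀ b, P.ord (ψ b) ≠ 0 → 1 ≤ ν) (I : A → ι →₀ ℕ) (b : Finset (Gx ι S A ⊕ A))
    (σ : b → ι ⊕ (Δ ⊕ Λ)) :
    Ge P (-(e + ν + (b.card : ℤ) * q)) (mx β d D (cl D c ε γ ψ) (pl K ed) x I b σ).det := by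
  obtain ⟨δ, hδ⟩ := Pool.Agent.TH812.GV2.exists_locd P
  have hq := h.q_nonneg
  obtain ⟨w, hw⟩ : ∃ w : ι ⊕ (Δ ⊕ Λ) → K, w = Sum.elim (fun l => δ (x l))
    (Sum.elim (fun _ => 0) fun b => δ (ψ b) / ψ b) := ⟨_, rfl⟩
  have hwν : ∀ j, Ge P (-ν) (w j) := by
    intro j
    rw [hw]
    rcases j with l | (δ' | b)
    · exact (hδ.2.2 _ (hx l)).mono (by omega)
    · exact Ge.zero
    · simp only [Sum.elim_inr]
      have h1 : Ge P (-P.ord (ψ b)) (ψ b)⁻¹ := by
        right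
        rw [P.ord_inv]
      by_cases h0 : P.ord (ψ b) = 0
      · rw [div_eq_mul_inv]
        refine Ge.mono ?_ ((hδ.2.2 _ (Or.inr h0.ge)).mul h1)
        omega
      · have h2 := hνb b h0
        rw [div_eq_mul_inv]
        refine Ge.mono ?_ ((Pool.Agent.TH812.GV.ge_der P (q := 0) (fun f hf => by
          rw [neg_zero]; exact hδ.2.2 f hf) (Or.inr le_rfl : Ge P (P.ord (ψ b)) _)).mul h1)
        omega
  have hEv : ∀ a I j, Ge P (-q) (Ev D (cl D c ε γ ψ) x a I j - D a I (unif P) * w j) := by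
    intro a I j
    rw [hw]
    rcases j with l | (δ' | b)
    · refine Ge.mono ?_ (h.rest δ hδ a I 0 _ (hx l))
      omega
    · simp only [Ev, cl, Sum.elim_inr, Sum.elim_inl, mul_zero, sub_zero]
      exact h.def_ a I δ'
    · simp only [Ev, cl, Sum.elim_inr]
      have h1 : Ge P (-P.ord (ψ b)) (ψ b)⁻¹ := by
        right
        rw [P.ord_inv]
      have h2 := (h.rest δ hδ a I _ (ψ b) (Or.inr le_rfl)).mul h1
      have h4 : Ge P (-q) ((γ b a : K) * ε a I) := by
        have h5 := (Ge.intCast (P := P) (γ b a)).mul (h.eps a I)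
        rw [zero_add] at h5
        exact h5
      rw [sub_right_comm]
      refine Ge.sub ?_ h4
      refine Ge.mono ?_ (?_ : Ge P (P.ord (ψ b) - q + -P.ord (ψ b)) _)
      · omega
      · have h3 : D a I (ψ b) / ψ b - D a I (unif P) * (δ (ψ b) / ψ b) =
            (D a I (ψ b) - D a I (unif P) * δ (ψ b)) * (ψ b)⁻¹ := by
          rw [div_eq_mul_inv, div_eq_mul_inv]
          ring
        rw [h3]
        exact h2
  -- the coefficients of the direction
  obtain ⟨cc, hc1, hc2, hc3⟩ : ∃ cc : Gx ι S A ⊕ A → K, (∀ s, cc (Sum.inl (Sum.inl s)) = 0) ∧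
      (∀ t, cc (Sum.inl (Sum.inr t)) =
        if β t.2.2.1 = β t.2.2.2 ∧ mdeg β (t.2.1 + Finsupp.single t.2.2.1 1) = d t.1 then
        x t.2.2.2 * D t.1 (t.2.1 + Finsupp.single t.2.2.1 1) (unif P) -
        x t.2.2.1 * D t.1 (t.2.1 + Finsupp.single t.2.2.2 1) (unif P) else 0) ∧
      ∀ a, cc (Sum.inr a) = D a (I a) (unif P) :=
    ⟨fun i => match i with
      | Sum.inl (Sum.inl _) => 0
      | Sum.inl (Sum.inr t) =>
        if β t.2.2.1 = β t.2.2.2 ∧ mdeg β (t.2.1 + Finsupp.single t.2.2.1 1) = d t.1 then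
        x t.2.2.2 * D t.1 (t.2.1 + Finsupp.single t.2.2.1 1) (unif P) -
        x t.2.2.1 * D t.1 (t.2.1 + Finsupp.single t.2.2.2 1) (unif P) else 0
      | Sum.inr a => D a (I a) (unif P), fun _ => rfl, fun _ => rfl, fun _ => rfl⟩
  have hcc : ∀ i, Ge P (-e) (cc i) := by
    intro i
    have he : -e ≤ 0 := by have := h.le; omega
    rcases i with (s | t) | a
    · rw [hc1]; exact Ge.zero
    · rw [hc2]
      split_ifs
      · have h1 := (hx t.2.2.2).mul (h.dir t.1 (t.2.1 + Finsupp.single t.2.2.1 1))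
        have h2 := (hx t.2.2.1).mul (h.dir t.1 (t.2.1 + Finsupp.single t.2.2.2 1))
        rw [zero_add] at h1 h2
        exact h1.sub h2
      · exact Ge.zero
    · rw [hc3]; exact h.dir a (I a)
  have hrr : ∀ i j, Ge P (-q) (vv β d D (cl D c ε γ ψ) (pl K ed) x I i j - cc i * w j) := by
    intro i j
    have hq0 : -q ≤ 0 := by omega
    rcases i with (s | t) | a
    · rw [hc1, zero_mul, sub_zero]
      rcases j with l | (δ' | b)
      · simp only [vv, gen, Sum.elim_inl]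
        split_ifs
        · exact (hx l).mono hq0
        · exact Ge.zero
      · simp only [vv, gen, pl, Sum.elim_inr, Sum.elim_inl]
        exact Ge.zero
      · simp only [vv, gen, pl, Sum.elim_inr]
        exact (Ge.natCast (P := P) _).mono hq0
    · rw [hc2]
      simp only [vv, gen]
      split_ifs
      · have h1 := (hx t.2.2.2).mul (hEv t.1 (t.2.1 + Finsupp.single t.2.2.1 1) j)
        have h2 := (hx t.2.2.1).mul (hEv t.1 (t.2.1 + Finsupp.single t.2.2.2 1) j)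
        rw [zero_add] at h1 h2
        have h3 := h1.sub h2
        convert h3 using 1
        simp only [Pi.sub_apply, Pi.smul_apply, smul_eq_mul]
        ring
      · rw [zero_mul, sub_zero]
        exact Ge.zero
    · rw [hc3]
      exact hEv a (I a) j
  have h1 := ge_det_dir P (Matrix.of fun i j : b => vv β d D (cl D c ε γ ψ) (pl K ed) x I i (σ j) -
    cc i * w (σ j)) (fun i : b => cc i) (fun j => w (σ j)) h.le hν (fun i j => hrr _ _)
    (fun i => hcc _) fun j => hwν _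
  have h2 : (Matrix.of fun i j : b => (Matrix.of fun i j : b =>
      vv β d D (cl D c ε γ ψ) (pl K ed) x I i (σ j) - cc i * w (σ j)) i j + cc i * w (σ j)) =
      mx β d D (cl D c ε γ ψ) (pl K ed) x I b σ := by
    ext i j
    simp only [mx, Matrix.of_apply, sub_add_cancel]
  rw [h2, Fintype.card_coe] at h1
  refine h1.mono ?_
  omega

end loc

section est

variable {k K : Type} [Field k] [Field K] [Algebra k K] [IsAlgClosed k] [CharZero k]
  [IsFF k K] {ι S A Δ Λ : Type} [DecidableEq S] [Fintype S]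
  {β : ι → S} {d : A → S → ℕ} {D : A → (ι →₀ ℕ) → Derivation ℤ K K}
  {c : A → (ι →₀ ℕ) → Δ → K} {ε : A → (ι →₀ ℕ) → K} {x : ι → K} {ψ : Λ → K}
  {ed : Λ → S → ℕ} {γ : Λ → A → ℤ}
  {n : S → ℕ} {en : ∀ s, Fin (n s + 1) → ι}

omit [IsAlgClosed k] [CharZero k] [IsFF k K] [DecidableEq S] [Algebra k K] in
theorem log_prod (D' : Derivation ℤ K K) {lam : S → K} (hlam : ∀ s, lam s ≠ 0) (w : S → ℕ) :
    D' (∏ s, lam s ^ w s) / ∏ s, lam s ^ w s = ∑ s, D' (lam s) / lam s * (w s : K) := by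
  classical
  have h : ∀ T : Finset S, D' (∏ s ∈ T, lam s ^ w s) / ∏ s ∈ T, lam s ^ w s =
      ∑ s ∈ T, D' (lam s) / lam s * (w s : K) := by
    intro T
    induction T using Finset.induction_on with
    | empty => simp
    | insert a T ha ih =>
      have h1 : (∏ s ∈ T, lam s ^ w s) ≠ 0 :=
        Finset.prod_ne_zero_iff.2 fun s _ => pow_ne_zero _ (hlam s)
      have h2 : lam a ^ w a ≠ 0 := pow_ne_zero _ (hlam a)
      rw [Finset.prod_insert ha, Finset.sum_insert ha, ← ih, D'.leibniz, D'.leibniz_pow]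
      simp only [smul_eq_mul, nsmul_eq_mul]
      rcases Nat.eq_zero_or_pos (w a) with h3 | h3
      · rw [h3]
        simp
      · obtain ⟨m, hm⟩ : ∃ m, w a = m + 1 := ⟨w a - 1, by omega⟩
        have h4 := hlam a
        rw [hm]
        simp only [Nat.add_sub_cancel]
        field_simp
        ring
  exact h _

omit [DecidableEq S] [IsAlgClosed k] [CharZero k] [IsFF k K] [Algebra k K] in
theorem prod_dsum (lam : S → K) (b : Finset (Gx ι S A ⊕ A)) :
    (∏ i ∈ b, Sum.elim (fun _ => (1 : K)) (fun a => ∏ s, lam s ^ d a s) i) =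
      ∏ s, lam s ^ dsum d b s := by
  unfold dsum
  simp only [← Finset.prod_pow_eq_pow_sum]
  rw [Finset.prod_comm]
  refine Finset.prod_congr rfl fun i _ => ?_
  rcases i with g | a
  · simp
  · rfl

open scoped Classical in
/-- The local inequality. -/
theorem local_est (hB : Blk β n en) (P : Place k K) {q e : ℤ} (h : LocS P D c ε q e)
    {e0 : S → ι} (he0 : ∀ s, β (e0 s) = s) (hx0 : ∀ s, x (e0 s) ≠ 0)
    (hψ : ∀ b, ψ b ≠ 0) {ν : ℤ} (hν : 0 ≤ ν)
    (hνb : ∀ b, P.ord (ψ b) ≠ ∑ s, (ed b s : ℤ) * pord P (fun j => x (en s j)) → 1 ≤ ν)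
    {b : Finset (Gx ι S A ⊕ A)} (hb : ∀ s, Sum.inl (Sum.inl s) ∈ b) (σ : b → ι ⊕ (Δ ⊕ Λ))
    (hspan : Submodule.span K (Set.range (gen β d D (cl D c ε γ ψ) (pl K ed) x)) ≤
      Submodule.span K (gen β d D (cl D c ε γ ψ) (pl K ed) x '' {g | Sum.inl g ∈ b}))
    (hdet : (mx β d D (cl D c ε γ ψ) (pl K ed) x (fun a => std e0 (d a)) b σ).det ≠ 0) :
    (∑ s, ((wt β σ s : ℤ) - dsum d b s) * pord P (fun j => x (en s j))) -
      (e + ν + b.card * q) ≤
      P.ord ((mx β d D (cl D c ε γ ψ) (pl K ed) x (fun a => std e0 (d a)) b σ).det /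
        ∏ i ∈ b, Sum.elim (fun _ => (1 : K)) (fun a => mn x (std e0 (d a))) i) := by
  have hne : ∀ s, ∃ j, (fun j => x (en s j)) j ≠ 0 := by
    intro s
    obtain ⟨j, hj⟩ := hB.surj s (e0 s) (he0 s)
    exact ⟨j, by dsimp only; rw [hj]; exact hx0 s⟩
  choose j1 hj1 hj1P using fun s => exists_pord P (hne s)
  obtain ⟨e1, he1⟩ : ∃ e1 : S → ι, ∀ s, e1 s = en s (j1 s) := ⟨_, fun _ => rfl⟩
  have hβ1 : ∀ s, β (e1 s) = s := fun s => by rw [he1, hB.blk]
  obtain ⟨lam, hlam⟩ : ∃ lam : S → K, ∀ s, lam s = x (e1 s) := ⟨_, fun _ => rfl⟩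
  have hlam0 : ∀ s, lam s ≠ 0 := fun s => by rw [hlam, he1]; exact hj1 s
  have hlamP : ∀ s, P.ord (lam s) = pord P (fun j => x (en s j)) := fun s => by
    rw [hlam, he1]; exact hj1P s
  obtain ⟨x', hx'⟩ : ∃ x' : ι → K, ∀ l, x' l = (lam (β l))⁻¹ * x l := ⟨_, fun _ => rfl⟩
  have hxx : ∀ l, x l = lam (β l) * x' l := fun l => by
    rw [hx', ← mul_assoc, mul_inv_cancel₀ (hlam0 _), one_mul]
  have hlp : ∀ w : S → ℕ, (∏ s, lam s ^ w s) ≠ 0 := fun w =>
    Finset.prod_ne_zero_iff.2 fun s _ => pow_ne_zero _ (hlam0 s)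
  have hlo : ∀ w : S → ℕ, P.ord (∏ s, lam s ^ w s) =
      ∑ s, (w s : ℤ) * pord P (fun j => x (en s j)) := fun w => by
    rw [ord_prod P _ _ fun s _ => pow_ne_zero _ (hlam0 s)]
    exact Finset.sum_congr rfl fun s _ => by rw [P.ord_pow, hlamP]
  obtain ⟨ψ', hψ'⟩ : ∃ ψ' : Λ → K, ∀ b, ψ' b = (∏ s, lam s ^ ed b s)⁻¹ * ψ b := ⟨_, fun _ => rfl⟩
  have hψψ : ∀ b, ψ b = (∏ s, lam s ^ ed b s) * ψ' b := fun b => by
    rw [hψ', ← mul_assoc, mul_inv_cancel₀ (hlp _), one_mul]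
  have hψ'0 : ∀ b, ψ' b ≠ 0 := fun b => by
    rw [hψ']
    exact mul_ne_zero (inv_ne_zero (hlp _)) (hψ b)
  have hint : ∀ l, Ge P 0 (x' l) := by
    intro l
    by_cases hl : x l = 0
    · rw [hx', hl, mul_zero]; exact Ge.zero
    · right
      rw [hx', P.ord_mul (inv_ne_zero (hlam0 _)) hl, P.ord_inv, hlamP]
      obtain ⟨j, hj⟩ := hB.surj _ l rfl
      have h1 := pord_le P (f := fun j => x (en (β l) j)) (j := j) (by
        rw [hj]; exact hl)
      rw [hj] at h1
      omega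
  have hc : ∀ a I δ, cl D c ε γ ψ a I δ = cl D c ε γ ψ' a I δ +
      ∑ s, D a I (lam s) / lam s * pl K ed s δ := by
    intro a I δ
    rcases δ with δ | b
    · simp [cl, pl]
    · simp only [cl, pl, Sum.elim_inr]
      rw [← log_prod (D a I) hlam0 (ed b), hψψ, (D a I).leibniz]
      simp only [smul_eq_mul]
      have h1 := hlp (ed b)
      have h2 := hψ'0 b
      field_simp
      ring
  obtain ⟨M0, hM0⟩ : ∃ M0, M0 = mx β d D (cl D c ε γ ψ) (pl K ed) x
    (fun a => std e0 (d a)) b σ := ⟨_, rfl⟩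
  obtain ⟨d0, hd0⟩ : ∃ d0, d0 = M0.det := ⟨_, rfl⟩
  obtain ⟨d1, hd1⟩ : ∃ d1, d1 = (mx β d D (cl D c ε γ ψ') (pl K ed) x'
    (fun a => std e1 (d a)) b σ).det := ⟨_, rfl⟩
  obtain ⟨Z0, hZ0⟩ : ∃ Z0, Z0 = ∏ i ∈ b, Sum.elim (fun _ => (1 : K))
    (fun a => mn x (std e0 (d a))) i := ⟨_, rfl⟩
  obtain ⟨Z1, hZ1⟩ : ∃ Z1, Z1 = ∏ i ∈ b, Sum.elim (fun _ => (1 : K))
    (fun a => mn x (std e1 (d a))) i := ⟨_, rfl⟩
  have h1 := det_change (D := D) (c := cl D c ε γ ψ) (p := pl K ed) he0 hx0 hβ1 σ hspan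
  rw [det_lam (d := d) (D := D) (c := cl D c ε γ ψ) (c' := cl D c ε γ ψ') (p := pl K ed)
    hlam0 hxx hc hb σ (fun a => std e1 (d a)),
    ← hd1, ← hM0, ← hd0] at h1
  have hZ0' : Z0 ≠ 0 := by
    rw [hZ0]
    refine Finset.prod_ne_zero_iff.2 fun i _ => ?_
    rcases i with g | a
    · exact one_ne_zero
    · rw [Sum.elim_inr, mn_std]
      exact Finset.prod_ne_zero_iff.2 fun s _ => pow_ne_zero _ (hx0 s)
  have h2 : (∏ i ∈ b, Sum.elim (fun _ => (1 : K))
        (fun a => mn x (std e1 (d a)) / mn x (std e0 (d a))) i) = Z1 / Z0 := by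
    rw [hZ1, hZ0, ← Finset.prod_div_distrib]
    refine Finset.prod_congr rfl fun i _ => ?_
    rcases i with g | a
    · simp
    · rfl
  have h3 : Z1 = ∏ s, lam s ^ dsum d b s := by
    rw [← prod_dsum, hZ1]
    refine Finset.prod_congr rfl fun i _ => ?_
    rcases i with g | a
    · rfl
    · simp only [Sum.elim_inr]
      rw [mn_std]
      exact Finset.prod_congr rfl fun s _ => by rw [hlam]
  rw [h2] at h1
  have hZ10 : Z1 ≠ 0 := by rw [h3]; exact hlp _
  rw [← hM0, ← hd0] at hdet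
  have hd10 : d1 ≠ 0 := by
    intro h0
    rw [h0, mul_zero] at h1
    exact mul_ne_zero (div_ne_zero hZ10 hZ0') hdet h1.symm
  have h4 : d0 / Z0 = (∏ s, lam s ^ wt β σ s) * d1 / Z1 := by
    rw [h1]
    field_simp
  rw [← hM0, ← hd0, ← hZ0, h4, P.ord_div (mul_ne_zero (hlp _) hd10) hZ10,
    P.ord_mul (hlp _) hd10, h3, hlo, hlo]
  have h5 : Ge P (-(e + ν + (b.card : ℤ) * q)) d1 := by
    rw [hd1]
    refine ge_mx h hint hν (fun b hb => ?_) _ b σ
    refine hνb b fun h0 => hb ?_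
    have h6 := hψψ b
    have h7 := congrArg P.ord h6
    rw [P.ord_mul (hlp _) (hψ'0 b), hlo, h0] at h7
    omega
  have h6 : -(e + ν + (b.card : ℤ) * q) ≤ P.ord d1 := h5.resolve_left hd10
  simp only [sub_mul, Finset.sum_sub_distrib]
  linarith

open scoped Classical in
/-- The height inequality. -/
theorem ineq (hB : Blk β n en) {q e : Place k K → ℤ} (h : ∀ P, LocS P D c ε (q P) (e P))
    (hq : {P | q P ≠ 0}.Finite) (he : {P | e P ≠ 0}.Finite)
    {e0 : S → ι} (he0 : ∀ s, β (e0 s) = s) (hx0 : ∀ s, x (e0 s) ≠ 0)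
    (hψ : ∀ b, ψ b ≠ 0) {U : Finset (Place k K)}
    (hU : ∀ P b, P.ord (ψ b) ≠ ∑ s, (ed b s : ℤ) * pord P (fun j => x (en s j)) → P ∈ U)
    {b : Finset (Gx ι S A ⊕ A)} (hb : ∀ s, Sum.inl (Sum.inl s) ∈ b) (σ : b → ι ⊕ (Δ ⊕ Λ))
    (hspan : Submodule.span K (Set.range (gen β d D (cl D c ε γ ψ) (pl K ed) x)) ≤
      Submodule.span K (gen β d D (cl D c ε γ ψ) (pl K ed) x '' {g | Sum.inl g ∈ b}))
    (hdet : (mx β d D (cl D c ε γ ψ) (pl K ed) x (fun a => std e0 (d a)) b σ).det ≠ 0)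
    {κ : S → ℤ} (hnum : ∀ s, κ s ≤ (dsum d b s : ℤ) - wt β σ s) {N : ℕ} (hN : b.card ≤ N) :
    ∑ s, κ s * pht k (fun j => x (en s j)) ≤ ∑ᶠ P, e P + N * ∑ᶠ P, q P + U.card := by
  have hne : ∀ s, ∃ j, (fun j => x (en s j)) j ≠ 0 := by
    intro s
    obtain ⟨j, hj⟩ := hB.surj s (e0 s) (he0 s)
    exact ⟨j, by dsimp only; rw [hj]; exact hx0 s⟩
  obtain ⟨Θ, hΘ⟩ : ∃ Θ, Θ = (mx β d D (cl D c ε γ ψ) (pl K ed) x
      (fun a => std e0 (d a)) b σ).det /
        ∏ i ∈ b, Sum.elim (fun _ => (1 : K)) (fun a => mn x (std e0 (d a))) i := ⟨_, rfl⟩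
  obtain ⟨ν, hν⟩ : ∃ ν : Place k K → ℤ, ∀ P, ν P = if P ∈ U then 1 else 0 := ⟨_, fun _ => rfl⟩
  have hloc := fun P => local_est (d := d) (ν := ν P) hB P (h P) he0 hx0 hψ (by
    rw [hν]; split_ifs <;> omega) (fun b hb => by rw [hν, if_pos (hU P b hb)]) hb σ hspan hdet
  simp only [← hΘ] at hloc
  have hp := fun s => pord_finite (k := k) (hne s)
  obtain ⟨T, hT⟩ := exists_supp (k := k) (Finset.univ : Finset Unit) (fun _ => Θ)
  obtain ⟨W, hW⟩ : ∃ W : Finset (Place k K), W = T ∪ (Finset.univ.biUnion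
    (fun s => (hp s).toFinset) ∪ (hq.toFinset ∪ (he.toFinset ∪ U))) := ⟨_, rfl⟩
  have h1 : ∑ P ∈ W, P.ord Θ = 0 := sum_ord_finset _ _ fun P hP => by
    rw [hW]; exact Finset.mem_union_left _ (hT () (Finset.mem_univ _) P hP)
  have h2 : ∀ s, pht k (fun j => x (en s j)) = - ∑ P ∈ W, pord P (fun j => x (en s j)) := by
    intro s
    unfold pht
    rw [finsum_eq_sum_of_support_subset (s := W)]
    intro P hP
    rw [hW]
    refine Finset.mem_union_right _ (Finset.mem_union_left _ (Finset.mem_biUnion.2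
      ⟨s, Finset.mem_univ _, (hp s).mem_toFinset.2 hP⟩))
  have h3 : ∑ᶠ P, q P = ∑ P ∈ W, q P := by
    rw [finsum_eq_sum_of_support_subset (s := W)]
    intro P hP
    rw [hW]
    exact Finset.mem_union_right _ (Finset.mem_union_right _ (Finset.mem_union_left _
      (hq.mem_toFinset.2 hP)))
  have h3' : ∑ᶠ P, e P = ∑ P ∈ W, e P := by
    rw [finsum_eq_sum_of_support_subset (s := W)]
    intro P hP
    rw [hW]
    exact Finset.mem_union_right _ (Finset.mem_union_right _ (Finset.mem_union_right _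
      (Finset.mem_union_left _ (he.mem_toFinset.2 hP))))
  have h3'' : ∑ P ∈ W, ν P = U.card := by
    simp only [hν]
    rw [Finset.sum_ite_mem, Finset.sum_const, nsmul_eq_mul, mul_one]
    congr 2
    rw [Finset.inter_eq_right]
    intro P hP
    rw [hW]
    exact Finset.mem_union_right _ (Finset.mem_union_right _ (Finset.mem_union_right _
      (Finset.mem_union_right _ hP)))
  have h4 := Finset.sum_le_sum (s := W) fun P _ => hloc P
  rw [Finset.sum_sub_distrib, h1, Finset.sum_comm] at h4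
  have h5 : ∑ s, ∑ P ∈ W, ((wt β σ s : ℤ) - dsum d b s) * pord P (fun j => x (en s j)) =
      ∑ s, ((dsum d b s : ℤ) - wt β σ s) * pht k (fun j => x (en s j)) := by
    refine Finset.sum_congr rfl fun s _ => ?_
    rw [← Finset.mul_sum, h2]
    ring
  rw [h5, Finset.sum_add_distrib, Finset.sum_add_distrib, ← h3', h3'', ← Finset.mul_sum,
    ← h3] at h4
  have hq0 : 0 ≤ ∑ᶠ P, q P := finsum_nonneg fun P => (h P).q_nonneg
  have h6 : (b.card : ℤ) * ∑ᶠ P, q P ≤ N * ∑ᶠ P, q P :=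
    mul_le_mul_of_nonneg_right (by exact_mod_cast hN) hq0
  have hpos : ∀ s, 0 ≤ pht k (fun j => x (en s j)) := fun s => by
    obtain ⟨j, hj⟩ := hne s
    exact (hgt_nonneg _).trans (Pool.Agent.W603.CX.hgt_le_pht (k := k) _ hj hj)
  have h7 : ∑ s, κ s * pht k (fun j => x (en s j)) ≤
      ∑ s, ((dsum d b s : ℤ) - wt β σ s) * pht k (fun j => x (en s j)) :=
    Finset.sum_le_sum fun s _ => mul_le_mul_of_nonneg_right (hnum s) (hpos s)
  linarith

end est

end Pool.Agent.KS6_26.E
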