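import Pool.Agent.KS6_26.E.Pair

/-!
The height inequality in one projective space.
-/

set_option autoImplicit false

open MvPolynomial FF Pool.Agent.W603.LV Pool.Agent.W603.PV Pool.Agent.TH145.GH
open Pool.Agent.W602.GT (coords)
open Pool.Agent.KS6_26.D (mn mdeg Blk DI finrank_DI_le exists_Mn mdeg_unit coeff_unit blk_unit
  aeval_sum)

namespace Pool.Agent.KS6_26.E

theorem deg_unit {n : ℕ} {d : ℕ} (J : Fin (n + 1) →₀ ℕ) :
    (mdeg (fun _ : Fin (n + 1) => ()) J = fun _ => d) ↔ J.degree = d := by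
  constructor
  · intro h
    have h2 := congrFun h ()
    rwa [mdeg_unit] at h2
  · intro h
    funext s
    rw [mdeg_unit]
    exact h

/-- The points of one projective space. -/
theorem one_main {k0 k F0 F : Type} [Field k0] [Field k] [Field F0] [Field F] [Algebra k0 k]
    [Algebra k F] [Algebra k0 F] [IsScalarTower k0 k F] [Algebra k0 F0] [Algebra F0 F]
    [IsScalarTower k0 F0 F] [IsAlgClosed k] [CharZero k] [IsFF k F]
    (hfg : ∃ S : Finset F0, IntermediateField.adjoin k0 (S : Set F0) = ⊤) {n δ : ℕ}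
    {A : Type} [Fintype A] (d : A → ℕ) (H : A → MvPolynomial (Fin (n + 1)) F)
    (hH : ∀ a, (H a).IsHomogeneous (d a)) (I0 : A → Fin (n + 1) →₀ ℕ)
    (h0 : ∀ a, (H a).coeff (I0 a) ≠ 0)
    (htr : (Nat.card {p : A × (Fin (n + 1) →₀ ℕ) // p.2.degree = d p.1 ∧ p.2 ≠ I0 p.1} :
      Cardinal) ≤ Algebra.trdeg F0 (IntermediateField.adjoin F0 (Set.range
        fun p : {p : A × (Fin (n + 1) →₀ ℕ) // p.2.degree = d p.1 ∧ p.2 ≠ I0 p.1} =>
          (H p.1.1).coeff p.1.2 / (H p.1.1).coeff (I0 p.1.1))) + δ) :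
    ∃ C : ℕ, ∀ (L : Type) [Field L] [Algebra k L] [Algebra F L] [Algebra F0 L]
      [IsScalarTower k F L] [IsScalarTower F0 F L] [FiniteDimensional F L]
      (x : Fin (n + 1) → L) (r : ℕ), x ≠ 0 → Algebra.trdeg F0 (coords F0 x) ≤ r →
      (∑ a, (d a : ℤ) + {a | aeval x (H a) = 0}.ncard - 2 * r - 1 - δ) * pht k x ≤
        {P : Place k L | ∃ a, aeval x (H a) ≠ 0 ∧
          d a * pord P x < P.ord (aeval x (H a))}.ncard +
          canDeg k L + C * Module.finrank F L := by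
  obtain ⟨Mn, hMn⟩ := exists_Mn (fun _ : Fin (n + 1) => ()) (fun (a : A) (_ : Unit) => d a)
  have hfin := finite_Jx (R := Set.univ) hMn I0
  obtain ⟨B, hBi, hBc⟩ := free_of (R := Set.univ) (k := F0) (K := F)
    (β := fun _ : Fin (n + 1) => ())
    (d := fun a _ => d a) (I0 := I0) (fun p => p.2.degree = d p.1 ∧ p.2 ≠ I0 p.1) (fun p => by
      rw [deg_unit]
      exact ⟨fun h => ⟨h.1, fun _ => h.2⟩, fun h => ⟨h.1, h.2 (Set.mem_univ _)⟩⟩)
    (fun p => (H p.1).coeff p.2 / (H p.1).coeff (I0 p.1)) htr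
  obtain ⟨C, hC⟩ := pair_main (k0 := k0) (k := k) hfg
    (β := fun _ : Fin (n + 1) => ()) (d := fun a _ => d a) blk_unit hMn (I0 := I0)
    (t := fun a J => (H a).coeff J) h0 hBi hBc
  refine ⟨C, ?_⟩
  intro L _ _ _ _ _ _ _ x r hx hr
  have hLz : CharZero L := charZero_of_injective_algebraMap (algebraMap k L).injective
  obtain ⟨j0, hj0⟩ := Function.ne_iff.1 hx
  have hval : ∀ a, aeval x (H a) = ∑ J ∈ Mn a, algebraMap F L ((H a).coeff J) * mn x J :=
    fun a => aeval_sum (fun J hJ => (hMn a J).2 (coeff_unit hH a J hJ)) x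
  have hmem : ∀ j, x j / x j0 ∈ coords F0 x := fun j =>
    IntermediateField.subset_adjoin _ _ ⟨j, j0, hj0, rfl⟩
  have h1 := hC L x (fun _ => j0) (fun _ => rfl) (fun _ => hj0) r (fun _ => r)
    (finrank_DI_le _ _ hmem hr)
    (fun s => finrank_DI_le (fun l : {l : Fin (n + 1) // (fun _ => ()) l = s} => x l / x j0) _
      (fun l => hmem l) hr) (fun a => aeval x (H a)) hval
    (fun _ => ∑ a, (d a : ℤ) + {a | aeval x (H a) = 0}.ncard - 2 * r - 1 - δ)
    (fun _ => le_of_eq (by ring))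
  simpa using h1

end Pool.Agent.KS6_26.E
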