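import Pool.Agent.KS6_26.E.Data
import Pool.Agent.KS6_26.D.Multi

/-!
The height inequality for forms given up to multiples.
-/

set_option autoImplicit false

open MvPolynomial FF Pool.Agent.W603.LV Pool.Agent.W603.PV Pool.Agent.TH145.GH
open Pool.Agent.KS6_26.D (mn mn_scale mdeg Rel Blk kr DI)

namespace Pool.Agent.KS6_26.E

open scoped Classical in
/-- The weights of the values of the forms. -/
noncomputable def γs {A : Type} (T : Finset A) (b : T) (a : A) : ℤ := if b.1 = a then 1 else 0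

theorem sum_γs {K A : Type} [Field K] [Fintype A] {T : Finset A} (b : T) (e : A → K) :
    ∑ a, (γs T b a : K) * e a = e b := by
  rw [Finset.sum_eq_single b.1]
  · unfold γs
    rw [if_pos rfl, Int.cast_one, one_mul]
  · intro a _ ha
    unfold γs
    rw [if_neg (Ne.symm ha), Int.cast_zero, zero_mul]
  · intro h; exact absurd (Finset.mem_univ _) h

/-- The numerical condition, from the dimensions. -/
theorem numK_of_dim {k0 K : Type} [Field k0] [Field K] [Algebra k0 K] {ι S A : Type} [Finite ι]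
    [Fintype A] {R : Set A} {β : ι → S} {d : A → S → ℕ} {δ m : ℕ} {ms : S → ℕ} {κ : S → ℤ}
    {x : ι → K} {u : A → K} {T : Finset A} (hT : ∀ a, a ∈ T ∨ u a = 0)
    (h1 : Module.finrank K (DI k0 x) ≤ m)
    (h2 : ∀ s, Module.finrank K (DI k0 fun l : {l // β l = s} => x l) ≤ ms s)
    (hκ : ∀ s, κ s ≤ ∑ a, (d a s : ℤ) + (Fintype.card A - T.card) - m - ms s - 1 - δ) :
    NumK k0 R β d δ (γs T) κ x u (fun b : T => u b) := by
  classical
  have := Fintype.ofFinite ι
  refine ⟨m + T.card, 0, ms, ?_, h2, ?_, fun B hB s => ?_⟩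
  · obtain ⟨ρ, hρ⟩ : ∃ ρ : DI2 k0 R (γs T) (fun b : T => u b) x →ₗ[K] DI k0 x × (T → K), ∀ y,
        ((ρ y).1 : ι → K) = (fun l => y.1 (Sum.inl l)) ∧ (ρ y).2 = fun b => y.1 (Sum.inr b) :=
      ⟨{ toFun := fun y => (⟨fun l => y.1 (Sum.inl l), by
            obtain ⟨D, e, h1, -, h3, -⟩ := y.2
            exact ⟨D, h1, h3⟩⟩, fun b => y.1 (Sum.inr b))
         map_add' := fun _ _ => rfl
         map_smul' := fun _ _ => rfl }, fun _ => ⟨rfl, rfl⟩⟩
    have hinj : Function.Injective ρ := by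
      intro v w h
      apply Subtype.ext
      have h1 := congrArg (fun p => (p.1 : ι → K)) h
      simp only [(hρ v).1, (hρ w).1] at h1
      have h2 := congrArg (fun p => p.2) h
      simp only [(hρ v).2, (hρ w).2] at h2
      funext i
      rcases i with l | b
      · exact congrFun h1 l
      · exact congrFun h2 b
    have h3 := LinearMap.finrank_le_finrank_of_injective hinj
    rw [Module.finrank_prod, Module.finrank_pi, Fintype.card_coe] at h3
    omega
  · have h5 : Vt2 k0 R (γs T) (fun b : T => u b) x u = ⊥ := by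
      rw [eq_bot_iff]
      rintro y ⟨D, e, -, -, -, h4, hy⟩
      rw [Submodule.mem_bot]
      funext a
      rw [hy]
      rcases hT a with h | h
      · have h6 := h4 ⟨a, h⟩
        rw [sum_γs] at h6
        rw [h6, sub_self]
        rfl
      · rw [h, map_zero, mul_zero, sub_self]
        rfl
    rw [h5, finrank_bot]
  · have h5 : B = Finset.univ := by
      rw [← Finset.card_eq_iff_eq_univ]
      exact le_antisymm (Finset.card_le_univ B) (by omega)
    have h6 := hκ s
    rw [h5, Finset.sum_add_distrib, Finset.sum_const, Finset.card_univ, nsmul_eq_mul, mul_one]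
    push_cast
    linarith

/-- **The height inequality for forms given up to multiples.** -/
theorem pair_main {k0 k F0 F : Type} [Field k0] [Field k] [Field F0] [Field F] [Algebra k0 k]
    [Algebra k F] [Algebra k0 F] [IsScalarTower k0 k F] [Algebra k0 F0] [Algebra F0 F]
    [IsScalarTower k0 F0 F] [IsAlgClosed k] [CharZero k] [IsFF k F]
    (hfg : ∃ S : Finset F0, IntermediateField.adjoin k0 (S : Set F0) = ⊤)
    {ι S A : Type} [Fintype ι] [DecidableEq S] [Fintype S] [Fintype A] {β : ι → S}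
    {d : A → S → ℕ} {n : S → ℕ} {en : ∀ s, Fin (n s + 1) → ι} (hB : Blk β n en)
    {Mn : A → Finset (ι →₀ ℕ)} (hMn : ∀ a I, I ∈ Mn a ↔ mdeg β I = d a)
    {I0 : A → ι →₀ ℕ} {t : A → (ι →₀ ℕ) → F} (h0 : ∀ a, t a (I0 a) ≠ 0) {δ : ℕ}
    {B : Finset (Jx Set.univ β d I0)} (hBi : AlgebraicIndependent F0 fun b : B =>
      t b.1.1.1 b.1.1.2 / t b.1.1.1 (I0 b.1.1.1))
    (hBc : Nat.card (Jx Set.univ β d I0) ≤ B.card + δ) :
    ∃ C : ℕ, ∀ (L : Type) [Field L] [Algebra k L] [Algebra F L] [Algebra F0 L]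
      [IsScalarTower k F L] [IsScalarTower F0 F L] [FiniteDimensional F L]
      (x : ι → L) (e0 : S → ι), (∀ s, β (e0 s) = s) → (∀ s, x (e0 s) ≠ 0) →
      ∀ (m : ℕ) (ms : S → ℕ), Module.finrank L (DI F0 fun l => x l / x (e0 (β l))) ≤ m →
      (∀ s, Module.finrank L (DI F0 fun l : {l // β l = s} => x l / x (e0 (β l))) ≤ ms s) →
      ∀ (u : A → L), (∀ a, u a = ∑ J ∈ Mn a, algebraMap F L (t a J) * mn x J) →
      ∀ (κ : S → ℤ), (∀ s, κ s ≤ ∑ a, (d a s : ℤ) + {a | u a = 0}.ncard - m - ms s - 1 - δ) →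
        ∑ s, κ s * pht k (fun j => x (en s j)) ≤
          {P : Place k L | ∃ a, u a ≠ 0 ∧ ∑ s, (d a s : ℤ) * pord P (fun j => x (en s j)) <
            P.ord (u a)}.ncard + canDeg k L + C * Module.finrank F L := by
  classical
  have hF : CharZero F := charZero_of_injective_algebraMap (algebraMap k F).injective
  obtain ⟨S0, hS0⟩ := exists_supp (k := k) (insert (1 : F) ((Finset.univ : Finset A).biUnion
    fun a => insert (t a (I0 a)) ((Mn a).image fun J => t a J / t a (I0 a)))) fun z => z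
  obtain ⟨C, hC⟩ := height_main (k0 := k0) (k := k) hfg hB hMn (R := Set.univ) (I0 := I0)
    (t := fun a I => t a I / t a (I0 a)) (fun a _ => div_self (h0 a)) hBi hBc S0
    (Fintype.card A)
  obtain ⟨C2, hC2⟩ : ∃ C2 : ℕ, (C2 : ℤ) = ∑ v ∈ S0, hgt k (unif v) :=
    ⟨(∑ v ∈ S0, hgt k (unif v)).toNat, Int.toNat_of_nonneg
      (Finset.sum_nonneg fun _ _ => hgt_nonneg _)⟩
  refine ⟨C + C2, ?_⟩
  intro L _ _ _ _ _ _ _ x e0 he0 hx0 m ms hm hms u hu κ hκ
  have hL : IsFF k L := isFF_of_finite (F := F)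
  obtain ⟨lam, hlam⟩ : ∃ lam : S → L, ∀ s, lam s = (x (e0 s))⁻¹ := ⟨_, fun _ => rfl⟩
  have hlam0 : ∀ s, lam s ≠ 0 := fun s => by rw [hlam]; exact inv_ne_zero (hx0 s)
  obtain ⟨y, hy⟩ : ∃ y : ι → L, y = fun l => lam (β l) * x l := ⟨_, rfl⟩
  have hy' : ∀ l, y l = x l / x (e0 (β l)) := fun l => by
    rw [hy]
    simp only [hlam]
    rw [div_eq_inv_mul]
  have hy1 : ∀ s, y (e0 s) = 1 := fun s => by
    rw [hy', he0, div_self (hx0 s)]
  have hlp : ∀ w : S → ℕ, (∏ s, lam s ^ w s) ≠ 0 := fun w =>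
    Finset.prod_ne_zero_iff.2 fun s _ => pow_ne_zero _ (hlam0 s)
  obtain ⟨v, hv⟩ : ∃ v : A → L, ∀ a, v a = (algebraMap F L (t a (I0 a)))⁻¹ *
    ((∏ s, lam s ^ d a s) * u a) := ⟨_, fun _ => rfl⟩
  have ht0 : ∀ a, algebraMap F L (t a (I0 a)) ≠ 0 := fun a => by
    rw [Ne, map_eq_zero]; exact h0 a
  have hv0 : ∀ a, v a = 0 ↔ u a = 0 := fun a => by
    rw [hv, mul_eq_zero, mul_eq_zero]
    exact ⟨fun h => (h.resolve_left (inv_ne_zero (ht0 a))).resolve_left (hlp _),
      fun h => Or.inr (Or.inr h)⟩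
  have hvs : ∀ a, v a = ∑ J ∈ Mn a, algebraMap F L (t a J / t a (I0 a)) * mn y J := by
    intro a
    rw [hv, hu, Finset.mul_sum, Finset.mul_sum]
    refine Finset.sum_congr rfl fun J hJ => ?_
    rw [hy, mn_scale, (hMn a J).1 hJ, map_div₀, div_eq_inv_mul]
    ring
  have hne : ∀ s, ∃ j, (fun j => x (en s j)) j ≠ 0 := by
    intro s
    obtain ⟨j, hj⟩ := hB.surj s (e0 s) (he0 s)
    exact ⟨j, by dsimp only; rw [hj]; exact hx0 s⟩
  have hye : ∀ s, (fun j => y (en s j)) = fun j => lam s * x (en s j) := fun s => by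
    funext j
    rw [hy]
    simp only [hB.blk]
  have hpo : ∀ (P : Place k L) s, pord P (fun j => y (en s j)) =
      P.ord (lam s) + pord P (fun j => x (en s j)) := fun P s => by
    rw [hye]
    exact pord_scale P (hne s) (hlam0 s)
  have hph : ∀ s, pht k (fun j => y (en s j)) = pht k (fun j => x (en s j)) := fun s => by
    rw [hye]
    exact pht_scale (hne s) (hlam0 s)
  obtain ⟨T, hT⟩ : ∃ T : Finset A, T = Finset.univ.filter fun a => ¬ u a = 0 := ⟨_, rfl⟩
  have hTm : ∀ a, a ∈ T ↔ u a ≠ 0 := fun a => by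
    rw [hT, Finset.mem_filter]
    exact ⟨fun h => h.2, fun h => ⟨Finset.mem_univ _, h⟩⟩
  have hTc : ({a | u a = 0}.ncard : ℤ) = Fintype.card A - T.card := by
    have h1 : {a | u a = 0}.ncard = (Finset.univ.filter fun a => u a = 0).card := by
      rw [← Set.ncard_coe_finset]
      congr 1
      ext a
      simp
    have h2 := Finset.card_filter_add_card_filter_not (s := (Finset.univ : Finset A))
      (fun a => u a = 0)
    rw [Finset.card_univ] at h2
    rw [h1, hT]
    omega
  have hnum : NumK F0 Set.univ β d δ (γs T) κ y v (fun b : T => v b) := by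
    refine numK_of_dim (m := m) (ms := ms) (fun a => ?_) ?_ (fun s => ?_) (fun s => ?_)
    · by_cases h : u a = 0
      · exact Or.inr ((hv0 a).2 h)
      · exact Or.inl ((hTm a).2 h)
    · have h1 : y = fun l => x l / x (e0 (β l)) := funext hy'
      rw [h1]
      exact hm
    · have h1 : (fun l : {l // β l = s} => y l) = fun l : {l // β l = s} =>
        x l / x (e0 (β l)) := funext fun l => hy' l
      rw [h1]
      exact hms s
    · rw [← hTc]
      exact hκ s
  have key := hC L y e0 he0 hy1 v hvs T (by rw [Fintype.card_coe]; exact Finset.card_le_univ T)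
    (fun b => d b) (γs T) (fun b => v b) (fun b h => (hTm b).1 b.2 ((hv0 b).1 h))
    (fun P b hP => by
      rw [hvs]
      refine ge_val hB (fun J hJ => (hMn b J).1 hJ) (fun J hJ => Or.inr ?_)
      by_contra hcon
      refine hP (hS0 _ (Finset.mem_insert_of_mem (Finset.mem_biUnion.2 ⟨b.1,
        Finset.mem_univ _, Finset.mem_insert_of_mem (Finset.mem_image_of_mem _ hJ)⟩)) _
          fun h => hcon h.ge)) κ hnum
  simp only [hph] at key
  -- the counting function
  obtain ⟨W, hW⟩ : ∃ W : Set (Place k L), W = {P : Place k L | ∃ a, u a ≠ 0 ∧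
    ∑ s, (d a s : ℤ) * pord P (fun j => x (en s j)) < P.ord (u a)} := ⟨_, rfl⟩
  have hWfin : W.Finite := by
    have h1 : (⋃ a : A, {P : Place k L | P.ord (u a) ≠ 0}).Finite :=
      Set.finite_iUnion fun a => finite_support _
    have h2 : (⋃ s : S, {P : Place k L | pord P (fun j => x (en s j)) ≠ 0}).Finite :=
      Set.finite_iUnion fun s => pord_finite (hne s)
    refine (h1.union h2).subset fun P hP => ?_
    by_contra hcon
    simp only [Set.mem_union, Set.mem_iUnion, Set.mem_ofPred_eq, not_or, not_exists,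
      not_not] at hcon
    rw [hW] at hP
    obtain ⟨a, -, ha⟩ := hP
    rw [hcon.1 a, Finset.sum_eq_zero fun s _ => by rw [hcon.2 s, mul_zero]] at ha
    exact lt_irrefl _ ha
  have hBfin : {P : Place k L | under F P ∈ S0}.Finite :=
    finite_over_set (Finset.finite_toSet S0)
  have hsub : {P : Place k L | ∃ b : T, ∑ s, (d b s : ℤ) * pord P (fun j => y (en s j)) <
      P.ord (v b)} ⊆ W ∪ {P : Place k L | under F P ∈ S0} := by
    rintro P ⟨⟨a, haT⟩, ha⟩
    by_cases hP : under F P ∈ S0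
    · exact Or.inr hP
    · left
      have hua := (hTm a).1 haT
      rw [hW]
      refine ⟨a, hua, ?_⟩
      dsimp only at ha
      rw [hv, P.ord_mul (inv_ne_zero (ht0 a)) (mul_ne_zero (hlp _) hua), P.ord_mul (hlp _) hua,
        P.ord_inv, ord_under] at ha
      have h1 : (under F P).ord (t a (I0 a)) = 0 := by
        by_contra h4
        exact hP (hS0 _ (Finset.mem_insert_of_mem (Finset.mem_biUnion.2 ⟨a,
          Finset.mem_univ _, Finset.mem_insert_self _ _⟩)) _ h4)
      have h2 : P.ord (∏ s, lam s ^ d a s) = ∑ s, (d a s : ℤ) * P.ord (lam s) := by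
        rw [Pool.Agent.TH145.GC.ord_prod P _ _ fun s _ => pow_ne_zero _ (hlam0 s)]
        exact Finset.sum_congr rfl fun s _ => by rw [P.ord_pow]
      rw [h1, mul_zero, neg_zero, zero_add, h2] at ha
      simp only [hpo, mul_add, Finset.sum_add_distrib] at ha
      linarith
  have hcard : (({P : Place k L | ∃ b : T, ∑ s, (d b s : ℤ) * pord P (fun j => y (en s j)) <
      P.ord (v b)}.ncard : ℕ) : ℤ) ≤ W.ncard + Module.finrank F L * C2 := by
    have h1 := Set.ncard_le_ncard hsub (hWfin.union hBfin)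
    have h2 := Set.ncard_union_le W {P : Place k L | under F P ∈ S0}
    have h3 := card_over_le (L := L) S0
    rw [← hC2] at h3
    have h4 : (({P : Place k L | ∃ b : T, ∑ s, (d b s : ℤ) * pord P (fun j => y (en s j)) <
      P.ord (v b)}.ncard : ℕ) : ℤ) ≤ W.ncard + {P : Place k L | under F P ∈ S0}.ncard := by
      exact_mod_cast h1.trans h2
    linarith
  rw [← hW]
  push_cast
  linarith

end Pool.Agent.KS6_26.E
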