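import Pool.Agent.KS6_26.E.Pair

/-!
The height inequality in products of projective spaces.
-/

set_option autoImplicit false

open MvPolynomial FF Pool.Agent.W603.LV Pool.Agent.W603.PV Pool.Agent.TH145.GH
open Pool.Agent.W602.GT (coords)
open Pool.Agent.KS6_26.D (mn mdeg Blk DI finrank_DI_le exists_Mn mdeg_sigma MHom CoordsP blk_sigma
  aeval_sum)

namespace Pool.Agent.KS6_26.E

/-- The points of a product of projective spaces. -/
theorem prod_main {k0 k F0 F : Type} [Field k0] [Field k] [Field F0] [Field F] [Algebra k0 k]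
    [Algebra k F] [Algebra k0 F] [IsScalarTower k0 k F] [Algebra k0 F0] [Algebra F0 F]
    [IsScalarTower k0 F0 F] [IsAlgClosed k] [CharZero k] [IsFF k F]
    (hfg : ∃ S : Finset F0, IntermediateField.adjoin k0 (S : Set F0) = ⊤)
    {S : Type} [Fintype S] {n : S → ℕ}
    {A : Type} [Fintype A] (d : A → S → ℕ) (H : A → MvPolynomial (Σ s, Fin (n s + 1)) F)
    (hH : ∀ a, MHom (H a) (d a)) (I0 : A → (Σ s, Fin (n s + 1)) →₀ ℕ)
    (h0 : ∀ a, (H a).coeff (I0 a) ≠ 0)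
    (hgen : AlgebraicIndependent F0
      fun p : {p : A × ((Σ s, Fin (n s + 1)) →₀ ℕ) //
          (∀ s, ∑ i, p.2 ⟨s, i⟩ = d p.1 s) ∧ p.2 ≠ I0 p.1} =>
        (H p.1.1).coeff p.1.2 / (H p.1.1).coeff (I0 p.1.1)) :
    ∃ C : ℕ, ∀ (L : Type) [Field L] [Algebra k L] [Algebra F L] [Algebra F0 L]
      [IsScalarTower k F L] [IsScalarTower F0 F L] [FiniteDimensional F L]
      (x : ∀ s, Fin (n s + 1) → L) (r : ℕ) (rs : S → ℕ) (κ : S → ℤ), (∀ s, x s ≠ 0) →
      Algebra.trdeg F0 (CoordsP F0 x) ≤ r → (∀ s, Algebra.trdeg F0 (coords F0 (x s)) ≤ rs s) →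
      (∀ s, κ s + r + rs s + 1 ≤ ∑ a, (d a s : ℤ) +
        {a | aeval (fun i : Σ s, Fin (n s + 1) => x i.1 i.2) (H a) = 0}.ncard) →
      ∑ s, κ s * pht k (x s) ≤
        {P : Place k L | ∃ a, aeval (fun i : Σ s, Fin (n s + 1) => x i.1 i.2) (H a) ≠ 0 ∧
          ∑ s, (d a s : ℤ) * pord P (x s) <
            P.ord (aeval (fun i : Σ s, Fin (n s + 1) => x i.1 i.2) (H a))}.ncard +
          canDeg k L + C * Module.finrank F L := by
  classical
  obtain ⟨Mn, hMn⟩ := exists_Mn (Sigma.fst : (Σ s, Fin (n s + 1)) → S) d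
  have hfin := finite_Jx (R := Set.univ) hMn I0
  obtain ⟨B, hBi, hBc⟩ := all_of (R := Set.univ) (k := F0) (K := F)
    (β := (Sigma.fst : (Σ s, Fin (n s + 1)) → S)) (d := d) (I0 := I0)
    (fun p => (∀ s, ∑ i, p.2 ⟨s, i⟩ = d p.1 s) ∧ p.2 ≠ I0 p.1) (fun p => by
      have h1 : (∀ s, ∑ i, p.2 ⟨s, i⟩ = d p.1 s) ↔ mdeg Sigma.fst p.2 = d p.1 := by
        constructor
        · intro h
          funext s
          rw [mdeg_sigma]
          exact h s
        · intro h s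
          rw [← mdeg_sigma, h]
      rw [h1]
      exact ⟨fun h => ⟨h.1, fun _ => h.2⟩, fun h => ⟨h.1, h.2 (Set.mem_univ _)⟩⟩)
    (fun p => (H p.1).coeff p.2 / (H p.1).coeff (I0 p.1)) hgen
  obtain ⟨C, hC⟩ := pair_main (k0 := k0) (k := k) hfg
    (β := (Sigma.fst : (Σ s, Fin (n s + 1)) → S)) (d := d) blk_sigma hMn (I0 := I0)
    (t := fun a J => (H a).coeff J) h0 hBi hBc
  refine ⟨C, ?_⟩
  intro L _ _ _ _ _ _ _ x r rs κ hx hr hrs hκ
  have hLz : CharZero L := charZero_of_injective_algebraMap (algebraMap k L).injective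
  choose j0 hj0 using fun s => Function.ne_iff.1 (hx s)
  have hval : ∀ a, aeval (fun i : Σ s, Fin (n s + 1) => x i.1 i.2) (H a) =
      ∑ J ∈ Mn a, algebraMap F L ((H a).coeff J) *
        mn (fun i : Σ s, Fin (n s + 1) => x i.1 i.2) J :=
    fun a => aeval_sum (fun J hJ => (hMn a J).2 ((hH a).mdeg J hJ)) _
  have hm1 : ∀ j : Σ s, Fin (n s + 1), x j.1 j.2 / x j.1 (j0 j.1) ∈ CoordsP F0 x := fun j =>
    IntermediateField.subset_adjoin _ _ ⟨j.1, j.2, j0 j.1, hj0 j.1, rfl⟩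
  have hm2 : ∀ s (l : {l : Σ s, Fin (n s + 1) // l.1 = s}),
      x l.1.1 l.1.2 / x l.1.1 (j0 l.1.1) ∈ coords F0 (x s) := by
    rintro s ⟨⟨s', i⟩, rfl⟩
    exact IntermediateField.subset_adjoin _ _ ⟨i, j0 s', hj0 s', rfl⟩
  exact hC L (fun i : Σ s, Fin (n s + 1) => x i.1 i.2) (fun s => ⟨s, j0 s⟩) (fun _ => rfl)
    (fun s => hj0 s) r rs (finrank_DI_le _ _ hm1 hr)
    (fun s => finrank_DI_le (fun l : {l : Σ s, Fin (n s + 1) // l.1 = s} =>
      x l.1.1 l.1.2 / x l.1.1 (j0 l.1.1)) _ (hm2 s) (hrs s))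
    (fun a => aeval (fun i : Σ s, Fin (n s + 1) => x i.1 i.2) (H a)) hval κ
    (fun s => by
      have := hκ s
      simp only [Nat.cast_zero, sub_zero]
      linarith)

end Pool.Agent.KS6_26.E
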