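import Pool.Agent.KS6_26.E.Rows

/-!
The dimensions of the spaces of derivatives, and the choice of a determinant.
-/

set_option autoImplicit false

open Pool.Agent.KS6_26.D (mn mn_single mn_add mn_std mdeg mdeg_single mdeg_std std Ev Rel
  DI TD mem_TD finrank_TD_le)
open Pool.Agent.TH145.GC (exists_minor)

namespace Pool.Agent.KS6_26.E

section log

variable {k0 K : Type} [Field k0] [Field K] [Algebra k0 K] {ι S A Δ Λ : Type} [DecidableEq S]
  [Fintype S] [Fintype A]

/-- Derivatives of `x` and of the functions `ψ b`, up to multiples of `ψ b`. -/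
def DI2 (k0 : Type) {K : Type} [Field k0] [Field K] [Algebra k0 K] {ι A Λ : Type} [Fintype A]
    (R : Set A) (γ : Λ → A → ℤ) (ψ : Λ → K) (x : ι → K) : Submodule K (ι ⊕ Λ → K) where
  carrier := {y | ∃ (D : Derivation ℤ K K) (e : A → K), (∀ r : k0, D (algebraMap k0 K r) = 0) ∧
    (∀ b, b ∉ R → e b = 0) ∧ (∀ l, y (Sum.inl l) = D (x l)) ∧
    ∀ b, y (Sum.inr b) = D (ψ b) - (∑ a, (γ b a : K) * e a) * ψ b}
  add_mem' := by
    rintro y z ⟨D, e, h1, h2, h3, h4⟩ ⟨D', e', h1', h2', h3', h4'⟩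
    refine ⟨D + D', e + e', fun r => by rw [Derivation.add_apply, h1, h1', add_zero],
      fun b hb => by rw [Pi.add_apply, h2 b hb, h2' b hb, add_zero],
      fun l => by rw [Derivation.add_apply, Pi.add_apply, h3, h3'],
      fun b => by
        rw [Derivation.add_apply, Pi.add_apply, h4, h4']
        simp only [Pi.add_apply, mul_add, Finset.sum_add_distrib]
        ring⟩
  zero_mem' := ⟨0, 0, fun _ => rfl, fun _ _ => rfl, fun l => by simp, fun b => by simp⟩
  smul_mem' := by
    rintro s y ⟨D, e, h1, h2, h3, h4⟩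
    refine ⟨s • D, s • e, fun r => by rw [Derivation.smul_apply, h1, smul_zero],
      fun b hb => by rw [Pi.smul_apply, h2 b hb, smul_zero],
      fun l => by rw [Derivation.smul_apply, Pi.smul_apply, h3],
      fun b => by
        rw [Derivation.smul_apply, Pi.smul_apply, h4, smul_eq_mul, smul_eq_mul]
        simp only [Pi.smul_apply, smul_eq_mul, mul_left_comm _ s, ← Finset.mul_sum]
        ring⟩

/-- Sums of a derivative, with logarithmic derivatives of the functions `u (lm b)`, and of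
combinations of the position vectors. -/
def LD (k0 : Type) {K : Type} [Field k0] [Field K] [Algebra k0 K] {ι S A Λ : Type} [Fintype S]
    [Fintype A] (R : Set A) (β : ι → S) (ed : Λ → S → ℕ) (γ : Λ → A → ℤ) (ψ : Λ → K)
    (x : ι → K) : Submodule K (ι ⊕ Λ → K) where
  carrier := {y | ∃ (D : Derivation ℤ K K) (e : A → K) (r : S → K),
    (∀ r : k0, D (algebraMap k0 K r) = 0) ∧ (∀ b, b ∉ R → e b = 0) ∧
    (∀ l, y (Sum.inl l) = D (x l) + r (β l) * x l) ∧
    ∀ b, y (Sum.inr b) = D (ψ b) / ψ b - ∑ a, (γ b a : K) * e a + ∑ s, r s * (ed b s : K)}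
  add_mem' := by
    rintro y z ⟨D, e, r, h1, h4, h2, h3⟩ ⟨D', e', r', h1', h4', h2', h3'⟩
    refine ⟨D + D', e + e', r + r', fun r => by rw [Derivation.add_apply, h1, h1', add_zero],
      fun b hb => by rw [Pi.add_apply, h4 b hb, h4' b hb, add_zero],
      fun l => ?_, fun b => ?_⟩
    · rw [Derivation.add_apply, Pi.add_apply, h2, h2', Pi.add_apply]
      ring
    · rw [Derivation.add_apply, Pi.add_apply, h3, h3']
      simp only [Pi.add_apply, add_mul, mul_add, Finset.sum_add_distrib]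
      ring
  zero_mem' := ⟨0, 0, 0, fun _ => rfl, fun _ _ => rfl, fun l => by simp, fun b => by simp⟩
  smul_mem' := by
    rintro s y ⟨D, e, r, h1, h4, h2, h3⟩
    refine ⟨s • D, s • e, s • r, fun r => by rw [Derivation.smul_apply, h1, smul_zero],
      fun b hb => by rw [Pi.smul_apply, h4 b hb, smul_zero],
      fun l => ?_, fun b => ?_⟩
    · rw [Derivation.smul_apply, Pi.smul_apply, h2, Pi.smul_apply, smul_eq_mul, smul_eq_mul,
        smul_eq_mul]
      ring
    · rw [Derivation.smul_apply, Pi.smul_apply, h3, smul_eq_mul, smul_eq_mul]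
      simp only [Pi.smul_apply, smul_eq_mul, mul_add, mul_sub, Finset.mul_sum, mul_assoc,
        mul_div_assoc, mul_left_comm s]

theorem finrank_LD_le [Finite ι] [Finite Λ] {R : Set A} (β : ι → S) (ed : Λ → S → ℕ)
    (γ : Λ → A → ℤ) (x : ι → K) {ψ : Λ → K} (hψ : ∀ b, ψ b ≠ 0) :
    Module.finrank K (LD k0 R β ed γ ψ x) ≤
      Module.finrank K (DI2 k0 R γ ψ x) + Fintype.card S := by
  have := Fintype.ofFinite ι
  have := Fintype.ofFinite Λ
  obtain ⟨φ, hφ⟩ : ∃ φ : (ι ⊕ Λ → K) →ₗ[K] (ι ⊕ Λ → K), ∀ y,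
      (∀ l, φ y (Sum.inl l) = y (Sum.inl l)) ∧
      ∀ b, φ y (Sum.inr b) = (ψ b)⁻¹ * y (Sum.inr b) :=
    ⟨{ toFun := fun y => Sum.elim (fun l => y (Sum.inl l)) fun b => (ψ b)⁻¹ * y (Sum.inr b)
       map_add' := fun y z => by
        funext i
        rcases i with l | b
        · rfl
        · exact mul_add _ _ _
       map_smul' := fun s y => by
        funext i
        rcases i with l | b
        · rfl
        · exact mul_left_comm _ _ _ }, fun y => ⟨fun _ => rfl, fun _ => rfl⟩⟩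
  obtain ⟨χ, hχ⟩ : ∃ χ : (S → K) →ₗ[K] (ι ⊕ Λ → K), ∀ r,
      (∀ l, χ r (Sum.inl l) = r (β l) * x l) ∧
      ∀ b, χ r (Sum.inr b) = ∑ s, r s * (ed b s : K) :=
    ⟨{ toFun := fun r => Sum.elim (fun l => r (β l) * x l) fun b => ∑ s, r s * (ed b s : K)
       map_add' := fun y z => by
        funext i
        rcases i with l | b
        · exact add_mul _ _ _
        · simp only [Pi.add_apply, Sum.elim_inr, add_mul, Finset.sum_add_distrib]
       map_smul' := fun s y => by
        funext i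
        rcases i with l | b
        · exact mul_assoc _ _ _
        · simp only [Pi.smul_apply, Sum.elim_inr, smul_eq_mul, RingHom.id_apply, Finset.mul_sum,
            mul_assoc] }, fun y => ⟨fun _ => rfl, fun _ => rfl⟩⟩
  have h1 : LD k0 R β ed γ ψ x ≤ (DI2 k0 R γ ψ x).map φ ⊔ LinearMap.range χ := by
    rintro y ⟨D, e, r, h1, h4, h2, h3⟩
    refine Submodule.mem_sup.2 ⟨_, ⟨Sum.elim (fun l => D (x l))
      fun b => D (ψ b) - (∑ a, (γ b a : K) * e a) * ψ b,
      ⟨D, e, h1, h4, fun _ => rfl, fun _ => rfl⟩, rfl⟩, _, ⟨r, rfl⟩, ?_⟩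
    funext i
    rcases i with l | b
    · rw [Pi.add_apply, (hφ _).1, (hχ _).1, h2]
      rfl
    · rw [Pi.add_apply, (hφ _).2, (hχ _).2, h3]
      have h5 := hψ b
      simp only [Sum.elim_inr]
      rw [mul_sub, mul_comm (∑ a, (γ b a : K) * e a) (ψ b), ← mul_assoc, inv_mul_cancel₀ h5,
        one_mul, div_eq_inv_mul]
  refine (Submodule.finrank_mono h1).trans ?_
  refine (Submodule.finrank_add_le_finrank_add_finrank _ _).trans ?_
  refine Nat.add_le_add (Submodule.finrank_map_le _ _) ?_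
  refine (LinearMap.finrank_range_le _).trans ?_
  rw [Module.finrank_pi]

variable {β : ι → S} {d : A → S → ℕ} {D : A → (ι →₀ ℕ) → Derivation ℤ K K}
  {c : A → (ι →₀ ℕ) → Δ → K} {ε : A → (ι →₀ ℕ) → K} {R : Set A} {x : ι → K}
  {ψ : Λ → K} {ed : Λ → S → ℕ} {γ : Λ → A → ℤ}

theorem full_le (hD : ∀ a I (r : k0), D a I (algebraMap k0 K r) = 0)
    (hε : ∀ a I, a ∉ R → ε a I = 0) {w : ι ⊕ (Δ ⊕ Λ) → K}
    (hw : w ∈ Full β d D (cl D c ε γ ψ) (pl K ed) x) :
    (Sum.elim (fun l => w (Sum.inl l)) fun b => w (Sum.inr (Sum.inr b)) : ι ⊕ Λ → K) ∈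
      LD k0 R β ed γ ψ x := by
  obtain ⟨π, hπ⟩ : ∃ π : (ι ⊕ (Δ ⊕ Λ) → K) →ₗ[K] (ι ⊕ Λ → K), ∀ w, π w =
      Sum.elim (fun l => w (Sum.inl l)) fun b => w (Sum.inr (Sum.inr b)) :=
    ⟨{ toFun := fun w => Sum.elim (fun l => w (Sum.inl l)) fun b => w (Sum.inr (Sum.inr b))
       map_add' := fun y z => by
        funext i
        rcases i with l | b
        · rfl
        · rfl
       map_smul' := fun s y => by
        funext i
        rcases i with l | b
        · rfl
        · rfl }, fun _ => rfl⟩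
  have h1 : Full β d D (cl D c ε γ ψ) (pl K ed) x ≤ (LD k0 R β ed γ ψ x).comap π := by
    have hEv : ∀ a I, Ev D (cl D c ε γ ψ) x a I ∈ (LD k0 R β ed γ ψ x).comap π := by
      classical
      intro a I
      refine ⟨D a I, Pi.single a (ε a I), 0, hD a I, fun b hb => ?_, fun l => by simp [hπ, Ev],
        fun b => ?_⟩
      · by_cases hab : b = a
        · subst hab
          rw [Pi.single_eq_same]
          exact hε _ _ hb
        · rw [Pi.single_eq_of_ne hab]
      · rw [hπ]
        simp only [Ev, cl, Sum.elim_inr, Pi.zero_apply, zero_mul, Finset.sum_const_zero, add_zero]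
        rw [Finset.sum_eq_single a]
        · rw [Pi.single_eq_same]
        · intro a' _ ha'
          rw [Pi.single_eq_of_ne ha', mul_zero]
        · intro h; exact absurd (Finset.mem_univ _) h
    rw [Full, Submodule.span_le]
    rintro _ (⟨g, rfl⟩ | ⟨a, I, -, rfl⟩)
    · rcases g with s | t
      · refine ⟨0, 0, Pi.single s 1, fun _ => rfl, fun _ _ => rfl, fun l => ?_, fun b => ?_⟩
        · rw [hπ]
          by_cases hs : β l = s
          · subst hs
            simp [gen]
          · simp [gen, hs]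
        · rw [hπ]
          simp only [gen, pl, Sum.elim_inr]
          rw [Finset.sum_eq_single s]
          · simp
          · intro s' _ hs
            rw [Pi.single_eq_of_ne hs, zero_mul]
          · intro h; exact absurd (Finset.mem_univ _) h
      · simp only [gen]
        split_ifs
        · exact sub_mem (Submodule.smul_mem _ _ (hEv _ _)) (Submodule.smul_mem _ _ (hEv _ _))
        · exact zero_mem _
    · exact hEv a I
  have h2 := h1 hw
  rw [Submodule.mem_comap, hπ] at h2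
  exact h2

/-- The dimension of the space of all vectors. -/
theorem finrank_full_le [Finite ι] [Fintype Δ] [Finite Λ]
    (hD : ∀ a I (r : k0), D a I (algebraMap k0 K r) = 0) (hε : ∀ a I, a ∉ R → ε a I = 0)
    (hψ : ∀ b, ψ b ≠ 0) :
    Module.finrank K (Full β d D (cl D c ε γ ψ) (pl K ed) x) ≤
      Module.finrank K (DI2 k0 R γ ψ x) + Fintype.card S + Fintype.card Δ := by
  have := Fintype.ofFinite ι
  have := Fintype.ofFinite Λ
  obtain ⟨ρ, hρ⟩ : ∃ ρ : Full β d D (cl D c ε γ ψ) (pl K ed) x →ₗ[K]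
      LD k0 R β ed γ ψ x × (Δ → K), ∀ w,
      ((ρ w).1 : ι ⊕ Λ → K) = (Sum.elim (fun l => w.1 (Sum.inl l))
        fun b => w.1 (Sum.inr (Sum.inr b))) ∧ (ρ w).2 = fun δ => w.1 (Sum.inr (Sum.inl δ)) :=
    ⟨{ toFun := fun w => (⟨Sum.elim (fun l => w.1 (Sum.inl l))
          fun b => w.1 (Sum.inr (Sum.inr b)), full_le hD hε w.2⟩,
         fun δ => w.1 (Sum.inr (Sum.inl δ)))
       map_add' := fun y z => by
        refine Prod.ext (Subtype.ext (funext fun i => ?_)) rfl
        rcases i with l | b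
        · rfl
        · rfl
       map_smul' := fun s y => by
        refine Prod.ext (Subtype.ext (funext fun i => ?_)) rfl
        rcases i with l | b
        · rfl
        · rfl }, fun _ => ⟨rfl, rfl⟩⟩
  have hinj : Function.Injective ρ := by
    intro v w h
    apply Subtype.ext
    have h1 := congrArg (fun p => (p.1 : ι ⊕ Λ → K)) h
    simp only [(hρ v).1, (hρ w).1] at h1
    have h2 := congrArg (fun p => p.2) h
    simp only [(hρ v).2, (hρ w).2] at h2
    funext i
    rcases i with l | δ | b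
    · exact congrFun h1 (Sum.inl l)
    · exact congrFun h2 δ
    · exact congrFun h1 (Sum.inr b)
  have h1 := LinearMap.finrank_le_finrank_of_injective hinj
  rw [Module.finrank_prod, Module.finrank_pi] at h1
  have h2 := finrank_LD_le (k0 := k0) (R := R) β ed γ x hψ
  omega

open scoped Classical in
/-- The number of the columns in a block. -/
theorem card_cols_le [Finite ι] {b : Finset (Gx ι S A ⊕ A)} {σ : b → ι ⊕ (Δ ⊕ Λ)}
    (hD : ∀ a I (r : k0), D a I (algebraMap k0 K r) = 0) (hε : ∀ a I, a ∉ R → ε a I = 0)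
    {I : A → ι →₀ ℕ} (hI : ∀ a, mdeg β (I a) = d a)
    (hdet : (mx β d D (cl D c ε γ ψ) (pl K ed) x I b σ).det ≠ 0) (s : S) :
    (Finset.univ.filter fun j : b => ∃ l, σ j = Sum.inl l ∧ β l = s).card ≤
      Module.finrank K (DI k0 fun l : {l // β l = s} => x l) + 1 := by
  obtain ⟨J, hJ⟩ : ∃ J : Finset b, J = Finset.univ.filter
    fun j : b => ∃ l, σ j = Sum.inl l ∧ β l = s := ⟨_, rfl⟩
  rw [← hJ]
  have hJm : ∀ j ∈ J, ∃ l, σ j = Sum.inl l ∧ β l = s := fun j hj => by
    rw [hJ] at hj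
    exact (Finset.mem_filter.1 hj).2
  clear hJ
  have := Fintype.ofFinite ι
  obtain ⟨M, hM⟩ : ∃ M, M = mx β d D (cl D c ε γ ψ) (pl K ed) x I b σ := ⟨_, rfl⟩
  rw [← hM] at hdet
  have hMu : IsUnit M.det := isUnit_iff_ne_zero.2 hdet
  have hJl : ∀ j : J, ∃ l : {l // β l = s}, σ j.1 = Sum.inl l.1 := by
    rintro ⟨j, h1⟩
    obtain ⟨l, h2, h3⟩ := hJm j h1
    exact ⟨⟨l, h3⟩, h2⟩
  choose l hl using hJl
  obtain ⟨ρ, hρ⟩ : ∃ ρ : TD k0 (fun _ : {l // β l = s} => ()) (fun l : {l // β l = s} => x l)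
      →ₗ[K] (J → K), ∀ y j, ρ y j = y.1 (l j) :=
    ⟨{ toFun := fun y j => y.1 (l j)
       map_add' := fun _ _ => rfl
       map_smul' := fun _ _ => rfl }, fun _ _ => rfl⟩
  have hsurj : Function.Surjective ρ := by
    intro y
    obtain ⟨y', hy'⟩ : ∃ y' : b → K, ∀ j, y' j = if h : j ∈ J then y ⟨j, h⟩ else 0 :=
      ⟨_, fun _ => rfl⟩
    obtain ⟨w, hw⟩ : ∃ w : ι ⊕ (Δ ⊕ Λ) → K, w = ∑ i, (Matrix.vecMul y' M⁻¹) i •
      vv β d D (cl D c ε γ ψ) (pl K ed) x I i.1 := ⟨_, rfl⟩
    have hwF : w ∈ Full β d D (cl D c ε γ ψ) (pl K ed) x := by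
      rw [hw]
      refine sum_mem fun i _ => Submodule.smul_mem _ _ ?_
      rcases h : i.1 with g | a
      · exact gen_mem_full g
      · exact Ev_mem_full (hI a)
    have hwy : ∀ j, w (σ j) = y' j := by
      intro j
      have h1 : Matrix.vecMul (Matrix.vecMul y' M⁻¹) M = y' := by
        rw [Matrix.vecMul_vecMul, Matrix.nonsing_inv_mul _ hMu, Matrix.vecMul_one]
      have h2 := congrFun h1 j
      rw [← h2, hw, Finset.sum_apply]
      conv_rhs => rw [Matrix.vecMul, dotProduct]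
      refine Finset.sum_congr rfl fun i _ => ?_
      rw [hM]
      rfl
    obtain ⟨D', -, r, h1, -, h2, -⟩ := full_le (k0 := k0) hD hε hwF
    refine ⟨⟨fun l => w (Sum.inl l.1), mem_TD D' (fun _ => r s) h1 fun l => ?_⟩, ?_⟩
    · have h3 := h2 l.1
      rw [Sum.elim_inl, l.2] at h3
      exact h3
    · funext j
      rw [hρ]
      change w (Sum.inl (l j).1) = y j
      rw [← hl, hwy, hy', dif_pos j.2]
  have h1 := LinearMap.finrank_le_finrank_of_surjective hsurj
  rw [Module.finrank_pi, Fintype.card_coe] at h1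
  refine h1.trans ((finrank_TD_le (k0 := k0) _ _).trans ?_)
  rw [Fintype.card_unit]

end log

section num

/-- The numerical condition at a point. -/
def NumK (k0 : Type) {K : Type} [Field k0] [Field K] [Algebra k0 K] {ι S A Λ : Type} [Fintype A]
    (R : Set A) (β : ι → S) (d : A → S → ℕ) (δ : ℕ) (γ : Λ → A → ℤ) (κ : S → ℤ) (x : ι → K)
    (u : A → K) (ψ : Λ → K) : Prop :=
  ∃ (r f : ℕ) (m : S → ℕ), Module.finrank K (DI2 k0 R γ ψ x) ≤ r ∧
    (∀ s, Module.finrank K (DI k0 fun l : {l // β l = s} => x l) ≤ m s) ∧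
    Module.finrank K (Vt2 k0 R γ ψ x u) ≤ f ∧
    ∀ B : Finset A, Fintype.card A ≤ B.card + f →
      ∀ s, (r : ℤ) + m s + 1 + δ + κ s ≤ ∑ a ∈ B, ((d a s : ℤ) + 1)

/-- The sum of the degrees of the forms whose derivatives are among the rows. -/
def dsum {ι S A : Type} (d : A → S → ℕ) (b : Finset (Gx ι S A ⊕ A)) (s : S) : ℕ :=
  ∑ i ∈ b, Sum.elim (fun _ => 0) (fun a => d a s) i

variable {k0 K : Type} [Field k0] [Field K] [Algebra k0 K] {ι S A Δ Λ : Type} [DecidableEq S]
  [Fintype S] {β : ι → S} {d : A → S → ℕ}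
  {D : A → (ι →₀ ℕ) → Derivation ℤ K K} {c : A → (ι →₀ ℕ) → Δ → K}
  {x : ι → K} [Fintype A] [Fintype Δ] [Fintype Λ] [Fintype ι]
  {t ε : A → (ι →₀ ℕ) → K} {q : Δ → A × (ι →₀ ℕ)} {R : Set A} {ψ : Λ → K} {ed : Λ → S → ℕ}
  {γ : Λ → A → ℤ}

omit [DecidableEq S] [Fintype Δ] [Fintype Λ] [Fintype ι] in
open scoped Classical in
theorem count_rows (β : ι → S) {b : Finset (Gx ι S A ⊕ A)}
    (hb : ∀ s, Sum.inl (Sum.inl s) ∈ b) (s : S) :
    (b.filter fun i => ∃ t, i = Sum.inl (Sum.inr t) ∧ β t.2.2.1 = s).card +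
      Fintype.card S + (Finset.univ.filter fun a : A => Sum.inr a ∈ b).card ≤
      b.card := by
  have h1 : Fintype.card S ≤ (b.filter fun i => ∃ s, i = Sum.inl (Sum.inl s)).card := by
    rw [← Finset.card_univ, ← Finset.card_image_of_injective (f := fun s : S =>
      (Sum.inl (Sum.inl s) : Gx ι S A ⊕ A)) Finset.univ (fun a b h => by simpa using h)]
    refine Finset.card_le_card fun i hi => ?_
    obtain ⟨s, -, rfl⟩ := Finset.mem_image.1 hi
    exact Finset.mem_filter.2 ⟨hb s, s, rfl⟩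
  have h4 : (Finset.univ.filter fun a : A => Sum.inr a ∈ b).card ≤
      (b.filter fun i => ∃ a, i = Sum.inr a).card := by
    rw [← Finset.card_image_of_injective (f := fun a : A =>
      (Sum.inr a : Gx ι S A ⊕ A)) _ (fun a b h => by simpa using h)]
    refine Finset.card_le_card fun i hi => ?_
    obtain ⟨a, ha, rfl⟩ := Finset.mem_image.1 hi
    exact Finset.mem_filter.2 ⟨(Finset.mem_filter.1 ha).2, a, rfl⟩
  have h5 : (b.filter fun i => ∃ t, i = Sum.inl (Sum.inr t) ∧ β t.2.2.1 = s).card +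
      (b.filter fun i => ∃ s, i = Sum.inl (Sum.inl s)).card +
      (b.filter fun i => ∃ a, i = Sum.inr a).card ≤ b.card := by
    simp only [Finset.card_filter]
    rw [Finset.card_eq_sum_ones b, ← Finset.sum_add_distrib, ← Finset.sum_add_distrib]
    refine Finset.sum_le_sum fun i _ => ?_
    rcases i with (s | t) | a
    · simp
    · simp only [Sum.inl.injEq, Sum.inr.injEq, reduceCtorEq, exists_false, if_false, add_zero]
      split_ifs <;> simp
    · simp
  omega

open scoped Classical in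
/-- The position vectors are independent. -/
theorem indep_pos {c : A → (ι →₀ ℕ) → Δ → K} {p : S → Δ → K} {l0 : S → ι}
    (hl0 : ∀ s, β (l0 s) = s) (hx0 : ∀ s, x (l0 s) ≠ 0) :
    LinearIndepOn K (gen β d D c p x) (Set.range Sum.inl) := by
  have h1 : Set.range Sum.inl = (Sum.inl '' Set.univ : Set (Gx ι S A)) := by
    rw [Set.image_univ]
  rw [h1]
  refine LinearIndepOn.image_of_comp _ _ ?_
  rw [linearIndepOn_univ_iff, Fintype.linearIndependent_iff]
  intro r hr s
  have h2 := congrFun hr (Sum.inl (l0 s))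
  rw [Finset.sum_apply, Finset.sum_eq_single s] at h2
  · have h3 : r s * x (l0 s) = 0 := by simpa [gen, hl0] using h2
    exact (mul_eq_zero.1 h3).resolve_right (hx0 s)
  · intro s' _ hs
    simp [gen, hl0, hs.symm]
  · intro h; exact absurd (Finset.mem_univ s) h

open scoped Classical in
/-- The choice of the rows and the columns. -/
theorem exists_good (h : Rel k0 β d D c (fun ξ : Empty => ξ.elim) t ε q)
    {Mn : A → Finset (ι →₀ ℕ)}
    (hMn : ∀ a I, I ∈ Mn a ↔ mdeg β I = d a) {u : A → K}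
    (hu : ∀ a, u a = ∑ J ∈ Mn a, t a J * mn x J) (hψ : ∀ b, ψ b ≠ 0)
    (hε : ∀ a I, a ∉ R → ε a I = 0) {l0 : S → ι}
    (hl0 : ∀ s, β (l0 s) = s) (hx0 : ∀ s, x (l0 s) = 1) {κ : S → ℤ}
    (hnum : NumK k0 R β d (Fintype.card Δ) γ κ x u ψ) :
    ∃ (b : Finset (Gx ι S A ⊕ A)) (σ : b → ι ⊕ (Δ ⊕ Λ)), (∀ s, Sum.inl (Sum.inl s) ∈ b) ∧
      (Submodule.span K (Set.range (gen β d D (cl D c ε γ ψ) (pl K ed) x)) ≤
        Submodule.span K (gen β d D (cl D c ε γ ψ) (pl K ed) x '' {g | Sum.inl g ∈ b})) ∧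
      (mx β d D (cl D c ε γ ψ) (pl K ed) x (fun a => std l0 (d a)) b σ).det ≠ 0 ∧
      (∀ s, κ s ≤ (dsum d b s : ℤ) - wt β σ s) ∧
      b.card ≤ Fintype.card ι + (Fintype.card Δ + Fintype.card Λ) := by
  have hx : ∀ s, x (l0 s) ≠ 0 := fun s => by rw [hx0]; exact one_ne_zero
  obtain ⟨b, hb, hbi, hspan, hfull⟩ := exists_rows (D := D) (c := cl D c ε γ ψ) (p := pl K ed)
    hl0 hx (indep_pos hl0 hx)
  obtain ⟨σ, hσ⟩ := exists_minor _ hbi
  have hdet : (mx β d D (cl D c ε γ ψ) (pl K ed) x (fun a => std l0 (d a)) b σ).det ≠ 0 := by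
    unfold mx
    convert hσ
  obtain ⟨r, f, m, hr, hm, hf, hB⟩ := hnum
  have hcard : Module.finrank K (Full β d D (cl D c ε γ ψ) (pl K ed) x) = b.card := by
    rw [← hfull, finrank_span_eq_card hbi, Fintype.card_coe]
  have h1 := card_le h hMn hu hψ hε hl0 hx0 hl0 hx hfull hf
  have h2 := finrank_full_le (β := β) (d := d) (D := D) (c := c) (x := x) (ed := ed)
    (γ := γ) h.Dk hε hψ
  have hb' : ∀ s, Sum.inl (Sum.inl s) ∈ b := fun s => hb _ ⟨s, rfl⟩
  refine ⟨b, σ, hb', hspan, hdet, fun s => ?_, ?_⟩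
  · have h3 := hB _ h1 s
    have h4 := card_cols_le (k0 := k0) h.Dk hε (fun a => mdeg_std hl0 (d a)) hdet s
    have h5 := count_rows β hb' s
    have h6 := hm s
    have h7 : dsum d b s = ∑ a ∈ Finset.univ.filter (fun a : A => Sum.inr a ∈ b), d a s := by
      unfold dsum
      have h8 : ∑ i ∈ b, Sum.elim (fun _ => 0) (fun a => d a s) i =
          ∑ i ∈ (Finset.univ.filter fun a : A => Sum.inr a ∈ b).image
            (Sum.inr : A → Gx ι S A ⊕ A), Sum.elim (fun _ => 0) (fun a => d a s) i := by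
        symm
        refine Finset.sum_subset (fun i hi => ?_) (fun i hi hni => ?_)
        · obtain ⟨a, ha, rfl⟩ := Finset.mem_image.1 hi
          exact (Finset.mem_filter.1 ha).2
        · rcases i with g | a
          · rfl
          · exact absurd (Finset.mem_image.2 ⟨a, Finset.mem_filter.2 ⟨Finset.mem_univ _, hi⟩, rfl⟩)
              hni
      rw [h8, Finset.sum_image (fun a _ b _ h => Sum.inr_injective h)]
      rfl
    rw [Finset.sum_add_distrib, Finset.sum_const, nsmul_eq_mul, mul_one, ← Nat.cast_sum,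
      ← h7] at h3
    unfold wt
    push_cast
    omega
  · rw [← hcard]
    refine (Submodule.finrank_le _).trans ?_
    rw [Module.finrank_pi, Fintype.card_sum, Fintype.card_sum]

end num

end Pool.Agent.KS6_26.E
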