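import Pool.Agent.KS6_26.E.Vec

/-!
The choice of the rows.
-/

set_option autoImplicit false

open Pool.Agent.KS6_26.D (mn mn_single mn_add mn_std mdeg mdeg_single mdeg_std std Ev Rel kr Vt
  der_mn)

namespace Pool.Agent.KS6_26.E

section full

variable {K : Type} [Field K] {ι S A Δ : Type} [DecidableEq S]

/-- The span of all the vector fields. -/
noncomputable def Full (β : ι → S) (d : A → S → ℕ) (D : A → (ι →₀ ℕ) → Derivation ℤ K K)
    (c : A → (ι →₀ ℕ) → Δ → K) (p : S → Δ → K) (x : ι → K) :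
    Submodule K (ι ⊕ Δ → K) :=
  Submodule.span K (Set.range (gen β d D c p x) ∪ {v | ∃ a I, mdeg β I = d a ∧ v = Ev D c x a I})

variable {β : ι → S} {d : A → S → ℕ} {D : A → (ι →₀ ℕ) → Derivation ℤ K K}
  {c : A → (ι →₀ ℕ) → Δ → K} {p : S → Δ → K} {x : ι → K}

theorem gen_mem_full (g : Gx ι S A) : gen β d D c p x g ∈ Full β d D c p x :=
  Submodule.subset_span (Or.inl ⟨g, rfl⟩)

theorem Ev_mem_full {a : A} {I : ι →₀ ℕ} (hI : mdeg β I = d a) :
    Ev D c x a I ∈ Full β d D c p x := Submodule.subset_span (Or.inr ⟨a, I, hI, rfl⟩)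

/-- The choice of the rows. -/
theorem exists_rows [Fintype S] {e : S → ι} (he : ∀ s, β (e s) = s) (hx : ∀ s, x (e s) ≠ 0)
    {Vert : Set (Gx ι S A)} (hV : LinearIndepOn K (gen β d D c p x) Vert) [Finite ι] [Finite Δ] :
    ∃ b : Finset (Gx ι S A ⊕ A), (∀ v ∈ Vert, Sum.inl v ∈ b) ∧
      LinearIndependent K (fun i : b => vv β d D c p x (fun a => std e (d a)) i) ∧
      (Submodule.span K (Set.range (gen β d D c p x)) ≤
        Submodule.span K (gen β d D c p x '' {g | Sum.inl g ∈ b})) ∧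
      Submodule.span K (Set.range fun i : b => vv β d D c p x (fun a => std e (d a)) i) =
        Full β d D c p x := by
  classical
  have := Fintype.ofFinite ι
  have := Fintype.ofFinite Δ
  obtain ⟨v, hv⟩ : ∃ v, v = vv β d D c p x (fun a => std e (d a)) := ⟨_, rfl⟩
  have hs0 : LinearIndepOn K v (Sum.inl '' Vert) := by
    refine LinearIndepOn.image_of_comp _ _ ?_
    rw [hv]
    exact hV
  obtain ⟨b0, hb0, hs0b, hspan0, hb0i⟩ := exists_linearIndepOn_extension hs0
    (t := Set.range Sum.inl) (by rintro _ ⟨g, -, rfl⟩; exact ⟨g, rfl⟩)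
  obtain ⟨b1, -, hb1, hspan1, hb1i⟩ := exists_linearIndepOn_extension hb0i
    (Set.subset_univ _)
  have hb1i' : LinearIndependent K (fun i : b1 => v i) := hb1i
  have hfin : b1.Finite := by
    have := hb1i'.finite
    exact Set.toFinite b1
  obtain ⟨b, hb⟩ : ∃ b : Finset (Gx ι S A ⊕ A), (b : Set _) = b1 :=
    ⟨hfin.toFinset, hfin.coe_toFinset⟩
  have hbm : ∀ i, i ∈ b ↔ i ∈ b1 := fun i => by rw [← hb, Finset.mem_coe]
  have hbi : LinearIndependent K (fun i : b => v i) := by
    have h1 : LinearIndepOn K v (b : Set _) := by rw [hb]; exact hb1i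
    exact h1
  refine ⟨b, fun g hg => ?_, ?_, ?_, ?_⟩
  · rw [hbm]; exact hb1 (hs0b ⟨g, hg, rfl⟩)
  · rw [← hv]; exact hbi
  · rw [Submodule.span_le]
    rintro _ ⟨o, rfl⟩
    have h1 := hspan0 ⟨Sum.inl o, ⟨o, rfl⟩, rfl⟩
    have h2 : v (Sum.inl o) = gen β d D c p x o := by rw [hv]; rfl
    rw [h2] at h1
    refine Submodule.span_mono ?_ h1
    rintro _ ⟨i, hi, rfl⟩
    obtain ⟨o', rfl⟩ := hb0 hi
    refine ⟨o', ?_, by rw [hv]; rfl⟩
    rw [Set.mem_ofPred_eq, hbm]
    exact hb1 hi
  · rw [← hv]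
    have h2 : ∀ i, v i ∈ Submodule.span K (Set.range fun i : b => v i) := by
      intro i
      have h3 := hspan1 ⟨i, Set.mem_univ _, rfl⟩
      rw [← hb, Set.image_eq_range] at h3
      exact h3
    have h3 : ∀ o, gen β d D c p x o ∈ Submodule.span K (Set.range fun i : b => v i) := by
      intro o
      have := h2 (Sum.inl o)
      rwa [hv] at this ⊢
    apply le_antisymm
    · rw [Submodule.span_le]
      rintro _ ⟨i, rfl⟩
      rw [hv]
      rcases h : i.1 with g | a
      · simp only [h]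
        exact gen_mem_full g
      · simp only [h]
        exact Ev_mem_full (mdeg_std he _)
    · rw [Full, Submodule.span_le]
      rintro _ (⟨o, rfl⟩ | ⟨a, I, hI, rfl⟩)
      · exact h3 o
      · have h4 := Ev_mod (D := D) (c := c) (p := p) he hx a hI
        have h5 : Submodule.span K (Set.range (gen β d D c p x)) ≤
            Submodule.span K (Set.range fun i : b => v i) := by
          rw [Submodule.span_le]
          rintro _ ⟨o, rfl⟩
          exact h3 o
        have h6 : Ev D c x a (std e (d a)) ∈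
            Submodule.span K (Set.range fun i : b => v i) := by
          have := h2 (Sum.inr a)
          rwa [hv] at this ⊢
        have h7 := add_mem (h5 h4) (Submodule.smul_mem _ (mn x I / mn x (std e (d a))) h6)
        rwa [sub_add_cancel] at h7

end full

section count

variable {K : Type} [Field K] {ι S A Δ Λ : Type} [DecidableEq S] [Fintype S] [Fintype A]

/-- The defects, and the logarithmic derivatives of the functions `ψ b`. -/
noncomputable def cl {K : Type} [Field K] {ι A Δ Λ : Type} (D : A → (ι →₀ ℕ) → Derivation ℤ K K)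
    (c : A → (ι →₀ ℕ) → Δ → K) (ε : A → (ι →₀ ℕ) → K) (γ : Λ → A → ℤ) (ψ : Λ → K) :
    A → (ι →₀ ℕ) → Δ ⊕ Λ → K :=
  fun a I => Sum.elim (c a I) fun b => D a I (ψ b) / ψ b - (γ b a : K) * ε a I

/-- The entries of the position vectors. -/
def pl (K : Type) [Field K] {S Δ Λ : Type} (ed : Λ → S → ℕ) : S → Δ ⊕ Λ → K :=
  fun s => Sum.elim (fun _ => 0) fun b => (ed b s : K)

variable {k0 : Type} [Field k0] [Algebra k0 K] {β : ι → S} {d : A → S → ℕ}
  {D : A → (ι →₀ ℕ) → Derivation ℤ K K} {c : A → (ι →₀ ℕ) → Δ → K}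
  {t ε : A → (ι →₀ ℕ) → K} {q : Δ → A × (ι →₀ ℕ)}

/-- The pairs of a vector and the values of the forms. -/
def UU (k0 : Type) {K : Type} [Field k0] [Field K] [Algebra k0 K] {ι S A Δ Λ : Type}
    [DecidableEq S] [Fintype S] [Fintype A] (R : Set A) (β : ι → S) (d : A → S → ℕ)
    (t : A → (ι →₀ ℕ) → K) (q : Δ → A × (ι →₀ ℕ)) (ed : Λ → S → ℕ) (γ : Λ → A → ℤ)
    (Mn : A → Finset (ι →₀ ℕ)) (x : ι → K) (ψ : Λ → K) :
    Submodule K ((ι ⊕ (Δ ⊕ Λ) → K) × (A → K)) where
  carrier := {p | ∃ (D : Derivation ℤ K K) (r : S → K) (g : A → (ι →₀ ℕ) → K) (e : A → K),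
    (∀ r : k0, D (algebraMap k0 K r) = 0) ∧
    (∀ l, p.1 (Sum.inl l) = D (x l) + r (β l) * x l) ∧
    (∀ δ, p.1 (Sum.inr (Sum.inl δ)) = g (q δ).1 (q δ).2 + e (q δ).1 * t (q δ).1 (q δ).2 -
      D (t (q δ).1 (q δ).2)) ∧
    (∀ b, p.1 (Sum.inr (Sum.inr b)) = D (ψ b) / ψ b - ∑ a, (γ b a : K) * e a +
      ∑ s, r s * (ed b s : K)) ∧
    (∀ b J, mdeg β J = d b → (∀ δ, q δ ≠ (b, J)) → D (t b J) = g b J + e b * t b J) ∧
    (∀ b, p.2 b = ∑ J ∈ Mn b, g b J * mn x J) ∧
    ∀ b, b ∉ R → e b = 0}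
  add_mem' := by
    rintro p p' ⟨D, r, g, e, h1, h2, h3, h3b, h4, h5, h6⟩
      ⟨D', r', g', e', h1', h2', h3', h3b', h4', h5', h6'⟩
    refine ⟨D + D', r + r', fun b J => g b J + g' b J, e + e', fun z => ?_, fun l => ?_,
      fun δ => ?_, fun b => ?_, fun b J hJ hq => ?_, fun b => ?_, fun b => ?_⟩
    · rw [Derivation.add_apply, h1, h1', add_zero]
    · rw [Derivation.add_apply, Prod.fst_add, Pi.add_apply, h2, h2', Pi.add_apply]
      ring
    · rw [Derivation.add_apply, Prod.fst_add, Pi.add_apply, h3, h3', Pi.add_apply]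
      ring
    · rw [Derivation.add_apply, Prod.fst_add, Pi.add_apply, h3b, h3b']
      simp only [Pi.add_apply, add_mul, mul_add, Finset.sum_add_distrib]
      ring
    · rw [Derivation.add_apply, h4 b J hJ hq, h4' b J hJ hq, Pi.add_apply]
      ring
    · rw [Prod.snd_add, Pi.add_apply, h5, h5', ← Finset.sum_add_distrib]
      exact Finset.sum_congr rfl fun J _ => by ring
    · intro hb
      rw [Pi.add_apply, h6 b hb, h6' b hb, add_zero]
  zero_mem' := ⟨0, 0, fun _ _ => 0, 0, fun _ => rfl, fun l => by simp, fun δ => by simp,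
    fun b => by simp, fun _ _ _ _ => by simp, fun b => by simp, fun b _ => by simp⟩
  smul_mem' := by
    rintro s p ⟨D, r, g, e, h1, h2, h3, h3b, h4, h5, h6⟩
    refine ⟨s • D, s • r, fun b J => s * g b J, s • e, fun z => ?_, fun l => ?_, fun δ => ?_,
      fun b => ?_, fun b J hJ hq => ?_, fun b => ?_, fun b => ?_⟩
    · rw [Derivation.smul_apply, h1, smul_zero]
    · rw [Derivation.smul_apply, Prod.smul_fst, Pi.smul_apply, h2, Pi.smul_apply, smul_eq_mul,
        smul_eq_mul, smul_eq_mul]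
      ring
    · rw [Derivation.smul_apply, Prod.smul_fst, Pi.smul_apply, h3, smul_eq_mul, smul_eq_mul,
        Pi.smul_apply, smul_eq_mul]
      ring
    · rw [Derivation.smul_apply, Prod.smul_fst, Pi.smul_apply, h3b, smul_eq_mul, smul_eq_mul]
      simp only [Pi.smul_apply, smul_eq_mul, mul_add, mul_sub, Finset.mul_sum, mul_assoc,
        mul_div_assoc, mul_left_comm s]
    · rw [Derivation.smul_apply, h4 b J hJ hq, smul_eq_mul, Pi.smul_apply, smul_eq_mul]
      ring
    · rw [Prod.smul_snd, Pi.smul_apply, h5, smul_eq_mul, Finset.mul_sum]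
      exact Finset.sum_congr rfl fun J _ => by ring
    · intro hb
      rw [Pi.smul_apply, smul_eq_mul, h6 b hb, mul_zero]

open scoped Classical in
theorem Ev_mem (h : Rel k0 β d D c (fun ξ : Empty => ξ.elim) t ε q) {Mn : A → Finset (ι →₀ ℕ)}
    (hMn : ∀ a I, I ∈ Mn a ↔ mdeg β I = d a) {x : ι → K} (ψ : Λ → K) (ed : Λ → S → ℕ)
    (γ : Λ → A → ℤ)
    {R : Set A} (hε : ∀ a I, a ∉ R → ε a I = 0) {a : A} {I : ι →₀ ℕ}
    (hI : mdeg β I = d a) :
    ((Ev D (cl D c ε γ ψ) x a I, Pi.single a (mn x I)) : (ι ⊕ (Δ ⊕ Λ) → K) × (A → K)) ∈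
      UU k0 R β d t q ed γ Mn x ψ := by
  have hkr : ∀ b J, kr t ε a I b J = (if (a, I) = (b, J) then 1 else 0) +
      (Pi.single a (ε a I) : A → K) b * t b J := by
    intro b J
    unfold kr
    congr 1
    by_cases hab : a = b
    · subst hab
      rw [if_pos rfl, Pi.single_eq_same]
    · rw [if_neg hab, Pi.single_eq_of_ne (Ne.symm hab), zero_mul]
  refine ⟨D a I, 0, fun b J => if (a, I) = (b, J) then 1 else 0, Pi.single a (ε a I), h.Dk a I,
    fun l => ?_, fun δ => ?_, fun b => ?_, fun b J hJ hq => ?_, fun b => ?_, fun b hb => ?_⟩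
  · simp [Ev]
  · simp only [Ev, Sum.elim_inr, cl, Sum.elim_inl]
    rw [h.cq a I δ hI, hkr]
  · simp only [Ev, cl, Sum.elim_inr, Pi.zero_apply, zero_mul, Finset.sum_const_zero, add_zero]
    rw [Finset.sum_eq_single a]
    · rw [Pi.single_eq_same]
    · intro a' _ ha'
      rw [Pi.single_eq_of_ne ha', mul_zero]
    · intro h; exact absurd (Finset.mem_univ _) h
  · rw [h.Dt a I b J hI hJ hq, hkr]
  · by_cases hab : b = a
    · subst hab
      simp only [Pi.single_eq_same]
      rw [Finset.sum_eq_single I]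
      · rw [if_pos rfl, one_mul]
      · intro J _ hJ
        rw [if_neg fun h => hJ (Prod.mk_inj.1 h).2.symm, zero_mul]
      · intro h2; exact absurd ((hMn _ _).2 hI) h2
    · simp only [Pi.single_eq_of_ne hab]
      symm
      refine Finset.sum_eq_zero fun J _ => ?_
      rw [if_neg fun h => hab (Prod.mk_inj.1 h).1.symm, zero_mul]
  · by_cases hab : b = a
    · subst hab
      rw [Pi.single_eq_same]
      exact hε _ _ hb
    · rw [Pi.single_eq_of_ne hab]

theorem gen_mem (h : Rel k0 β d D c (fun ξ : Empty => ξ.elim) t ε q) {Mn : A → Finset (ι →₀ ℕ)}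
    (hMn : ∀ a I, I ∈ Mn a ↔ mdeg β I = d a) {x : ι → K} (ψ : Λ → K) (ed : Λ → S → ℕ)
    (γ : Λ → A → ℤ)
    {R : Set A} (hε : ∀ a I, a ∉ R → ε a I = 0) (g : Gx ι S A) :
    ((gen β d D (cl D c ε γ ψ) (pl K ed) x g, 0) : (ι ⊕ (Δ ⊕ Λ) → K) × (A → K)) ∈
      UU k0 R β d t q ed γ Mn x ψ := by
  classical
  rcases g with s | t'
  · refine ⟨0, Pi.single s 1, fun _ _ => 0, 0, fun _ => rfl, fun l => ?_, fun δ => ?_,
      fun b => ?_, fun b J hJ hq => ?_, fun b => ?_, fun b => ?_⟩
    · by_cases hs : β l = s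
      · subst hs
        simp [gen]
      · simp [gen, hs]
    · simp [gen, pl]
    · simp only [gen, pl, Sum.elim_inr]
      rw [Finset.sum_eq_single s]
      · simp
      · intro s' _ hs
        rw [Pi.single_eq_of_ne hs, zero_mul]
      · intro h; exact absurd (Finset.mem_univ _) h
    · simp
    · simp
    · simp
  · by_cases ht : β t'.2.2.1 = β t'.2.2.2 ∧ mdeg β (t'.2.1 + Finsupp.single t'.2.2.1 1) = d t'.1
    · have h1 := Ev_mem (x := x) h hMn ψ ed γ hε ht.2
      have h2 := Ev_mem (x := x) h hMn ψ ed γ hε (a := t'.1)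
        (I := t'.2.1 + Finsupp.single t'.2.2.2 1) (by
        rw [← ht.2, map_add, map_add, mdeg_single, mdeg_single, ht.1])
      have h3 := sub_mem (Submodule.smul_mem _ (x t'.2.2.2) h1)
        (Submodule.smul_mem _ (x t'.2.2.1) h2)
      have h4 : ((gen β d D (cl D c ε γ ψ) (pl K ed) x (Sum.inr t'), 0) :
          (ι ⊕ (Δ ⊕ Λ) → K) × (A → K)) =
          x t'.2.2.2 • (Ev D (cl D c ε γ ψ) x t'.1 (t'.2.1 + Finsupp.single t'.2.2.1 1),
            Pi.single t'.1 (mn x (t'.2.1 + Finsupp.single t'.2.2.1 1))) -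
          x t'.2.2.1 • (Ev D (cl D c ε γ ψ) x t'.1 (t'.2.1 + Finsupp.single t'.2.2.2 1),
            Pi.single t'.1 (mn x (t'.2.1 + Finsupp.single t'.2.2.2 1))) := by
        refine Prod.ext ?_ ?_
        · simp only [gen, if_pos ht]
          rfl
        · funext b
          simp only [Prod.snd_sub, Prod.smul_snd, Pi.sub_apply, Pi.smul_apply, smul_eq_mul,
            mn_add, mn_single, pow_one, Pi.zero_apply]
          by_cases hb : b = t'.1
          · subst hb
            rw [Pi.single_eq_same, Pi.single_eq_same]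
            ring
          · rw [Pi.single_eq_of_ne hb, Pi.single_eq_of_ne hb]
            ring
      rw [h4]
      exact h3
    · simp only [gen, if_neg ht]
      exact zero_mem _

/-- The derivatives of `u` by the derivations which vanish on `k0` and on `x`, up to multiples of `u`. -/
def Vt2 (k0 : Type) {K : Type} [Field k0] [Field K] [Algebra k0 K] {ι A Λ : Type} [Fintype A]
    (R : Set A) (γ : Λ → A → ℤ) (ψ : Λ → K) (x : ι → K) (u : A → K) : Submodule K (A → K) where
  carrier := {y | ∃ (D : Derivation ℤ K K) (e : A → K), (∀ r : k0, D (algebraMap k0 K r) = 0) ∧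
    (∀ b, b ∉ R → e b = 0) ∧ (∀ l, D (x l) = 0) ∧
    (∀ b, D (ψ b) = (∑ a, (γ b a : K) * e a) * ψ b) ∧ ∀ a, y a = D (u a) - e a * u a}
  add_mem' := by
    rintro y z ⟨D, e, h1, h2, h3, h4, h5⟩ ⟨D', e', h1', h2', h3', h4', h5'⟩
    refine ⟨D + D', e + e', fun r => by rw [Derivation.add_apply, h1, h1', add_zero],
      fun b hb => by rw [Pi.add_apply, h2 b hb, h2' b hb, add_zero],
      fun l => by rw [Derivation.add_apply, h3, h3', add_zero],
      fun b => by
        rw [Derivation.add_apply, h4, h4']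
        simp only [Pi.add_apply, mul_add, Finset.sum_add_distrib, add_mul],
      fun a => by rw [Pi.add_apply, h5, h5', Derivation.add_apply, Pi.add_apply]; ring⟩
  zero_mem' := ⟨0, 0, fun _ => rfl, fun _ _ => rfl, fun _ => rfl, fun _ => by simp,
    fun _ => by simp⟩
  smul_mem' := by
    rintro s y ⟨D, e, h1, h2, h3, h4, h5⟩
    refine ⟨s • D, s • e, fun r => by rw [Derivation.smul_apply, h1, smul_zero],
      fun b hb => by rw [Pi.smul_apply, h2 b hb, smul_zero],
      fun l => by rw [Derivation.smul_apply, h3, smul_zero],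
      fun b => by
        rw [Derivation.smul_apply, h4, smul_eq_mul, ← mul_assoc, Finset.mul_sum]
        simp only [Pi.smul_apply, smul_eq_mul, mul_left_comm s],
      fun a => by
        rw [Pi.smul_apply, h5, Derivation.smul_apply, Pi.smul_apply, smul_eq_mul, smul_eq_mul,
          smul_eq_mul]
        ring⟩

open scoped Classical in
/-- The number of the derivatives among the rows. -/
theorem card_le (h : Rel k0 β d D c (fun ξ : Empty => ξ.elim) t ε q) {Mn : A → Finset (ι →₀ ℕ)}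
    (hMn : ∀ a I, I ∈ Mn a ↔ mdeg β I = d a) [Finite ι] [Finite Δ] [Finite Λ] {x : ι → K}
    {u : A → K} (hu : ∀ a, u a = ∑ J ∈ Mn a, t a J * mn x J) {ψ : Λ → K} {ed : Λ → S → ℕ}
    {γ : Λ → A → ℤ} (hψ : ∀ b, ψ b ≠ 0)
    {R : Set A} (hε : ∀ a I, a ∉ R → ε a I = 0) {l0 : S → ι}
    (hl0 : ∀ s, β (l0 s) = s) (hx0 : ∀ s, x (l0 s) = 1) {e : S → ι} (he : ∀ s, β (e s) = s)
    (hx : ∀ s, x (e s) ≠ 0)
    {b : Finset (Gx ι S A ⊕ A)}
    (hfull : Submodule.span K (Set.range fun i : b =>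
      vv β d D (cl D c ε γ ψ) (pl K ed) x (fun a => std e (d a)) i) =
        Full β d D (cl D c ε γ ψ) (pl K ed) x) {f : ℕ}
    (hf : Module.finrank K (Vt2 k0 R γ ψ x u) ≤ f) :
    Fintype.card A ≤ (Finset.univ.filter fun a : A => Sum.inr a ∈ b).card + f := by
  have := Fintype.ofFinite ι
  have := Fintype.ofFinite Δ
  have := Fintype.ofFinite Λ
  obtain ⟨G, hG⟩ : ∃ G, G = Submodule.span K (Set.range (gen β d D (cl D c ε γ ψ) (pl K ed) x)) :=
    ⟨_, rfl⟩
  obtain ⟨Θ, hΘ⟩ : ∃ Θ : (A → K) →ₗ[K] (ι ⊕ (Δ ⊕ Λ) → K), ∀ y, Θ y =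
      ∑ a, y a • Ev D (cl D c ε γ ψ) x a (std e (d a)) :=
    ⟨{ toFun := fun y => ∑ a, y a • Ev D (cl D c ε γ ψ) x a (std e (d a))
       map_add' := fun y z => by
        rw [← Finset.sum_add_distrib]
        exact Finset.sum_congr rfl fun a _ => add_smul _ _ _
       map_smul' := fun r y => by
        rw [RingHom.id_apply, Finset.smul_sum]
        exact Finset.sum_congr rfl fun a _ => by rw [Pi.smul_apply, smul_eq_mul, mul_smul] },
      fun _ => rfl⟩
  obtain ⟨m, hm⟩ : ∃ m : A → K, ∀ a, m a = mn x (std e (d a)) := ⟨_, fun _ => rfl⟩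
  have hm0 : ∀ a, m a ≠ 0 := fun a => by
    rw [hm, mn_std]
    exact Finset.prod_ne_zero_iff.2 fun s _ => pow_ne_zero _ (hx s)
  -- the kernel
  have hker : ∀ y, Θ y ∈ G → (fun a => y a * m a) ∈ Vt2 k0 R γ ψ x u := by
    intro y hy
    have h1 : ((Θ y, fun a => y a * m a) : (ι ⊕ (Δ ⊕ Λ) → K) × (A → K)) ∈
        UU k0 R β d t q ed γ Mn x ψ := by
      have h2 : ((Θ y, fun a => y a * m a) : (ι ⊕ (Δ ⊕ Λ) → K) × (A → K)) =
          ∑ a, y a • (Ev D (cl D c ε γ ψ) x a (std e (d a)),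
            Pi.single a (mn x (std e (d a)))) := by
        refine Prod.ext ?_ ?_
        · rw [Prod.fst_sum, hΘ]
          rfl
        · rw [Prod.snd_sum]
          funext b'
          rw [Finset.sum_apply, Finset.sum_eq_single b']
          · simp [hm]
          · intro a _ ha
            simp [ha.symm]
          · intro h; exact absurd (Finset.mem_univ _) h
      rw [h2]
      exact sum_mem fun a _ => Submodule.smul_mem _ _ (Ev_mem h hMn ψ ed γ hε (mdeg_std he _))
    have h2 : ((Θ y, 0) : (ι ⊕ (Δ ⊕ Λ) → K) × (A → K)) ∈ UU k0 R β d t q ed γ Mn x ψ := by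
      have h3 : G ≤ (UU k0 R β d t q ed γ Mn x ψ).comap
          (LinearMap.inl K (ι ⊕ (Δ ⊕ Λ) → K) (A → K)) := by
        rw [hG, Submodule.span_le]
        rintro _ ⟨g, rfl⟩
        exact gen_mem h hMn ψ ed γ hε g
      exact h3 hy
    obtain ⟨D', r, g, e', k1, k2, k3, k3b, k4, k5, k6⟩ := sub_mem h1 h2
    have hr : ∀ s, r s = 0 := by
      intro s
      have h3 := k2 (l0 s)
      rw [hx0, D'.map_one_eq_zero, hl0] at h3
      simpa using h3.symm
    have hx' : ∀ l, D' (x l) = 0 := by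
      intro l
      have h3 := k2 l
      rw [hr, zero_mul, add_zero] at h3
      simpa using h3.symm
    have hu' : ∀ b, D' (ψ b) = (∑ a, (γ b a : K) * e' a) * ψ b := by
      intro b
      have h3 := k3b b
      simp only [hr, zero_mul, Finset.sum_const_zero, add_zero] at h3
      have h4 : D' (ψ b) / ψ b - ∑ a, (γ b a : K) * e' a = 0 := by
        rw [← h3]
        simp
      rw [sub_eq_zero, div_eq_iff (hψ b)] at h4
      exact h4
    refine ⟨D', e', k1, k6, hx', hu', fun a => ?_⟩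
    have h3 := k5 a
    have h4 : ((Θ y, fun a => y a * m a) - (Θ y, 0) :
      (ι ⊕ (Δ ⊕ Λ) → K) × (A → K)).2 a = y a * m a := by simp
    rw [h4] at h3
    change y a * m a = D' (u a) - e' a * u a
    rw [h3, eq_sub_iff_add_eq, hu, Finset.mul_sum, ← Finset.sum_add_distrib, map_sum]
    refine Finset.sum_congr rfl fun J hJ => ?_
    rw [D'.leibniz, der_mn D' hx', smul_zero, zero_add, smul_eq_mul]
    have h6 : D' (t a J) = g a J + e' a * t a J := by
      by_cases hq : ∀ δ, q δ ≠ (a, J)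
      · exact k4 a J ((hMn _ _).1 hJ) hq
      · push Not at hq
        obtain ⟨δ, hδ⟩ := hq
        have h5 := k3 δ
        rw [hδ] at h5
        have h6 : g a J + e' a * t a J - D' (t a J) = 0 := by simpa using h5.symm
        exact (sub_eq_zero.1 h6).symm
    rw [h6]
    ring
  -- rank and nullity
  obtain ⟨Ψ, hΨ⟩ : ∃ Ψ : (A → K) →ₗ[K] ((ι ⊕ (Δ ⊕ Λ) → K) ⧸ G), Ψ = G.mkQ.comp Θ := ⟨_, rfl⟩
  have hΨ' : ∀ y, Ψ y = G.mkQ (Θ y) := fun y => by rw [hΨ]; rfl
  have h1 := LinearMap.finrank_range_add_finrank_ker Ψ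
  rw [Module.finrank_pi] at h1
  have h2 : Module.finrank K (LinearMap.ker Ψ) ≤ f := by
    refine le_trans ?_ hf
    obtain ⟨ρ, hρ⟩ : ∃ ρ : LinearMap.ker Ψ →ₗ[K] (Vt2 k0 R γ ψ x u),
        ∀ y, ((ρ y : _) : A → K) = fun a => y.1 a * m a :=
      ⟨{ toFun := fun y => ⟨fun a => y.1 a * m a, hker y.1 (by
            have h3 := LinearMap.mem_ker.1 y.2
            rw [hΨ', Submodule.mkQ_apply, Submodule.Quotient.mk_eq_zero] at h3
            exact h3)⟩
         map_add' := fun y z => by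
          apply Subtype.ext
          funext a
          simp [add_mul]
         map_smul' := fun s y => by
          apply Subtype.ext
          funext a
          simp [mul_assoc] }, fun _ => rfl⟩
    refine LinearMap.finrank_le_finrank_of_injective (f := ρ) ?_
    rw [← LinearMap.ker_eq_bot, LinearMap.ker_eq_bot']
    intro y hy
    apply Subtype.ext
    funext a
    have h3 := congrFun (hρ y) a
    rw [hy] at h3
    have h4 : y.1 a * m a = 0 := h3.symm
    exact (mul_eq_zero.1 h4).resolve_right (hm0 a)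
  have h3 : Module.finrank K (LinearMap.range Ψ) ≤
      (Finset.univ.filter fun a : A => Sum.inr a ∈ b).card := by
    obtain ⟨T, hT⟩ : ∃ T : Finset ((ι ⊕ (Δ ⊕ Λ) → K) ⧸ G), T =
      (Finset.univ.filter fun a : A => Sum.inr a ∈ b).image
        (fun a => G.mkQ (Ev D (cl D c ε γ ψ) x a (std e (d a)))) := ⟨_, rfl⟩
    have h4 : LinearMap.range Ψ ≤ Submodule.span K (T : Set ((ι ⊕ (Δ ⊕ Λ) → K) ⧸ G)) := by
      have h5 : (Full β d D (cl D c ε γ ψ) (pl K ed) x).map G.mkQ ≤
          Submodule.span K (T : Set ((ι ⊕ (Δ ⊕ Λ) → K) ⧸ G)) := by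
        rw [← hfull, Submodule.map_span, Submodule.span_le]
        rintro _ ⟨_, ⟨i, rfl⟩, rfl⟩
        rcases hi : i.1 with g | a
        · have h6 : G.mkQ (gen β d D (cl D c ε γ ψ) (pl K ed) x g) = 0 := by
            rw [Submodule.mkQ_apply, Submodule.Quotient.mk_eq_zero, hG]
            exact Submodule.subset_span ⟨g, rfl⟩
          simp only [hi, vv]
          rw [h6]
          exact zero_mem _
        · simp only [hi, vv]
          refine Submodule.subset_span ?_
          rw [hT, Finset.mem_coe, Finset.mem_image]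
          refine ⟨a, ?_, rfl⟩
          rw [Finset.mem_filter]
          exact ⟨Finset.mem_univ _, by rw [← hi]; exact i.2⟩
      rintro _ ⟨y, rfl⟩
      apply h5
      refine ⟨Θ y, ?_, by rw [hΨ]; rfl⟩
      rw [hΘ]
      exact sum_mem fun a _ => Submodule.smul_mem _ _ (Ev_mem_full (mdeg_std he _))
    refine (Submodule.finrank_mono h4).trans ?_
    refine (finrank_span_finset_le_card T).trans ?_
    rw [hT]
    exact Finset.card_image_le
  omega

end count

end Pool.Agent.KS6_26.E
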