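import Pool.Agent.KS6_26.E.ZLog

/-!
The height inequality for the preimages of pairs under generic maps: corollaries.
-/

set_option autoImplicit false

open MvPolynomial FF Pool.Agent.W603.LV Pool.Agent.W603.PV
open Pool.Agent.W602.GT (coords)
open Pool.Agent.TH145.MG (mem_cl subset_cl mem_cl_iff DimLE)
open Pool.Agent.KS6_26.D (exists_basisF trdeg_le_of_cl aeval_weight wh_rename)

namespace Pool.Agent.KS6_26.E

section cl

variable {k Ω : Type} [Field k] [Field Ω] [Algebra k Ω]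

theorem cl_le {S T : Set Ω} (h : ∀ s ∈ S, s ∈ TH145.MG.cl k T) {x : Ω}
    (hx : x ∈ TH145.MG.cl k S) : x ∈ TH145.MG.cl k T := by
  rw [mem_cl_iff] at hx ⊢
  exact (AlgebraicIndependent.matroid k Ω).closure_subset_closure_of_subset_closure
    (fun s hs => mem_cl_iff.1 (h s hs)) hx

theorem cl_up {K1 K2 : IntermediateField k Ω} (h : K1 ≤ K2) {S : Set Ω} {x : Ω}
    (hx : x ∈ TH145.MG.cl K1 S) : x ∈ TH145.MG.cl K2 S := by
  have h3 := mem_cl.1 hx
  refine mem_cl.2 ?_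
  refine Pool.Agent.TH145.MF.alg_mono (F1 := (IntermediateField.adjoin K1 S).toSubfield)
    (F2 := (IntermediateField.adjoin K2 S).toSubfield) (fun z hz => ?_) h3
  rw [IntermediateField.adjoin_toSubfield] at hz
  have h4 : Subfield.closure (Set.range (algebraMap K1 Ω) ∪ S) ≤
      (IntermediateField.adjoin K2 S).toSubfield := by
    rw [Subfield.closure_le]
    rintro _ (⟨r, rfl⟩ | hi)
    · exact IntermediateField.algebraMap_mem _ (⟨r, h r.2⟩ : K2)
    · exact IntermediateField.subset_adjoin _ _ hi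
  exact h4 hz

end cl

section

variable {k0 L Λ : Type} [Field k0] [Field L] [Algebra k0 L] {n : ℕ} {x : Fin (n + 1) → L}
  {j0 : Fin (n + 1)}

/-- The transcendence degree of the field of the ratios and the values. -/
theorem trdeg_CoordsB (hj0 : x j0 ≠ 0) {w : Λ → ℕ} {T : Finset Λ} {ψ ψ' : Λ → L}
    (hψ : ∀ b, ψ' b = (x j0)⁻¹ ^ w b * ψ b) {m : ℕ} (hr : Algebra.trdeg k0 (coords k0 x) ≤ m)
    {J : Type} [Finite J] (z : J → L) (hz : ∀ b ∈ T, ψ' b ∈ TH145.MG.cl k0 (Set.range z)) :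
    Algebra.trdeg k0 (CoordsB k0 x w T ψ) ≤ (m + Nat.card J : ℕ) := by
  obtain ⟨y, hy⟩ : ∃ y : Fin (n + 1) → L, ∀ l, y l = x l / x j0 := ⟨_, fun _ => rfl⟩
  obtain ⟨I, hI, hIy⟩ := exists_basisF y (coords k0 x) (fun l =>
    IntermediateField.subset_adjoin _ _ ⟨l, j0, hj0, hy l⟩) hr
  have h1 : ∀ l, y l ∈ TH145.MG.cl k0 (Set.range (Sum.elim (fun i : I => y i) z)) := fun l => by
    refine cl_le ?_ (hIy l)
    rintro _ ⟨i, hi, rfl⟩
    exact subset_cl ⟨Sum.inl ⟨i, hi⟩, rfl⟩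
  have h2 : ∀ b ∈ T, ψ' b ∈ TH145.MG.cl k0
      (Set.range (Sum.elim (fun i : I => y i) z)) := fun b hb => by
    refine cl_le ?_ (hz b hb)
    rintro _ ⟨i, rfl⟩
    exact subset_cl ⟨Sum.inr i, rfl⟩
  have h3 : CoordsB k0 x w T ψ ≤ TH145.MG.cl k0 (Set.range (Sum.elim (fun i : I => y i) z)) := by
    unfold CoordsB
    rw [IntermediateField.adjoin_le_iff]
    rintro _ (⟨i, j, hj, rfl⟩ | ⟨b, hb, j, hj, rfl⟩)
    · have h4 : x i / x j = y i / y j := by
        rw [hy, hy]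
        field_simp
      rw [h4]
      exact div_mem (h1 i) (h1 j)
    · have h4 : ψ b / x j ^ w b = ψ' b / y j ^ w b := by
        rw [hψ, hy, div_pow, inv_pow]
        have := pow_ne_zero (w b) hj
        have := pow_ne_zero (w b) hj0
        field_simp
      rw [h4]
      exact div_mem (h2 b hb) (pow_mem (h1 j) _)
  refine (trdeg_le_of_cl (J := I ⊕ J) _ (Sum.elim (fun i : I => y i) z)
    (fun w hw => h3 hw)).trans ?_
  rw [Nat.card_sum, Nat.card_eq_fintype_card, Fintype.card_coe]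
  exact_mod_cast Nat.add_le_add_right hI _

/-- The transcendence degree of the values of the forms. -/
theorem trdeg_vals (hj0 : x j0 ≠ 0) {K2 : IntermediateField k0 L} (hK : coords k0 x ≤ K2)
    {A : Type} {d : A → ℕ} {u u' : A → L} (hu : ∀ a, u' a = (x j0)⁻¹ ^ d a * u a)
    {J : Type} [Finite J] (z : J → L) (hz : ∀ a, u' a ∈ TH145.MG.cl K2 (Set.range z)) :
    Algebra.trdeg K2 (IntermediateField.adjoin K2 {z | ∃ a j, x j ≠ 0 ∧ z = u a / x j ^ d a}) ≤
      Nat.card J := by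
  refine trdeg_le_of_cl _ z fun v hv => ?_
  have h1 : IntermediateField.adjoin K2 {z | ∃ a j, x j ≠ 0 ∧ z = u a / x j ^ d a} ≤
      TH145.MG.cl K2 (Set.range z) := by
    rw [IntermediateField.adjoin_le_iff]
    rintro _ ⟨a, j, hj, rfl⟩
    have h2 : u a / x j ^ d a = u' a * (x j0 / x j) ^ d a := by
      rw [hu, div_pow, inv_pow]
      have := pow_ne_zero (d a) hj0
      field_simp
    rw [h2]
    exact mul_mem (hz a) (pow_mem (IntermediateField.algebraMap_mem _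
      (⟨_, hK (IntermediateField.subset_adjoin _ _ ⟨j0, j, hj, rfl⟩)⟩ : K2)) _)
  exact h1 hv

theorem coords_le (x : Fin (n + 1) → L) (w : Λ → ℕ) (T : Finset Λ) (ψ : Λ → L) :
    coords k0 x ≤ CoordsB k0 x w T ψ :=
  IntermediateField.adjoin.mono _ _ _ Set.subset_union_left

end

section prod

variable {k0 k F0 F : Type} [Field k0] [Field k] [Field F0] [Field F] [Algebra k0 k]
  [Algebra k F] [Algebra k0 F] [IsScalarTower k0 k F] [Algebra k0 F0] [Algebra F0 F]
  [IsScalarTower k0 F0 F] [IsAlgClosed k] [CharZero k] [IsFF k F]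

/-- Preimages of pairs under generic maps. -/
theorem zlog_prod (hfg : ∃ S : Finset F0, IntermediateField.adjoin k0 (S : Set F0) = ⊤) {n : ℕ}
    {A : Type} [Fintype A] (d : A → ℕ) (H : A → MvPolynomial (Fin (n + 1)) F)
    (hH : ∀ a, (H a).IsHomogeneous (d a))
    (hgen : AlgebraicIndependent F0
      fun p : {p : A × (Fin (n + 1) →₀ ℕ) // p.2.degree = d p.1} => (H p.1.1).coeff p.1.2)
    {Λ : Type} [Fintype Λ] (g : Λ → MvPolynomial A F0) (w : Λ → ℕ)
    (hg : ∀ b, IsWeightedHomogeneous d (g b) (w b)) :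
    ∃ C : ℕ, ∀ (V : Set (MvPolynomial (Fin (n + 1)) F0)) (m : ℕ), DimLE F0 V m →
      ∀ (Y : Set (MvPolynomial A F0)) (j f : ℕ), (∀ p ∈ Y, ∃ e, IsWeightedHomogeneous d p e) →
      (∀ (Ω : Type) [Field Ω] [Algebra F0 Ω] (v : A → Ω), (∀ p ∈ Y, aeval v p = 0) →
        (∀ b, aeval v (g b) ≠ 0) →
        Algebra.trdeg F0 (IntermediateField.adjoin F0 (Set.range fun b => aeval v (g b))) ≤ j ∧
        Algebra.trdeg (IntermediateField.adjoin F0 (Set.range fun b => aeval v (g b)))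
          (IntermediateField.adjoin (IntermediateField.adjoin F0 (Set.range fun b =>
            aeval v (g b))) (Set.range v)) ≤ f) →
      ∀ κ : ℤ, (∀ B : Finset A, Fintype.card A ≤ B.card + f →
        κ + 2 * m + j + 1 ≤ ∑ a ∈ B, ((d a : ℤ) + 1)) →
      ∀ (L : Type) [Field L] [Algebra k L] [Algebra F L] [Algebra F0 L]
        [IsScalarTower k F L] [IsScalarTower F0 F L] [FiniteDimensional F L]
        (x : Fin (n + 1) → L), x ≠ 0 → (∀ p ∈ V, aeval x p = 0) →
      (∀ p ∈ Y, aeval (fun a => aeval x (H a)) p = 0) →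
      (∀ b, aeval (fun a => aeval x (H a)) (g b) ≠ 0) →
      κ * pht k x ≤ {P : Place k L | ∃ b, w b * pord P x <
          P.ord (aeval (fun a => aeval x (H a)) (g b))}.ncard +
        canDeg k L + C * Module.finrank F L := by
  classical
  obtain ⟨C, hC⟩ := zlog_main (k0 := k0) (k := k) hfg d H hH hgen
    (fun b => rename Sum.inr (g b)) w (fun b => wh_rename (fun _ => rfl) (hg b))
  refine ⟨C, ?_⟩
  intro V m hV Y j f hYh hY κ hκ L _ _ _ _ _ _ _ x hx hxV hxY hxg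
  obtain ⟨j0, hj0⟩ := Function.ne_iff.1 hx
  have hj0 : x j0 ≠ 0 := hj0
  obtain ⟨u, hu⟩ : ∃ u : A → L, u = fun a => aeval x (H a) := ⟨_, rfl⟩
  rw [← hu] at hxY hxg ⊢
  obtain ⟨u', hu'⟩ : ∃ u' : A → L, ∀ a, u' a = (x j0)⁻¹ ^ d a * u a := ⟨_, fun _ => rfl⟩
  have hlam : (x j0)⁻¹ ≠ 0 := inv_ne_zero hj0
  have hsc : ∀ p : MvPolynomial A F0, ∀ e, IsWeightedHomogeneous d p e →
      aeval u' p = (x j0)⁻¹ ^ e * aeval u p := by
    intro p e he
    rw [← aeval_weight he (x j0)⁻¹ u]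
    congr 2
    funext a
    exact hu' a
  obtain ⟨ψ', hψ'⟩ : ∃ ψ' : Λ → L, ∀ b, ψ' b = aeval u' (g b) := ⟨_, fun _ => rfl⟩
  obtain ⟨h1, h2⟩ := hY L u' (fun p hp => by
    obtain ⟨e, he⟩ := hYh p hp
    rw [hsc p e he, hxY p hp, mul_zero]) (fun b => by
    rw [hsc _ _ (hg b)]
    exact mul_ne_zero (pow_ne_zero _ hlam) (hxg b))
  have hval : ∀ b, aeval (Sum.elim x u) (rename Sum.inr (g b)) = aeval u (g b) := fun b => by
    rw [aeval_rename]
    rfl
  obtain ⟨I2, hI2, hI2'⟩ := exists_basisF (fun b => aeval u' (g b)) _ (fun b =>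
    IntermediateField.subset_adjoin F0 _ (⟨b, rfl⟩ : _ ∈ Set.range fun b => aeval u' (g b))) h1
  obtain ⟨I3, hI3, hI3'⟩ := exists_basisF u' _ (fun a =>
    IntermediateField.subset_adjoin _ _ (⟨a, rfl⟩ : _ ∈ Set.range u')) h2
  have hr := hV L x hx hxV
  have hψs : ∀ b, aeval u' (g b) = (x j0)⁻¹ ^ w b * aeval u (g b) := fun b => hsc _ _ (hg b)
  have hs : Algebra.trdeg F0 (CoordsB F0 x w Finset.univ fun b => aeval u (g b)) ≤
      (m + j : ℕ) := by
    refine (trdeg_CoordsB hj0 hψs hr (fun i : I2 => aeval u' (g i)) fun b _ => ?_).trans ?_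
    · refine cl_le ?_ (hI2' b)
      rintro _ ⟨i, hi, rfl⟩
      exact subset_cl ⟨⟨i, hi⟩, rfl⟩
    · rw [Nat.card_eq_fintype_card, Fintype.card_coe]
      exact_mod_cast Nat.add_le_add_left hI2 _
  have hK1 : IntermediateField.adjoin F0 (Set.range fun b => aeval u' (g b)) ≤
      CoordsB F0 x w Finset.univ fun b => aeval u (g b) := by
    rw [IntermediateField.adjoin_le_iff]
    rintro _ ⟨b, rfl⟩
    exact IntermediateField.subset_adjoin _ _ (Or.inr ⟨b, Finset.mem_univ _, j0, hj0, by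
      dsimp only
      rw [hψs, inv_pow, inv_mul_eq_div]⟩)
  have hf : Algebra.trdeg (CoordsB F0 x w Finset.univ fun b => aeval u (g b))
      (IntermediateField.adjoin (CoordsB F0 x w Finset.univ fun b => aeval u (g b))
        {z | ∃ a j, x j ≠ 0 ∧ z = u a / x j ^ d a}) ≤ f := by
    refine (trdeg_vals hj0 (coords_le _ _ _ _) hu' (fun i : I3 => u' i) fun a => ?_).trans ?_
    · refine cl_up hK1 (cl_le ?_ (hI3' a))
      rintro _ ⟨i, hi, rfl⟩
      exact subset_cl ⟨⟨i, hi⟩, rfl⟩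
    · rw [Nat.card_eq_fintype_card, Fintype.card_coe]
      exact_mod_cast hI3
  have key := hC L x u (fun b => aeval u (g b)) hx (fun a => by rw [hu])
    (fun b => (hval b).symm) Finset.univ m (m + j) f κ (fun b _ => hxg b) hr hs hf
    (fun B hB => by
      have := hκ B hB
      push_cast
      linarith)
  simpa using key

/-- Generic members of linear systems with base points. -/
theorem zlog_base (hfg : ∃ S : Finset F0, IntermediateField.adjoin k0 (S : Set F0) = ⊤) {n : ℕ}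
    {A I : Type} [Fintype A] [Fintype I] {d : I × A → ℕ} {G : A → MvPolynomial (Fin (n + 1)) F0}
    {g : A → ℕ} (hG : ∀ a, (G a).IsHomogeneous (g a)) {D : I → ℕ}
    (hD : ∀ i a, d (i, a) + g a = D i) (H : I × A → MvPolynomial (Fin (n + 1)) F)
    (hH : ∀ p, (H p).IsHomogeneous (d p))
    (hgen : AlgebraicIndependent F0
      fun p : {p : (I × A) × (Fin (n + 1) →₀ ℕ) // p.2.degree = d p.1} =>
        (H p.1.1).coeff p.1.2) :
    ∃ C : ℕ, ∀ (V : Set (MvPolynomial (Fin (n + 1)) F0)) (m : ℕ), DimLE F0 V m →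
      ∀ (L : Type) [Field L] [Algebra k L] [Algebra F L] [Algebra F0 L]
        [IsScalarTower k F L] [IsScalarTower F0 F L] [FiniteDimensional F L]
        (x : Fin (n + 1) → L) (ψ : I → L), x ≠ 0 → (∀ p ∈ V, aeval x p = 0) →
      (∃ a, aeval x (G a) ≠ 0) → (∀ i, ψ i = ∑ a, aeval x (G a) * aeval x (H (i, a))) →
      ∀ κ : ℤ, (∀ B : Finset (I × A), B.card = Fintype.card I →
        κ + 2 * m + 1 ≤ ∑ p ∈ B, (d p : ℤ) + {i | ψ i = 0}.ncard) →
      κ * pht k x ≤ {P : Place k L | ∃ i, ψ i ≠ 0 ∧ D i * pord P x < P.ord (ψ i)}.ncard +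
        canDeg k L + C * Module.finrank F L := by
  classical
  obtain ⟨C, hC⟩ := zlog_main (k0 := k0) (k := k) hfg d H hH hgen
    (fun i => ∑ a, rename Sum.inl (G a) * X (Sum.inr (i, a))) D (fun i => by
      refine IsWeightedHomogeneous.sum _ _ _ fun a _ => ?_
      have h1 : D i = g a + d (i, a) := by rw [← hD i a, add_comm]
      have h2 : IsWeightedHomogeneous (Sum.elim (fun _ => 1) d : Fin (n + 1) ⊕ (I × A) → ℕ)
          (rename Sum.inl (G a)) (g a) := wh_rename (fun _ => rfl) (hG a)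
      have h3 : IsWeightedHomogeneous (Sum.elim (fun _ => 1) d : Fin (n + 1) ⊕ (I × A) → ℕ)
          (X (Sum.inr (i, a)) : MvPolynomial (Fin (n + 1) ⊕ (I × A)) F0) (d (i, a)) :=
        isWeightedHomogeneous_X F0 _ _
      rw [h1]
      exact h2.mul h3)
  refine ⟨C, ?_⟩
  intro V m hV L _ _ _ _ _ _ _ x ψ hx hxV hxG hψ κ hκ
  obtain ⟨a0, ha0⟩ := hxG
  obtain ⟨j0, hj0⟩ := Function.ne_iff.1 hx
  have hj0 : x j0 ≠ 0 := hj0
  obtain ⟨u, hu⟩ : ∃ u : I × A → L, ∀ p, u p = aeval x (H p) := ⟨_, fun _ => rfl⟩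
  obtain ⟨x', hx'⟩ : ∃ x' : Fin (n + 1) → L, x' = (x j0)⁻¹ • x := ⟨_, rfl⟩
  obtain ⟨u', hu'⟩ : ∃ u' : I × A → L, ∀ p, u' p = (x j0)⁻¹ ^ d p * u p := ⟨_, fun _ => rfl⟩
  have hlam : (x j0)⁻¹ ≠ 0 := inv_ne_zero hj0
  have hGx : ∀ a, aeval x' (G a) = (x j0)⁻¹ ^ g a * aeval x (G a) := fun a => by
    rw [hx', Pool.Agent.TH145.MG.aeval_smul (hG a)]
  obtain ⟨ψ', hψ'⟩ : ∃ ψ' : I → L, ∀ i, ψ' i = (x j0)⁻¹ ^ D i * ψ i := ⟨_, fun _ => rfl⟩
  have hxe' : ∀ i, ∑ a, aeval x' (G a) * u' (i, a) = ψ' i := fun i => by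
    rw [hψ', hψ, Finset.mul_sum]
    refine Finset.sum_congr rfl fun a _ => ?_
    rw [hGx, hu', ← hD i a, pow_add, hu]
    ring
  have hval : ∀ i, ψ i = aeval (Sum.elim x u)
      (∑ a, rename Sum.inl (G a) * X (Sum.inr (i, a))) := fun i => by
    rw [map_sum, hψ]
    refine Finset.sum_congr rfl fun a _ => ?_
    rw [map_mul, aeval_rename, aeval_X, ← hu]
    rfl
  obtain ⟨T, hT⟩ : ∃ T : Finset I, T = Finset.univ.filter fun i => ¬ ψ i = 0 := ⟨_, rfl⟩
  have hTm : ∀ i, i ∈ T ↔ ψ i ≠ 0 := fun i => by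
    rw [hT, Finset.mem_filter]
    exact ⟨fun h => h.2, fun h => ⟨Finset.mem_univ _, h⟩⟩
  have hTc : ({i | ψ i = 0}.ncard : ℤ) = Fintype.card I - T.card := by
    have h1 : {i | ψ i = 0}.ncard = (Finset.univ.filter fun i => ψ i = 0).card := by
      rw [← Set.ncard_coe_finset]
      congr 1
      ext a
      simp
    have h2 := Finset.card_filter_add_card_filter_not (s := (Finset.univ : Finset I))
      (fun i => ψ i = 0)
    rw [Finset.card_univ] at h2
    rw [h1, hT]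
    omega
  have hr := hV L x hx hxV
  have hs : Algebra.trdeg F0 (CoordsB F0 x D T ψ) ≤ (m + T.card : ℕ) := by
    refine (trdeg_CoordsB hj0 hψ' hr (fun i : T => ψ' i) fun b hb =>
      subset_cl ⟨⟨b, hb⟩, rfl⟩).trans ?_
    rw [Nat.card_eq_fintype_card, Fintype.card_coe]
  -- the values of the forms
  have hxK : ∀ l, x' l ∈ CoordsB F0 x D T ψ := fun l =>
    IntermediateField.subset_adjoin _ _ (Or.inl ⟨l, j0, hj0, by
      rw [hx', Pi.smul_apply, smul_eq_mul, inv_mul_eq_div]⟩)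
  have hF : ∀ a, ∃ c : CoordsB F0 x D T ψ, (c : L) = aeval x' (G a) := by
    intro a
    obtain ⟨y, hy⟩ : ∃ y : Fin (n + 1) → CoordsB F0 x D T ψ, ∀ i, (y i : L) = x' i :=
      ⟨fun i => ⟨x' i, hxK i⟩, fun _ => rfl⟩
    refine ⟨aeval y (G a), ?_⟩
    have h1 := aeval_algebraMap_apply L y (G a)
    have h2 : (algebraMap (CoordsB F0 x D T ψ) L) ∘ y = x' := funext hy
    rw [h2] at h1
    exact h1.symm
  choose c hc using hF
  have hψK : ∀ i, ∃ e : CoordsB F0 x D T ψ, (e : L) = ψ' i := by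
    intro i
    by_cases hi : ψ i = 0
    · exact ⟨0, by rw [hψ', hi, mul_zero]; rfl⟩
    · exact ⟨⟨ψ' i, IntermediateField.subset_adjoin _ _ (Or.inr ⟨i, (hTm i).2 hi, j0, hj0, by
        rw [hψ', inv_pow, inv_mul_eq_div]⟩)⟩, rfl⟩
  choose e he using hψK
  have ha0' : aeval x' (G a0) ≠ 0 := by
    rw [hGx]
    exact mul_ne_zero (pow_ne_zero _ hlam) ha0
  have h0 : ∀ p, u' p ∈ TH145.MG.cl (CoordsB F0 x D T ψ)
      (Set.range fun p : {p : I × A // p.2 ≠ a0} => u' p) := by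
    rintro ⟨b, a⟩
    by_cases ha : a = a0
    · subst ha
      have h1 := hxe' b
      rw [← Finset.add_sum_erase _ _ (Finset.mem_univ a)] at h1
      have h2 : u' (b, a) = ((e b : L) - ∑ a' ∈ Finset.univ.erase a, (c a' : L) * u' (b, a')) /
          (c a : L) := by
        rw [hc, eq_div_iff ha0', mul_comm, he, ← h1]
        have h3 : ∑ a' ∈ Finset.univ.erase a, (c a' : L) * u' (b, a') =
            ∑ a' ∈ Finset.univ.erase a, aeval x' (G a') * u' (b, a') :=
          Finset.sum_congr rfl fun a' _ => by rw [hc]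
        rw [h3]
        ring
      rw [h2]
      refine div_mem (sub_mem ?_ (sum_mem fun a' ha' => mul_mem ?_ ?_)) ?_
      · exact IntermediateField.algebraMap_mem _ (e b)
      · exact IntermediateField.algebraMap_mem _ (c a')
      · exact subset_cl ⟨⟨(b, a'), (Finset.mem_erase.1 ha').1⟩, rfl⟩
      · exact IntermediateField.algebraMap_mem _ (c a)
    · exact subset_cl ⟨⟨(b, a), ha⟩, rfl⟩
  have h1 : Nat.card {p : I × A // p.2 ≠ a0} = Fintype.card I * (Fintype.card A - 1) := by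
    have e : {p : I × A // p.2 ≠ a0} ≃ I × {a : A // a ≠ a0} :=
      ⟨fun p => (p.1.1, ⟨p.1.2, p.2⟩), fun q => ⟨(q.1, q.2.1), q.2.2⟩, fun _ => rfl,
        fun _ => rfl⟩
    rw [Nat.card_congr e, Nat.card_prod, Nat.card_eq_fintype_card,
      Nat.card_eq_fintype_card]
    congr 1
    rw [Fintype.card_subtype_compl, Fintype.card_subtype_eq]
  have hf := trdeg_vals hj0 (coords_le x D T ψ) hu' _ h0
  rw [h1] at hf
  have key := hC L x u ψ hx hu hval T m (m + T.card) (Fintype.card I * (Fintype.card A - 1)) κ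
    (fun b hb => (hTm b).1 hb) hr hs hf (fun B hB => by
      rw [Fintype.card_prod] at hB
      have h2 : 1 ≤ Fintype.card A := Fintype.card_pos_iff.2 ⟨a0⟩
      obtain ⟨N, hN⟩ : ∃ N, Fintype.card A = N + 1 := ⟨Fintype.card A - 1, by omega⟩
      rw [hN, Nat.mul_succ, Nat.add_sub_cancel] at hB
      obtain ⟨B', hB', hB'c⟩ := Finset.exists_subset_card_eq
        (show Fintype.card I ≤ B.card by omega)
      have h3 := hκ B' hB'c
      rw [hTc] at h3
      have h4 : ∑ p ∈ B', ((d p : ℤ) + 1) ≤ ∑ p ∈ B, ((d p : ℤ) + 1) :=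
        Finset.sum_le_sum_of_subset_of_nonneg hB' fun _ _ _ => by positivity
      rw [Finset.sum_add_distrib, Finset.sum_const, hB'c, nsmul_eq_mul, mul_one] at h4
      push_cast
      linarith)
  have hset : {P : Place k L | ∃ i, ψ i ≠ 0 ∧ D i * pord P x < P.ord (ψ i)} =
      {P : Place k L | ∃ b ∈ T, D b * pord P x < P.ord (ψ b)} := by
    ext P
    simp only [Set.mem_ofPred_eq, hTm]
  rw [hset]
  exact key

end prod

end Pool.Agent.KS6_26.E
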