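import Pool.Agent.KS6_26.E.One
import Pool.Agent.KS6_26.D.Zero

/-!
The height inequality for the preimages of pairs under generic maps.
-/

set_option autoImplicit false

open MvPolynomial FF Pool.Agent.W603.LV Pool.Agent.W603.PV Pool.Agent.TH145.GH
open Pool.Agent.W602.GT (coords)
open Pool.Agent.KS6_26.D (mn mn_zero mn_add mn_single mdeg Blk DI finrank_DI_le exists_Mn mdeg_unit
  coeff_unit blk_unit aeval_sum aeval_weight)

namespace Pool.Agent.KS6_26.E

/-- The order of a monomial in variables with weights. -/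
theorem ge_mnw {k K σ : Type} [Field k] [Field K] [Algebra k K] (P : Place k K) (wt : σ → ℕ)
    {p : ℤ} {z : σ → K} (hz : ∀ l, Ge P (wt l * p) (z l)) (J : σ →₀ ℕ) :
    Ge P (Finsupp.weight wt J * p) (mn z J) := by
  induction J using Finsupp.induction_linear with
  | zero =>
    rw [mn_zero, map_zero, Nat.cast_zero, zero_mul]
    exact Ge.one
  | add f g hf hg =>
    rw [mn_add, map_add, Nat.cast_add, add_mul]
    exact hf.mul hg
  | single l e =>
    rw [mn_single, Finsupp.weight_single, smul_eq_mul]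
    rcases hz l with h | h
    · rcases Nat.eq_zero_or_pos e with rfl | he
      · rw [pow_zero, zero_mul, Nat.cast_zero, zero_mul]
        exact Ge.one
      · rw [h, zero_pow he.ne']
        exact Ge.zero
    · right
      rw [P.ord_pow]
      push_cast
      rw [mul_assoc]
      exact mul_le_mul_of_nonneg_left h (by positivity)

/-- The field generated by the ratios of the coordinates, and by the values of the functions `φ b`,
`b ∈ T`, on normalised coordinates. -/
def CoordsB (k0 : Type) {L Λ : Type} [Field k0] [Field L] [Algebra k0 L] {n : ℕ}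
    (x : Fin (n + 1) → L) (w : Λ → ℕ) (T : Finset Λ) (ψ : Λ → L) : IntermediateField k0 L :=
  IntermediateField.adjoin k0 ({z | ∃ i j, x j ≠ 0 ∧ z = x i / x j} ∪
    {z | ∃ b ∈ T, ∃ j, x j ≠ 0 ∧ z = ψ b / x j ^ w b})

/-- The numerical condition, from the dimensions. -/
theorem numK_of_zlog {k0 L A Λ : Type} [Field k0] [Field L] [Algebra k0 L] [CharZero L] {n : ℕ}
    [Fintype A] {d : A → ℕ} {x y : Fin (n + 1) → L} {j0 : Fin (n + 1)} (hj0 : x j0 ≠ 0)
    (hy : ∀ l, y l = (x j0)⁻¹ * x l) {w : Λ → ℕ} {T : Finset Λ} {ψ ψ' : Λ → L}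
    (hψ : ∀ b, ψ' b = (x j0)⁻¹ ^ w b * ψ b) {u v : A → L} (hv : ∀ a, v a = (x j0)⁻¹ ^ d a * u a)
    {r s f : ℕ} {κ : ℤ} (hr : Algebra.trdeg k0 (coords k0 x) ≤ r)
    (hs : Algebra.trdeg k0 (CoordsB k0 x w T ψ) ≤ s)
    (hf : Algebra.trdeg (CoordsB k0 x w T ψ) (IntermediateField.adjoin (CoordsB k0 x w T ψ)
      {z | ∃ a j, x j ≠ 0 ∧ z = u a / x j ^ d a}) ≤ f)
    (hκ : ∀ B : Finset A, Fintype.card A ≤ B.card + f →
      κ + r + s + 1 ≤ ∑ a ∈ B, ((d a : ℤ) + 1)) :
    NumK k0 (∅ : Set A) (fun _ : Fin (n + 1) => ()) (fun a _ => d a) 0 (fun _ : T => 0)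
      (fun _ => κ) y v (fun b : T => ψ' b) := by
  have h1 : ∀ l, y l ∈ coords k0 x := fun l =>
    IntermediateField.subset_adjoin _ _ ⟨l, j0, hj0, by rw [hy, inv_mul_eq_div]⟩
  have h2 : ∀ i : Fin (n + 1) ⊕ T, Sum.elim y (fun b : T => ψ' b) i ∈ CoordsB k0 x w T ψ := by
    rintro (l | b)
    · exact IntermediateField.subset_adjoin _ _ (Or.inl ⟨l, j0, hj0, by
        simp only [Sum.elim_inl]
        rw [hy, inv_mul_eq_div]⟩)
    · exact IntermediateField.subset_adjoin _ _ (Or.inr ⟨b, b.2, j0, hj0, by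
        simp only [Sum.elim_inr]
        rw [hψ, inv_pow, inv_mul_eq_div]⟩)
  refine ⟨s, f, fun _ => r, ?_, fun t => finrank_DI_le
    (fun l : {l : Fin (n + 1) // (fun _ => ()) l = t} => y l) _ (fun l => h1 l) hr, ?_,
    fun B hB t => ?_⟩
  · refine le_trans (Submodule.finrank_mono ?_)
      (finrank_DI_le (Sum.elim y fun b : T => ψ' b) _ h2 hs)
    rintro z ⟨D, e, hD, he, hx, hz⟩
    refine ⟨D, hD, ?_⟩
    rintro (l | b)
    · exact hx l
    · rw [hz b]
      simp
  · have h3 : ∀ a, v a ∈ IntermediateField.adjoin (CoordsB k0 x w T ψ)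
        {z | ∃ a j, x j ≠ 0 ∧ z = u a / x j ^ d a} := fun a =>
      IntermediateField.subset_adjoin _ _ ⟨a, j0, hj0, by rw [hv, inv_pow, inv_mul_eq_div]⟩
    refine le_trans (Submodule.finrank_mono ?_)
      (finrank_DI_le (k0 := CoordsB k0 x w T ψ) v _ h3 hf)
    rintro z ⟨D, e, hD, he, hx, hψz, hz⟩
    refine ⟨D, fun c => ?_, fun a => ?_⟩
    · have hyx : ∀ i j, x j ≠ 0 → x i / x j = y i / y j := by
        intro i j hj
        rw [hy, hy]
        field_simp
      have hZ : ∀ z ∈ Subfield.closure (Set.range (algebraMap k0 L) ∪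
          ({z | ∃ i j, x j ≠ 0 ∧ z = x i / x j} ∪
            {z | ∃ b ∈ T, ∃ j, x j ≠ 0 ∧ z = ψ b / x j ^ w b})), D z = 0 := by
        intro z hz
        induction hz using Subfield.closure_induction with
        | mem z hz =>
          rcases hz with ⟨r, rfl⟩ | ⟨i, j, hj, rfl⟩ | ⟨b, hb, j, hj, rfl⟩
          · exact hD r
          · rw [hyx i j hj, Derivation.leibniz_div, hx, hx]
            simp
          · have h3 : ψ b / x j ^ w b = ψ' b / y j ^ w b := by
              rw [hψ, hy, mul_pow]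
              have := pow_ne_zero (w b) hj
              field_simp
            have h4 : D (ψ' b) = 0 := by
              have h5 := hψz ⟨b, hb⟩
              simpa using h5
            rw [h3, Derivation.leibniz_div, Derivation.leibniz_pow, hx, h4]
            simp
        | one => exact D.map_one_eq_zero
        | add a b _ _ ha hb => rw [map_add, ha, hb, add_zero]
        | neg a _ ha => rw [map_neg, ha, neg_zero]
        | inv a _ ha => rw [Derivation.leibniz_inv, ha, smul_zero]
        | mul a b _ _ ha hb => rw [D.leibniz, ha, hb, smul_zero, smul_zero, add_zero]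
      refine hZ _ ?_
      rw [← IntermediateField.adjoin_toSubfield]
      exact c.2
    · rw [hz a, he a (Set.notMem_empty a), zero_mul, sub_zero]
  · have h3 := hκ B hB
    push_cast
    linarith

/-- **The height inequality for the preimages of pairs under generic maps.** -/
theorem zlog_main {k0 k F0 F : Type} [Field k0] [Field k] [Field F0] [Field F] [Algebra k0 k]
    [Algebra k F] [Algebra k0 F] [IsScalarTower k0 k F] [Algebra k0 F0] [Algebra F0 F]
    [IsScalarTower k0 F0 F] [IsAlgClosed k] [CharZero k] [IsFF k F]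
    (hfg : ∃ S : Finset F0, IntermediateField.adjoin k0 (S : Set F0) = ⊤) {n : ℕ}
    {A : Type} [Fintype A] (d : A → ℕ) (H : A → MvPolynomial (Fin (n + 1)) F)
    (hH : ∀ a, (H a).IsHomogeneous (d a))
    (hgen : AlgebraicIndependent F0
      fun p : {p : A × (Fin (n + 1) →₀ ℕ) // p.2.degree = d p.1} => (H p.1.1).coeff p.1.2)
    {Λ : Type} [Fintype Λ] (φ : Λ → MvPolynomial (Fin (n + 1) ⊕ A) F0) (w : Λ → ℕ)
    (hφ : ∀ b, IsWeightedHomogeneous (Sum.elim (fun _ => 1) d) (φ b) (w b)) :
    ∃ C : ℕ, ∀ (L : Type) [Field L] [Algebra k L] [Algebra F L] [Algebra F0 L]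
      [IsScalarTower k F L] [IsScalarTower F0 F L] [FiniteDimensional F L]
      (x : Fin (n + 1) → L) (u : A → L) (ψ : Λ → L), x ≠ 0 → (∀ a, u a = aeval x (H a)) →
      (∀ b, ψ b = aeval (Sum.elim x u) (φ b)) → ∀ (T : Finset Λ) (r s f : ℕ) (κ : ℤ),
      (∀ b ∈ T, ψ b ≠ 0) → Algebra.trdeg F0 (coords F0 x) ≤ r →
      Algebra.trdeg F0 (CoordsB F0 x w T ψ) ≤ s →
      Algebra.trdeg (CoordsB F0 x w T ψ) (IntermediateField.adjoin (CoordsB F0 x w T ψ)
        {z | ∃ a j, x j ≠ 0 ∧ z = u a / x j ^ d a}) ≤ f →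
      (∀ B : Finset A, Fintype.card A ≤ B.card + f →
        κ + r + s + 1 ≤ ∑ a ∈ B, ((d a : ℤ) + 1)) →
      κ * pht k x ≤ {P : Place k L | ∃ b ∈ T, w b * pord P x < P.ord (ψ b)}.ncard +
        canDeg k L + C * Module.finrank F L := by
  classical
  obtain ⟨Mn, hMn⟩ := exists_Mn (fun _ : Fin (n + 1) => ()) (fun (a : A) (_ : Unit) => d a)
  have hfin := finite_Jx (R := (∅ : Set A)) hMn (fun _ => 0)
  obtain ⟨B, hBi, hBc⟩ := all_of (R := (∅ : Set A)) (k := F0) (K := F)
    (β := fun _ : Fin (n + 1) => ()) (d := fun a _ => d a) (I0 := fun _ => 0)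
    (fun p => p.2.degree = d p.1) (fun p => by
      rw [deg_unit]
      exact ⟨fun h => ⟨h, fun h2 => absurd h2 (Set.notMem_empty _)⟩, fun h => h.1⟩)
    (fun p => (H p.1).coeff p.2) hgen
  obtain ⟨S0, hS0⟩ := exists_supp (k := k) (((Finset.univ : Finset A).biUnion fun a =>
    (Mn a).image fun J => (H a).coeff J) ∪ ((Finset.univ : Finset Λ).biUnion fun b =>
      (φ b).support.image fun J => algebraMap F0 F ((φ b).coeff J))) fun z => z
  obtain ⟨C, hC⟩ := height_main (k0 := k0) (k := k) hfg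
    (β := fun _ : Fin (n + 1) => ()) (d := fun a _ => d a) blk_unit hMn (R := (∅ : Set A))
    (I0 := fun _ => 0) (t := fun a I => (H a).coeff I)
    (fun a ha => absurd ha (Set.notMem_empty a)) hBi hBc S0 (Fintype.card Λ)
  refine ⟨C, ?_⟩
  intro L _ _ _ _ _ _ _ x u ψ hx hu hψ T r s f κ hT hr hs hf hκ
  have hL : IsFF k L := isFF_of_finite (F := F)
  have hLz : CharZero L := charZero_of_injective_algebraMap (algebraMap k L).injective
  obtain ⟨j0, hj0⟩ := Function.ne_iff.1 hx
  have hj0 : x j0 ≠ 0 := hj0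
  have hlam : (x j0)⁻¹ ≠ 0 := inv_ne_zero hj0
  obtain ⟨y, hy⟩ : ∃ y : Fin (n + 1) → L, y = fun l => (x j0)⁻¹ * x l := ⟨_, rfl⟩
  have hyx : y = (x j0)⁻¹ • x := by rw [hy]; rfl
  obtain ⟨v, hv⟩ : ∃ v : A → L, ∀ a, v a = (x j0)⁻¹ ^ d a * u a := ⟨_, fun _ => rfl⟩
  obtain ⟨ψ', hψ'⟩ : ∃ ψ' : Λ → L, ∀ b, ψ' b = (x j0)⁻¹ ^ w b * ψ b := ⟨_, fun _ => rfl⟩
  have hval : ∀ a, v a = ∑ J ∈ Mn a, algebraMap F L ((H a).coeff J) * mn y J := by
    intro a
    rw [hv, hu, ← Pool.Agent.TH145.MG.aeval_smul (hH a), ← hyx]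
    exact aeval_sum (fun J hJ => (hMn a J).2 (coeff_unit hH a J hJ)) y
  have hψv : ∀ b, ψ' b = aeval (Sum.elim y v) (φ b) := by
    intro b
    rw [hψ', hψ, ← aeval_weight (hφ b) (x j0)⁻¹ (Sum.elim x u)]
    congr 2
    funext l
    rcases l with l | a
    · simp [hy]
    · simp only [Sum.elim_inr]
      rw [hv]
  have hne : ∃ j, x j ≠ 0 := ⟨j0, hj0⟩
  have hpo : ∀ P : Place k L, pord P y = P.ord (x j0)⁻¹ + pord P x := fun P => by
    rw [hy]
    exact pord_scale P hne hlam
  have hph : pht k y = pht k x := by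
    rw [hy]
    exact pht_scale hne hlam
  have hint : ∀ P : Place k L, under F P ∉ S0 → ∀ z : F, z ∈ (((Finset.univ : Finset A).biUnion
      fun a => (Mn a).image fun J => (H a).coeff J) ∪ ((Finset.univ : Finset Λ).biUnion fun b =>
      (φ b).support.image fun J => algebraMap F0 F ((φ b).coeff J))) →
      Ge (under F P) 0 z := by
    intro P hP z hz
    right
    by_contra hcon
    exact hP (hS0 z hz _ fun h => hcon h.ge)
  have key := hC L y (fun _ => j0) (fun _ => rfl)
    (fun _ => by rw [hy]; exact inv_mul_cancel₀ hj0) v hval T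
    (by rw [Fintype.card_coe]; exact Finset.card_le_univ T) (fun b _ => w b) (fun _ => 0)
    (fun b => ψ' b) (fun b => by
      rw [hψ']
      exact mul_ne_zero (pow_ne_zero _ hlam) (hT b b.2)) (fun P b hP => by
      have h1 : ∀ l, Ge P ((Sum.elim (fun _ => 1) d : Fin (n + 1) ⊕ A → ℕ) l * pord P y)
          (Sum.elim y v l) := by
        rintro (l | a)
        · simp only [Sum.elim_inl, Nat.cast_one, one_mul]
          by_cases hl : y l = 0
          · rw [hl]; exact Ge.zero
          · exact Or.inr (pord_le P hl)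
        · simp only [Sum.elim_inr]
          rw [hval]
          have h2 := ge_val (k := k) (L := L) (P := P) (x := y) (e := fun _ : Unit => d a)
            (t := fun J => (H a).coeff J) (M := Mn a)
            (blk_unit (n := n)) (fun J hJ => (hMn a J).1 hJ) (fun J hJ => hint P hP _
              (Finset.mem_union_left _ (Finset.mem_biUnion.2 ⟨a, Finset.mem_univ _,
                Finset.mem_image_of_mem _ hJ⟩)))
          simpa using h2
      have h3 : Ge P (w b * pord P y) (ψ' b) := by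
        rw [hψv, aeval_sum (M := (φ b).support) (fun J hJ => mem_support_iff.2 hJ)]
        refine Ge.sum _ _ fun J hJ => ?_
        have h4 := ge_mnw P _ h1 J
        rw [hφ b (mem_support_iff.1 hJ)] at h4
        have h5 : Ge P 0 (algebraMap F0 L ((φ b).coeff J)) := by
          rw [IsScalarTower.algebraMap_apply F0 F L]
          rcases hint P hP _ (Finset.mem_union_right _ (Finset.mem_biUnion.2 ⟨b.1,
            Finset.mem_univ _, Finset.mem_image_of_mem _ hJ⟩)) with h | h
          · left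
            rw [h, map_zero]
          · right
            rw [ord_under]
            exact mul_nonneg (by positivity) h
        have h6 := h5.mul h4
        rwa [zero_add] at h6
      simpa using h3) (fun _ => κ)
    (numK_of_zlog hj0 (fun l => by rw [hy]) hψ' hv hr hs hf hκ)
  simp only [Finset.univ_unique, Finset.sum_singleton, id] at key
  rw [hph] at key
  have hset : {P : Place k L | ∃ b : T, (w b : ℤ) * pord P y < P.ord (ψ' b)} =
      {P : Place k L | ∃ b ∈ T, w b * pord P x < P.ord (ψ b)} := by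
    ext P
    have h1 : ∀ b ∈ T, ((w b : ℤ) * pord P y < P.ord (ψ' b) ↔
        w b * pord P x < P.ord (ψ b)) := by
      intro b hb
      rw [hpo, hψ', P.ord_mul (pow_ne_zero _ hlam) (hT b hb), P.ord_pow, mul_add]
      exact add_lt_add_iff_left _
    constructor
    · rintro ⟨b, hb⟩
      exact ⟨b, b.2, (h1 b b.2).1 hb⟩
    · rintro ⟨b, hb, h⟩
      exact ⟨⟨b, hb⟩, (h1 b hb).2 h⟩
  rw [hset] at key
  exact key

end Pool.Agent.KS6_26.E
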